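import Mathlib

open Polynomial Finset Filter Topology

namespace Pool.Agent.Q213.Bes

/-- alternating sign chains above `a`: points `a < t_0 < ... < t_k` with `f t_0 > 0 > f t_1 ...`. -/
def Alt : ℕ → (ℝ → ℝ) → ℝ → Prop
  | 0 => fun f a => ∃ t, a < t ∧ 0 < f t
  | k + 1 => fun f a => ∃ t, a < t ∧ 0 < f t ∧ Alt k (fun x => - f x) t

lemma Alt.mono {k : ℕ} {f : ℝ → ℝ} {a b : ℝ} (hab : a ≤ b) (h : Alt k f b) : Alt k f a := by
  cases k with
  | zero => obtain ⟨t, h1, h2⟩ := h; exact ⟨t, hab.trans_lt h1, h2⟩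
  | succ k => obtain ⟨t, h1, h2, h3⟩ := h; exact ⟨t, hab.trans_lt h1, h2, h3⟩

lemma Alt.of_mul {k : ℕ} : ∀ {f g h : ℝ → ℝ} {a : ℝ}, (∀ x, a < x → 0 < h x) →
    (∀ x, a < x → f x = h x * g x) → Alt k f a → Alt k g a := by
  induction k with
  | zero =>
    intro f g h a hh hf hA
    obtain ⟨t, h1, h2⟩ := hA
    refine ⟨t, h1, ?_⟩
    rw [hf t h1] at h2
    exact pos_of_mul_pos_right h2 (hh t h1).le
  | succ k ih =>
    intro f g h a hh hf hA
    obtain ⟨t, h1, h2, h3⟩ := hA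
    refine ⟨t, h1, ?_, ?_⟩
    · rw [hf t h1] at h2
      exact pos_of_mul_pos_right h2 (hh t h1).le
    · refine ih (f := fun x => - f x) (h := h) (fun x hx => hh x (h1.trans hx)) (fun x hx => ?_) h3
      rw [hf x (h1.trans hx)]; ring

/-- multiply by a positive function -/
lemma Alt.mul {k : ℕ} : ∀ {g h : ℝ → ℝ} {a : ℝ}, (∀ x, a < x → 0 < h x) →
    Alt k g a → Alt k (fun x => h x * g x) a := by
  induction k with
  | zero =>
    intro g h a hh hA
    obtain ⟨t, h1, h2⟩ := hA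
    exact ⟨t, h1, mul_pos (hh t h1) h2⟩
  | succ k ih =>
    intro g h a hh hA
    obtain ⟨t, h1, h2, h3⟩ := hA
    refine ⟨t, h1, mul_pos (hh t h1) h2, ?_⟩
    have := ih (g := fun x => - g x) (h := h) (fun x hx => hh x (h1.trans hx)) h3
    simpa only [mul_neg] using this

lemma mvt_pos {F f : ℝ → ℝ} {a b : ℝ} (hab : a < b) (hc : ContinuousOn F (Set.Icc a b))
    (hd : ∀ x ∈ Set.Ioo a b, HasDerivAt F (f x) x) (h : F a < F b) :
    ∃ ξ, a < ξ ∧ ξ < b ∧ 0 < f ξ := by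
  obtain ⟨ξ, h1, h2⟩ := exists_hasDerivAt_eq_slope F f hab hc hd
  refine ⟨ξ, h1.1, h1.2, ?_⟩
  rw [h2]
  exact div_pos (by linarith) (by linarith)

/-- Rolle with a zero at the left end point and at infinity -/
lemma Alt.deriv {k : ℕ} : ∀ {F f : ℝ → ℝ} {a : ℝ}, ContinuousOn F (Set.Ici a) →
    (∀ x, a < x → HasDerivAt F (f x) x) → F a ≤ 0 → Tendsto F atTop (𝓝 0) →
    Alt k F a → Alt (k + 1) f a := by
  induction k with
  | zero =>
    intro F f a hc hd ha hT hA
    obtain ⟨t, h1, h2⟩ := hA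
    obtain ⟨ξ, x1, x2, x3⟩ := mvt_pos (F := F) (f := f) h1
      (hc.mono (fun x hx => hx.1)) (fun x hx => hd x hx.1) (by linarith)
    refine ⟨ξ, x1, x3, ?_⟩
    obtain ⟨T, hT1, hT2⟩ := ((hT.eventually (gt_mem_nhds h2)).and (eventually_gt_atTop t)).exists
    obtain ⟨η, y1, y2, y3⟩ := mvt_pos (F := fun x => - F x) (f := fun x => - f x) hT2
      (hc.neg.mono (fun x hx => h1.le.trans hx.1)) (fun x hx => (hd x (h1.trans hx.1)).neg)
      (by linarith)
    exact ⟨η, x2.trans y1, y3⟩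
  | succ k ih =>
    intro F f a hc hd ha hT hA
    obtain ⟨t, h1, h2, h3⟩ := hA
    obtain ⟨ξ, x1, x2, x3⟩ := mvt_pos (F := F) (f := f) h1
      (hc.mono (fun x hx => hx.1)) (fun x hx => hd x hx.1) (by linarith)
    refine ⟨ξ, x1, x3, ?_⟩
    refine Alt.mono x2.le ?_
    refine ih (F := fun x => - F x) (f := fun x => - f x)
      (hc.neg.mono (fun x hx => h1.le.trans hx)) (fun x hx => (hd x (h1.trans hx)).neg)
      (by linarith) (by simpa using hT.neg) h3

/-- Rolle between the points of a chain -/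
lemma Alt.deriv' {k : ℕ} : ∀ {F f : ℝ → ℝ} {a : ℝ},
    (∀ x, a ≤ x → HasDerivAt F (f x) x) → F a < 0 → Alt k F a → Alt k f a := by
  induction k with
  | zero =>
    intro F f a hd ha hA
    obtain ⟨t, h1, h2⟩ := hA
    obtain ⟨ξ, x1, x2, x3⟩ := mvt_pos (F := F) (f := f) h1
      (fun x hx => (hd x hx.1).continuousAt.continuousWithinAt) (fun x hx => hd x hx.1.le) (by linarith)
    exact ⟨ξ, x1, x3⟩
  | succ k ih =>
    intro F f a hd ha hA
    obtain ⟨t, h1, h2, h3⟩ := hA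
    obtain ⟨ξ, x1, x2, x3⟩ := mvt_pos (F := F) (f := f) h1
      (fun x hx => (hd x hx.1).continuousAt.continuousWithinAt) (fun x hx => hd x hx.1.le) (by linarith)
    refine ⟨ξ, x1, x3, ?_⟩
    refine Alt.mono x2.le ?_
    exact ih (F := fun x => - F x) (f := fun x => - f x)
      (fun x hx => (hd x (h1.le.trans hx)).neg) (by linarith) h3

lemma Alt.roots {k : ℕ} : ∀ {f : ℝ → ℝ} {a : ℝ}, Continuous f → 0 < f a →
    Alt k (fun x => - f x) a → ∃ S : Finset ℝ, S.card = k + 1 ∧ ∀ r ∈ S, a < r ∧ f r = 0 := by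
  induction k with
  | zero =>
    intro f a hf ha hA
    obtain ⟨t, h1, h2⟩ := hA
    have h3 : (0 : ℝ) ∈ Set.Icc (f t) (f a) := ⟨by simp only at h2; linarith, ha.le⟩
    obtain ⟨r, hr, hr0⟩ := intermediate_value_Icc' h1.le hf.continuousOn h3
    refine ⟨{r}, by simp, ?_⟩
    intro r' hr'
    rw [Finset.mem_singleton] at hr'
    subst hr'
    refine ⟨lt_of_le_of_ne hr.1 ?_, hr0⟩
    rintro rfl
    exact ha.ne' hr0
  | succ k ih =>
    intro f a hf ha hA
    obtain ⟨t, h1, h2, h3⟩ := hA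
    have h4 : (0 : ℝ) ∈ Set.Icc (f t) (f a) := ⟨by simp only at h2; linarith, ha.le⟩
    obtain ⟨r, hr, hr0⟩ := intermediate_value_Icc' h1.le hf.continuousOn h4
    have hra : a < r := by
      refine lt_of_le_of_ne hr.1 ?_
      rintro rfl
      exact ha.ne' hr0
    have hrt : r < t := by
      refine lt_of_le_of_ne hr.2 ?_
      rintro rfl
      simp only [hr0] at h2
      simp at h2
    obtain ⟨S, hS1, hS2⟩ := ih (f := fun x => - f x) hf.neg h2 h3
    refine ⟨insert r S, ?_, ?_⟩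
    · rw [Finset.card_insert_of_notMem, hS1]
      intro hrS
      exact absurd (hS2 r hrS).1 (not_lt.2 hrt.le)
    · intro r' hr'
      rw [Finset.mem_insert] at hr'
      rcases hr' with rfl | hr'
      · exact ⟨hra, hr0⟩
      · obtain ⟨g1, g2⟩ := hS2 r' hr'
        exact ⟨hra.trans (hrt.trans g1), by simpa using g2⟩


/-- `(c)_m = c (c+1) ... (c+m-1)` -/
noncomputable def rp (c : ℝ) (m : ℕ) : ℝ := ∏ i ∈ range m, (c + i)

lemma rp_zero (c : ℝ) : rp c 0 = 1 := by simp [rp]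

lemma rp_succ (c : ℝ) (m : ℕ) : rp c (m + 1) = rp c m * (c + m) := by
  rw [rp, prod_range_succ]; rfl

lemma rp_succ' (c : ℝ) (m : ℕ) : rp c (m + 1) = c * rp (c + 1) m := by
  rw [rp, prod_range_succ', rp]
  rw [mul_comm]
  congr 1
  · simp
  · refine prod_congr rfl (fun i _ => ?_)
    push_cast; ring

lemma rp_pos {c : ℝ} (hc : 0 < c) (m : ℕ) : 0 < rp c m := by
  refine prod_pos (fun i _ => ?_)
  positivity

/-- `∑ (-1)^m (N choose m) e_m X^m` -/
noncomputable def SP (N : ℕ) (e : ℕ → ℝ) : ℝ[X] :=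
  ∑ m ∈ range (N + 1), C ((-1) ^ m * (N.choose m : ℝ) * e m) * X ^ m

lemma SP_coeff (N : ℕ) (e : ℕ → ℝ) (m : ℕ) :
    (SP N e).coeff m = (-1) ^ m * (N.choose m : ℝ) * e m := by
  rw [SP, finsetSum_coeff]
  simp only [coeff_C_mul, coeff_X_pow, mul_ite, mul_one, mul_zero]
  rw [Finset.sum_ite_eq]
  split_ifs with h
  · rfl
  · rw [Finset.mem_range, not_lt] at h
    rw [Nat.choose_eq_zero_of_lt (by omega)]
    simp

lemma SP_eval (N : ℕ) (e : ℕ → ℝ) (x : ℝ) :
    (SP N e).eval x = ∑ m ∈ range (N + 1), (-1) ^ m * (N.choose m : ℝ) * e m * x ^ m := by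
  rw [SP, eval_finsetSum]
  simp

lemma SP_natDegree_le (N : ℕ) (e : ℕ → ℝ) : (SP N e).natDegree ≤ N := by
  rw [natDegree_le_iff_coeff_eq_zero]
  intro m hm
  rw [SP_coeff, Nat.choose_eq_zero_of_lt hm]
  simp

/-- the operator `β + 2 x d/dx` -/
lemma SP_theta (N : ℕ) (e : ℕ → ℝ) (β : ℝ) :
    C β * SP N e + 2 * X * derivative (SP N e) = SP N (fun m => (β + 2 * m) * e m) := by
  ext m
  rw [coeff_add, coeff_C_mul, SP_coeff, SP_coeff]
  cases m with
  | zero =>
    have h : (2 : ℝ[X]) * X * derivative (SP N e) = X * (2 * derivative (SP N e)) := by ring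
    rw [h, coeff_X_mul_zero]
    simp
  | succ m =>
    have h : (2 : ℝ[X]) * X * derivative (SP N e) = X * (C 2 * derivative (SP N e)) := by
      rw [show (C 2 : ℝ[X]) = 2 from rfl]; ring
    rw [h, coeff_X_mul, coeff_C_mul, coeff_derivative, SP_coeff]
    push_cast; ring

/-- the recursion of the (normalised) Laguerre polynomials -/
lemma SP_lag (k : ℕ) (c : ℝ) (hc : 0 < c) :
    C c * SP (k + 1) (fun m => (rp c m)⁻¹) =
      X * derivative (SP k (fun m => (rp (c + 1) m)⁻¹))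
        + (C c - X) * SP k (fun m => (rp (c + 1) m)⁻¹) := by
  ext m
  rw [coeff_C_mul, coeff_add, sub_mul, coeff_sub, coeff_C_mul, SP_coeff]
  cases m with
  | zero =>
    rw [coeff_X_mul_zero, coeff_X_mul_zero, SP_coeff]
    simp [rp_zero]
  | succ m =>
    rw [coeff_X_mul, coeff_X_mul, coeff_derivative, SP_coeff, SP_coeff, rp_succ' c, rp_succ (c + 1),
      Nat.choose_succ_succ]
    have h1 := (rp_pos (c := c + 1) (by linarith) m).ne'
    have h2 : c + 1 + (m : ℝ) ≠ 0 := by positivity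
    push_cast
    field_simp
    ring

/-- derivative of `x ^ c * exp (-x) * p x` -/
lemma hasDeriv_exp (p : ℝ[X]) (c x : ℝ) (hx : 0 < x) :
    HasDerivAt (fun x => x ^ c * Real.exp (-x) * p.eval x)
      (x ^ (c - 1) * Real.exp (-x) * (X * derivative p + (C c - X) * p).eval x) x := by
  have h1 : HasDerivAt (fun x : ℝ => x ^ c) (c * x ^ (c - 1)) x :=
    Real.hasDerivAt_rpow_const (Or.inl hx.ne')
  have h2 : HasDerivAt (fun x : ℝ => Real.exp (-x)) (Real.exp (-x) * (-1)) x :=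
    (hasDerivAt_neg x).exp
  have h3 := p.hasDerivAt x
  have h5 : x ^ c = x ^ (c - 1) * x := by
    rw [← Real.rpow_add_one hx.ne']; congr 1; ring
  refine ((h1.mul h2).mul h3).congr_deriv ?_
  simp only [eval_add, eval_mul, eval_X, eval_sub, eval_C, Pi.mul_apply]
  rw [h5]
  ring

/-- derivative of `x ^ b * p x` -/
lemma hasDeriv_rpow (p : ℝ[X]) (b x : ℝ) (hx : 0 < x) :
    HasDerivAt (fun x => x ^ (b / 2) * p.eval x)
      ((x ^ (b / 2 - 1) / 2) * (C b * p + 2 * X * derivative p).eval x) x := by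
  have h1 : HasDerivAt (fun x : ℝ => x ^ (b / 2)) (b / 2 * x ^ (b / 2 - 1)) x :=
    Real.hasDerivAt_rpow_const (Or.inl hx.ne')
  have h3 := p.hasDerivAt x
  have h5 : x ^ (b / 2) = x ^ (b / 2 - 1) * x := by
    rw [← Real.rpow_add_one hx.ne']; congr 1; ring
  refine (h1.mul h3).congr_deriv ?_
  simp only [eval_add, eval_mul, eval_X, eval_C, eval_ofNat]
  rw [h5]
  ring

lemma tendsto_exp_poly (p : ℝ[X]) (c : ℝ) :
    Tendsto (fun x => x ^ c * Real.exp (-x) * p.eval x) atTop (𝓝 0) := by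
  have h : ∀ i ∈ range (p.natDegree + 1),
      Tendsto (fun x : ℝ => p.coeff i * (x ^ (c + i) * Real.exp (-1 * x))) atTop (𝓝 (p.coeff i * 0)) :=
    fun i _ => (tendsto_rpow_mul_exp_neg_mul_atTop_nhds_zero (c + i) 1 one_pos).const_mul _
  have h2 := tendsto_finsetSum _ h
  simp only [mul_zero, sum_const_zero] at h2
  refine h2.congr' ?_
  filter_upwards [eventually_gt_atTop 0] with x hx
  rw [Polynomial.eval_eq_sum_range, Finset.mul_sum]
  refine sum_congr rfl (fun i _ => ?_)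
  rw [Real.rpow_add_natCast hx.ne', neg_one_mul]
  ring

/-- the Laguerre polynomial has `k` sign changes on `(0, ∞)` -/
lemma lag_alt (k : ℕ) : ∀ c : ℝ, 0 < c → Alt k (fun x => (SP k (fun m => (rp c m)⁻¹)).eval x) 0 := by
  induction k with
  | zero =>
    intro c hc
    refine ⟨1, one_pos, ?_⟩
    show 0 < (SP 0 (fun m => (rp c m)⁻¹)).eval 1
    rw [SP_eval]
    simp [rp_zero]
  | succ k ih =>
    intro c hc
    have h1 := ih (c + 1) (by linarith)
    set p := SP k (fun m => (rp (c + 1) m)⁻¹) with hp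
    have h2 : Alt k (fun x => x ^ c * Real.exp (-x) * p.eval x) 0 :=
      Alt.mul (h := fun x => x ^ c * Real.exp (-x)) (fun x hx => by positivity) h1
    have h3 := Alt.deriv (F := fun x => x ^ c * Real.exp (-x) * p.eval x)
      (f := fun x => x ^ (c - 1) * Real.exp (-x) * (X * derivative p + (C c - X) * p).eval x)
      (a := 0) ?_ (fun x hx => hasDeriv_exp p c x hx) ?_ (tendsto_exp_poly p c) h2
    · refine Alt.of_mul (h := fun x => x ^ (c - 1) * Real.exp (-x) * c) (fun x hx => by positivity)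
        (fun x hx => ?_) h3
      have := congrArg (fun q : ℝ[X] => q.eval x) (SP_lag k c hc)
      rw [← hp] at this
      simp only [eval_mul, eval_C] at this
      rw [← this]
      ring
    · refine Continuous.continuousOn ?_
      have := Real.continuous_rpow_const hc.le
      fun_prop
    · rw [Real.zero_rpow hc.ne']
      simp


lemma Alt.skip {k : ℕ} {f : ℝ → ℝ} {a b : ℝ} (h0 : ∀ x, a < x → x ≤ b → f x ≤ 0)
    (h : Alt k f a) : Alt k f b := by
  cases k with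
  | zero =>
    obtain ⟨t, h1, h2⟩ := h
    refine ⟨t, ?_, h2⟩
    by_contra hc
    exact absurd h2 (not_lt.2 (h0 t h1 (not_lt.1 hc)))
  | succ k =>
    obtain ⟨t, h1, h2, h3⟩ := h
    refine ⟨t, ?_, h2, h3⟩
    by_contra hc
    exact absurd h2 (not_lt.2 (h0 t h1 (not_lt.1 hc)))

/-- the terms of `SP` at a point `0 ≤ x ≤ 1/(10 N)` -/
lemma term_bound {N m : ℕ} {K x a : ℝ} (hN : 0 < N) (hx0 : 0 ≤ x) (hx : x ≤ (1 / 10) / N)
    (ha : |a| ≤ K) : |(-1) ^ m * (N.choose m : ℝ) * a * x ^ m| ≤ K * (1 / 10) ^ m := by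
  have hN' : (0 : ℝ) < N := by exact_mod_cast hN
  have h1 : (N.choose m : ℝ) * x ^ m ≤ (1 / 10) ^ m := by
    have h2 : (N.choose m : ℝ) ≤ (N : ℝ) ^ m := by exact_mod_cast Nat.choose_le_pow N m
    calc (N.choose m : ℝ) * x ^ m ≤ (N : ℝ) ^ m * ((1 / 10) / N) ^ m := by
          gcongr
      _ = (1 / 10) ^ m := by
          rw [← mul_pow]; congr 1; field_simp
  rw [abs_mul, abs_mul, abs_mul, abs_pow, abs_neg, abs_one, one_pow, one_mul,
    abs_of_nonneg (by positivity : (0 : ℝ) ≤ (N.choose m : ℝ)), abs_of_nonneg (pow_nonneg hx0 m)]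
  have h3 : 0 ≤ (N.choose m : ℝ) * x ^ m := by positivity
  calc (N.choose m : ℝ) * |a| * x ^ m = |a| * ((N.choose m : ℝ) * x ^ m) := by ring
    _ ≤ K * (1 / 10) ^ m := by
        apply mul_le_mul ha h1 h3 ((abs_nonneg _).trans ha)

lemma geom_bound (j k : ℕ) (K : ℝ) (hK : 0 ≤ K) :
    ∑ i ∈ range k, K * (1 / 10 : ℝ) ^ (i + j) ≤ K * (1 / 10) ^ j * (10 / 9) := by
  have h : ∑ i ∈ range k, K * (1 / 10 : ℝ) ^ (i + j) = K * (1 / 10) ^ j * ∑ i ∈ range k, (1 / 10 : ℝ) ^ i := by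
    rw [Finset.mul_sum]
    refine sum_congr rfl (fun i _ => ?_)
    rw [pow_add]; ring
  rw [h]
  have h2 : ∑ i ∈ range k, (1 / 10 : ℝ) ^ i ≤ 10 / 9 := by
    rw [geom_sum_eq (by norm_num)]
    have : (0 : ℝ) < (1 / 10) ^ k := by positivity
    rw [div_le_iff_of_neg (by norm_num)]
    linarith
  exact mul_le_mul_of_nonneg_left h2 (by positivity)

lemma tail_bound {N : ℕ} (j k : ℕ) {K x : ℝ} {a : ℕ → ℝ} (hN : 0 < N) (hx0 : 0 ≤ x)
    (hx : x ≤ (1 / 10) / N) (hK : 0 ≤ K) (ha : ∀ m, j ≤ m → |a m| ≤ K) :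
    |∑ i ∈ range k, (-1) ^ (i + j) * (N.choose (i + j) : ℝ) * a (i + j) * x ^ (i + j)|
      ≤ K * (1 / 10) ^ j * (10 / 9) := by
  refine (Finset.abs_sum_le_sum_abs _ _).trans ?_
  refine le_trans (sum_le_sum (fun i _ => term_bound hN hx0 hx (ha (i + j) (by omega)))) ?_
  exact geom_bound j k K hK

noncomputable def c0 : ℝ := 9 / 10
noncomputable def a0 (m : ℕ) : ℝ := (rp c0 m)⁻¹
noncomputable def a1 (m : ℕ) : ℝ := (-1 / 10 + 2 * m) * a0 m
noncomputable def a2 (m : ℕ) : ℝ := (-11 / 10 + 2 * m) * a1 m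
noncomputable def a3 (m : ℕ) : ℝ := (-21 / 10 + 2 * m) * a2 m

lemma c0_pos : 0 < c0 := by norm_num [c0]

lemma rp_ge (m : ℕ) : 9 / 10 ≤ rp c0 m := by
  cases m with
  | zero => rw [rp_zero]; norm_num
  | succ m =>
    induction m with
    | zero => rw [rp_succ, rp_zero]; norm_num [c0]
    | succ m ih =>
      rw [rp_succ]
      have : (1 : ℝ) ≤ c0 + ((m + 1 : ℕ) : ℝ) := by
        push_cast; have := c0_pos; have : (0 : ℝ) ≤ m := Nat.cast_nonneg m; linarith
      have h2 := rp_pos c0_pos (m + 1)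
      nlinarith

lemma a0_bound (m : ℕ) : |a0 m| ≤ 10 / 9 := by
  rw [a0, abs_of_pos (inv_pos.2 (rp_pos c0_pos m))]
  rw [inv_le_comm₀ (rp_pos c0_pos m) (by norm_num)]
  have := rp_ge m
  norm_num at this ⊢
  linarith

lemma a2_eq (m : ℕ) : a2 m = (2 * m - 11 / 10) * (2 * m - 1 / 10) / rp c0 m := by
  rw [a2, a1, a0]; ring

lemma a2_bound (m : ℕ) (hm : 2 ≤ m) : |a2 m| ≤ 7 := by
  have hm' : (2 : ℝ) ≤ m := by exact_mod_cast hm
  have hr := rp_pos c0_pos m
  have key : (2 * (m : ℝ) - 11 / 10) * (2 * m - 1 / 10) ≤ 7 * rp c0 m := by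
    clear hr hm'
    induction m, hm using Nat.le_induction with
    | base =>
      rw [rp_succ, rp_succ, rp_zero]; norm_num [c0]
    | succ m hm ih =>
      have hm' : (2 : ℝ) ≤ m := by exact_mod_cast hm
      rw [rp_succ]
      push_cast
      have h1 : 7 * (rp c0 m * (c0 + m)) ≥ ((2 * (m : ℝ) - 11 / 10) * (2 * m - 1 / 10)) * (9 / 10 + m) := by
        rw [c0]
        have h3 : (0 : ℝ) ≤ 9 / 10 + m := by linarith
        have := mul_le_mul_of_nonneg_right ih h3
        rw [c0] at this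
        linarith
      have h2 : (2 * ((m : ℝ) + 1) - 11 / 10) * (2 * (m + 1) - 1 / 10) ≤
          ((2 * (m : ℝ) - 11 / 10) * (2 * m - 1 / 10)) * (9 / 10 + m) := by
        nlinarith [mul_nonneg (sub_nonneg.2 hm') (sub_nonneg.2 hm'),
          mul_nonneg (mul_nonneg (sub_nonneg.2 hm') (sub_nonneg.2 hm')) (sub_nonneg.2 hm')]
      linarith
  rw [a2_eq, abs_of_nonneg]
  · rw [div_le_iff₀ hr]; exact key
  · apply div_nonneg _ hr.le
    apply mul_nonneg <;> linarith

lemma p_pos {N : ℕ} (hN : 0 < N) {x : ℝ} (hx0 : 0 ≤ x) (hx : x ≤ (1 / 10) / N) :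
    0 < (SP N a0).eval x := by
  rw [SP_eval, Finset.sum_range_succ']
  have h := tail_bound 1 N hN hx0 hx (by norm_num : (0 : ℝ) ≤ 10 / 9) (fun m _ => a0_bound m)
  have h2 := (abs_le.1 h).1
  norm_num at h2 ⊢
  have h3 : a0 0 = 1 := by simp [a0, rp_zero]
  rw [h3]
  linarith

lemma P_neg {N : ℕ} (hN : 2 ≤ N) : (SP N a2).eval ((1 / 10) / (N : ℝ)) < 0 := by
  obtain ⟨L, rfl⟩ : ∃ L, N = L + 1 := ⟨N - 1, by omega⟩
  rw [SP_eval, Finset.sum_range_succ', Finset.sum_range_succ']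
  have hN' : ((L + 1 : ℕ) : ℝ) ≠ 0 := by positivity
  have h := tail_bound 2 L (N := L + 1) (by omega) (by positivity) le_rfl (by norm_num : (0 : ℝ) ≤ 7) a2_bound
  have h2 := (abs_le.1 h).2
  have h3 : a2 0 = 11 / 100 := by rw [a2_eq, rp_zero]; norm_num
  have h4 : a2 1 = 19 / 10 := by rw [a2_eq, rp_succ, rp_zero]; norm_num [c0]
  have h5 : (-1 : ℝ) ^ (0 + 1) * ((L + 1).choose (0 + 1) : ℝ) * a2 (0 + 1) * ((1 / 10) / ((L + 1 : ℕ) : ℝ)) ^ (0 + 1) = - (19 / 100) := by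
    rw [zero_add, Nat.choose_one_right, h4]
    field_simp
    norm_num
  rw [h5, h3]
  have h6 : ∀ i, i + 1 + 1 = i + 2 := fun i => rfl
  simp only [h6]
  norm_num at h2 ⊢
  linarith

/-- the chain for `a2` above `1 / (10 N)` -/
lemma alt_a2 (L : ℕ) : Alt L (fun x => (SP (L + 2) a2).eval x) ((1 / 10) / ((L + 2 : ℕ) : ℝ)) := by
  set N := L + 2 with hN
  set xs : ℝ := (1 / 10) / (N : ℝ) with hxs
  have hxs0 : 0 < xs := by rw [hxs]; positivity
  have hA : Alt N (fun x => (SP N a0).eval x) 0 := lag_alt N c0 c0_pos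
  have hB : Alt (L + 1) (fun x => - (SP N a0).eval x) xs := by
    rw [hN] at hA
    obtain ⟨t, h1, h2, h3⟩ := hA
    rw [← hN] at h2 h3
    rcases le_total xs t with h | h
    · exact Alt.mono h h3
    · refine Alt.skip (fun x hx1 hx2 => ?_) h3
      have := p_pos (N := N) (by omega) (h1.le.trans hx1.le) hx2
      linarith
  -- the operator with -1/10
  have hC : Alt (L + 1) (fun x => - (SP N a1).eval x) xs := by
    have h1 : Alt (L + 1) (fun x => x ^ ((-1 / 10 : ℝ) / 2) * - (SP N a0).eval x) xs :=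
      Alt.mul (h := fun x => x ^ ((-1 / 10 : ℝ) / 2))
        (fun x hx => Real.rpow_pos_of_pos (hxs0.trans hx) _) hB
    have h2 := Alt.deriv' (F := fun x => x ^ ((-1 / 10 : ℝ) / 2) * - (SP N a0).eval x)
      (f := fun x => -((x ^ ((-1 / 10 : ℝ) / 2 - 1) / 2) *
        (C (-1 / 10) * SP N a0 + 2 * X * derivative (SP N a0)).eval x)) (a := xs)
      (fun x hx => by
        have := (hasDeriv_rpow (SP N a0) (-1 / 10) x (hxs0.trans_le hx)).neg
        refine this.congr_of_eventuallyEq ?_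
        filter_upwards with y
        simp) ?_ h1
    · rw [SP_theta] at h2
      refine Alt.of_mul (h := fun x => x ^ ((-1 / 10 : ℝ) / 2 - 1) / 2) (fun x hx => ?_)
        (fun x hx => ?_) h2
      · have := Real.rpow_pos_of_pos (hxs0.trans hx) ((-1 / 10 : ℝ) / 2 - 1)
        positivity
      · simp only [mul_neg]
        rfl
    · have h3 := p_pos (N := N) (by omega) hxs0.le le_rfl
      have h4 := Real.rpow_pos_of_pos hxs0 ((-1 / 10 : ℝ) / 2)
      have := mul_pos h4 h3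
      simp only [mul_neg]
      linarith
  obtain ⟨ξ, h1, h2, h3⟩ := hC
  simp only [neg_neg] at h3
  refine Alt.mono h1.le ?_
  have hξ0 : 0 < ξ := hxs0.trans h1
  have h4 : Alt L (fun x => x ^ ((-11 / 10 : ℝ) / 2) * (SP N a1).eval x) ξ :=
    Alt.mul (h := fun x => x ^ ((-11 / 10 : ℝ) / 2))
      (fun x hx => Real.rpow_pos_of_pos (hξ0.trans hx) _) h3
  have h5 := Alt.deriv' (F := fun x => x ^ ((-11 / 10 : ℝ) / 2) * (SP N a1).eval x)
    (f := fun x => (x ^ ((-11 / 10 : ℝ) / 2 - 1) / 2) *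
      (C (-11 / 10) * SP N a1 + 2 * X * derivative (SP N a1)).eval x) (a := ξ)
    (fun x hx => hasDeriv_rpow (SP N a1) (-11 / 10) x (hξ0.trans_le hx)) ?_ h4
  · rw [SP_theta] at h5
    refine Alt.of_mul (h := fun x => x ^ ((-11 / 10 : ℝ) / 2 - 1) / 2) (fun x hx => ?_)
      (fun x hx => rfl) h5
    have := Real.rpow_pos_of_pos (hξ0.trans hx) ((-11 / 10 : ℝ) / 2 - 1)
    positivity
  · have h6 := Real.rpow_pos_of_pos hξ0 ((-11 / 10 : ℝ) / 2)
    exact mul_neg_of_pos_of_neg h6 (by linarith)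

lemma alt_a3 (L : ℕ) : Alt L (fun x => (SP (L + 2) a3).eval x) ((1 / 10) / ((L + 2 : ℕ) : ℝ)) := by
  set N := L + 2 with hN
  set xs : ℝ := (1 / 10) / (N : ℝ) with hxs
  have hxs0 : 0 < xs := by rw [hxs]; positivity
  have h4 : Alt L (fun x => x ^ ((-21 / 10 : ℝ) / 2) * (SP N a2).eval x) xs :=
    Alt.mul (h := fun x => x ^ ((-21 / 10 : ℝ) / 2))
      (fun x hx => Real.rpow_pos_of_pos (hxs0.trans hx) _) (alt_a2 L)
  have h5 := Alt.deriv' (F := fun x => x ^ ((-21 / 10 : ℝ) / 2) * (SP N a2).eval x)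
    (f := fun x => (x ^ ((-21 / 10 : ℝ) / 2 - 1) / 2) *
      (C (-21 / 10) * SP N a2 + 2 * X * derivative (SP N a2)).eval x) (a := xs)
    (fun x hx => hasDeriv_rpow (SP N a2) (-21 / 10) x (hxs0.trans_le hx)) ?_ h4
  · rw [SP_theta] at h5
    refine Alt.of_mul (h := fun x => x ^ ((-21 / 10 : ℝ) / 2 - 1) / 2) (fun x hx => ?_)
      (fun x hx => rfl) h5
    have := Real.rpow_pos_of_pos (hxs0.trans hx) ((-21 / 10 : ℝ) / 2 - 1)
    positivity
  · have h6 := Real.rpow_pos_of_pos hxs0 ((-21 / 10 : ℝ) / 2)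
    exact mul_neg_of_pos_of_neg h6 (P_neg (N := N) (by omega))

/-- a polynomial of degree at most `N` with `N` distinct real roots -/
lemma card_roots_of {p : ℝ[X]} {N : ℕ} {S : Finset ℝ} (hp : p ≠ 0) (hd : p.natDegree ≤ N)
    (hS : S.card = N) (hr : ∀ r ∈ S, p.eval r = 0) : Multiset.card p.roots = p.natDegree := by
  refine le_antisymm (card_roots' p) ?_
  refine hd.trans ?_
  rw [← hS]
  have h1 : S ⊆ p.roots.toFinset := by
    intro r h
    rw [Multiset.mem_toFinset, mem_roots hp]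
    exact hr r h
  exact (Finset.card_le_card h1).trans (Multiset.toFinset_card_le _)

lemma real_a2 (L : ℕ) : Multiset.card (SP (L + 2) a2).roots = (SP (L + 2) a2).natDegree := by
  have h0 : (SP (L + 2) a2).eval 0 = 11 / 100 := by
    rw [← coeff_zero_eq_eval_zero, SP_coeff, a2_eq, rp_zero]; norm_num
  have hA : Alt (L + 1) (fun x => - (SP (L + 2) a2).eval x) 0 := by
    refine ⟨(1 / 10) / ((L + 2 : ℕ) : ℝ), by positivity, ?_, ?_⟩
    · have := P_neg (N := L + 2) (by omega)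
      simp only
      linarith
    · simp only [neg_neg]
      exact alt_a2 L
  obtain ⟨S, hS1, hS2⟩ := Alt.roots (f := fun x => (SP (L + 2) a2).eval x) (a := 0)
    (Polynomial.continuous _) (by simp only [h0]; norm_num) hA
  refine card_roots_of (N := L + 2) (S := S) ?_ (SP_natDegree_le _ _) hS1 (fun r hr => (hS2 r hr).2)
  intro h
  rw [h] at h0
  norm_num at h0

lemma real_a3 (L : ℕ) : Multiset.card (SP (L + 2) a3).roots = (SP (L + 2) a3).natDegree := by
  have h0 : (SP (L + 2) a3).eval 0 = - (231 / 1000) := by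
    rw [← coeff_zero_eq_eval_zero, SP_coeff, a3, a2_eq, rp_zero]; norm_num
  have hA : Alt L (fun x => - (- (SP (L + 2) a3).eval x)) 0 := by
    simp only [neg_neg]
    exact Alt.mono (by positivity) (alt_a3 L)
  obtain ⟨S, hS1, hS2⟩ := Alt.roots (f := fun x => - (SP (L + 2) a3).eval x) (a := 0)
    (Polynomial.continuous _).neg (by simp only [h0]; norm_num) hA
  -- the negative root
  have h1 : 0 < (SP (L + 2) a3).eval (-1) := by
    rw [SP_eval, Finset.sum_range_succ', Finset.sum_range_succ', Finset.sum_range_succ']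
    have h2 : 0 ≤ ∑ k ∈ range L, (-1 : ℝ) ^ (k + 1 + 1 + 1) * ((L + 2).choose (k + 1 + 1 + 1) : ℝ) *
        a3 (k + 1 + 1 + 1) * (-1) ^ (k + 1 + 1 + 1) := by
      refine sum_nonneg (fun k _ => ?_)
      have h3 : (-1 : ℝ) ^ (k + 1 + 1 + 1) * ((L + 2).choose (k + 1 + 1 + 1) : ℝ) *
        a3 (k + 1 + 1 + 1) * (-1) ^ (k + 1 + 1 + 1) = ((L + 2).choose (k + 1 + 1 + 1) : ℝ) *
        a3 (k + 1 + 1 + 1) * ((-1 : ℝ) ^ (k + 1 + 1 + 1) * (-1) ^ (k + 1 + 1 + 1)) := by ring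
      rw [h3, ← mul_pow]
      have h4 : 0 ≤ a3 (k + 1 + 1 + 1) := by
        rw [a3, a2_eq]
        have := rp_pos c0_pos (k + 1 + 1 + 1)
        have hk : (0 : ℝ) ≤ k := Nat.cast_nonneg k
        push_cast
        apply mul_nonneg (by linarith)
        apply div_nonneg _ this.le
        apply mul_nonneg <;> linarith
      have h5 : (-1 : ℝ) * -1 = 1 := by norm_num
      rw [h5, one_pow, mul_one]
      positivity
    have h3 : a3 0 = - (231 / 1000) := by rw [a3, a2_eq, rp_zero]; norm_num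
    have h4 : a3 1 = - (19 / 100) := by rw [a3, a2_eq, rp_succ, rp_zero]; norm_num [c0]
    have h5 : a3 2 = 7163 / 570 := by rw [a3, a2_eq, rp_succ, rp_succ, rp_zero]; norm_num [c0]
    have h6 : ((L + 2).choose 2 : ℝ) = (L + 2) * (L + 1) / 2 := by
      rw [Nat.cast_choose_two]; push_cast; ring
    have hL : (0 : ℝ) ≤ L := Nat.cast_nonneg L
    norm_num [h3, h4, h5, h6] at h2 ⊢
    nlinarith [h2, hL]
  have h2 : (0 : ℝ) ∈ Set.Icc ((SP (L + 2) a3).eval 0) ((SP (L + 2) a3).eval (-1)) :=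
    ⟨by rw [h0]; norm_num, h1.le⟩
  obtain ⟨r, hr, hr0⟩ := intermediate_value_Icc' (by norm_num : (-1 : ℝ) ≤ 0)
    (Polynomial.continuous (SP (L + 2) a3)).continuousOn h2
  refine card_roots_of (N := L + 2) (S := insert r S) ?_ (SP_natDegree_le _ _) ?_ ?_
  · intro h
    rw [h] at h0
    norm_num at h0
  · rw [Finset.card_insert_of_notMem, hS1]
    intro h
    exact absurd (hS2 r h).1 (not_lt.2 hr.2)
  · intro r' hr'
    rw [Finset.mem_insert] at hr'
    rcases hr' with rfl | hr'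
    · exact hr0
    · have := (hS2 r' hr').2
      simpa using this


open Complex in
/-- the modulus grows with the distance to the real axis -/
def Grow (p : ℝ[X]) : Prop :=
  ∀ x y y' : ℝ, |y'| ≤ |y| → ‖aeval (x + y' * I : ℂ) p‖ ≤ ‖aeval (x + y * I : ℂ) p‖

lemma Grow.mul {p q : ℝ[X]} (hp : Grow p) (hq : Grow q) : Grow (p * q) := by
  intro x y y' h
  rw [map_mul, map_mul, norm_mul, norm_mul]
  exact mul_le_mul (hp x y y' h) (hq x y y' h) (norm_nonneg _) (norm_nonneg _)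

lemma Grow.C (a : ℝ) : Grow (C a) := by
  intro x y y' _
  rw [aeval_C, aeval_C]

lemma Grow.X_sub (r : ℝ) : Grow (X - Polynomial.C r) := by
  intro x y y' h
  rw [map_sub, map_sub, aeval_X, aeval_X, aeval_C]
  rw [Complex.norm_def, Complex.norm_def]
  apply Real.sqrt_le_sqrt
  rw [Complex.normSq_apply, Complex.normSq_apply]
  have h2 := sq_le_sq.2 h
  simp
  nlinarith

lemma grow_of_card {p : ℝ[X]} (h : Multiset.card p.roots = p.natDegree) : Grow p := by
  rw [← C_leadingCoeff_mul_prod_multiset_X_sub_C h]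
  refine (Grow.C _).mul ?_
  generalize p.roots = s
  induction s using Multiset.induction_on with
  | empty => simpa using Grow.C 1
  | cons a s ih =>
    rw [Multiset.map_cons, Multiset.prod_cons]
    exact (Grow.X_sub a).mul ih

/-- `∑ a_m (-w)^m / m!` -/
noncomputable def Hf (a : ℕ → ℝ) (w : ℂ) : ℂ :=
  ∑' m : ℕ, ((a m / (m.factorial : ℝ) : ℝ) : ℂ) * (-w) ^ m

lemma Hf_term {a : ℕ → ℝ} {K B : ℝ} (ha : ∀ m, |a m| ≤ K * B ^ m) (hB : 0 ≤ B) {R : ℝ} {w : ℂ} (hw : ‖w‖ ≤ R)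
    (m : ℕ) : ‖((a m / (m.factorial : ℝ) : ℝ) : ℂ) * (-w) ^ m‖ ≤ K * ((B * R) ^ m / m.factorial) := by
  have hK : 0 ≤ K := by
    have := (abs_nonneg _).trans (ha 0)
    simpa using this
  rw [norm_mul, norm_pow, norm_neg, Complex.norm_real, Real.norm_eq_abs, abs_div,
    abs_of_pos (by positivity : (0 : ℝ) < (m.factorial : ℝ))]
  have hf : (0 : ℝ) < (m.factorial : ℝ) := by positivity
  calc |a m| / (m.factorial : ℝ) * ‖w‖ ^ m ≤ (K * B ^ m) / (m.factorial : ℝ) * R ^ m := by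
        have := ha m
        gcongr
    _ = K * ((B * R) ^ m / m.factorial) := by rw [mul_pow]; ring

lemma Hf_diff {a : ℕ → ℝ} {K B : ℝ} (ha : ∀ m, |a m| ≤ K * B ^ m) (hB : 0 ≤ B) :
    Differentiable ℂ (Hf a) := by
  intro w
  have h := Complex.differentiableOn_tsum_of_summable_norm (F := fun m (w : ℂ) =>
      ((a m / (m.factorial : ℝ) : ℝ) : ℂ) * (-w) ^ m) (U := Metric.ball 0 (‖w‖ + 1))
    (u := fun m => K * ((B * (‖w‖ + 1)) ^ m / m.factorial))
    ((Real.summable_pow_div_factorial _).mul_left K)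
    (fun i => by fun_prop) Metric.isOpen_ball
    (fun i z hz => Hf_term ha hB (by rw [mem_ball_zero_iff] at hz; exact hz.le) i)
  exact (h w (by rw [mem_ball_zero_iff]; linarith)).differentiableAt
    (Metric.isOpen_ball.mem_nhds (by rw [mem_ball_zero_iff]; linarith))

lemma Hf_zero {a : ℕ → ℝ} : Hf a 0 = a 0 := by
  rw [Hf, tsum_eq_single 0]
  · simp
  · intro m hm
    simp [hm]

lemma SP_tendsto {a : ℕ → ℝ} {K B : ℝ} (ha : ∀ m, |a m| ≤ K * B ^ m) (hB : 0 ≤ B) (w : ℂ) :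
    Tendsto (fun N : ℕ => aeval (w / N) (SP N a)) atTop (𝓝 (Hf a w)) := by
  have h1 : ∀ N : ℕ, aeval (w / N) (SP N a) =
      ∑' m : ℕ, (((N.choose m : ℝ) * (1 / (N : ℝ)) ^ m * a m : ℝ) : ℂ) * (-w) ^ m := by
    intro N
    rw [tsum_eq_sum (s := range (N + 1))]
    · rw [SP, map_sum]
      refine sum_congr rfl (fun m _ => ?_)
      rw [map_mul, aeval_C, map_pow, aeval_X]
      simp only [Complex.coe_algebraMap]
      push_cast
      rw [div_pow, neg_pow, div_pow]
      ring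
    · intro m hm
      rw [Finset.mem_range, not_lt] at hm
      rw [Nat.choose_eq_zero_of_lt (by omega)]
      simp
  simp only [h1]
  refine tendsto_tsum_of_dominated_convergence
    (bound := fun m => K * ((B * ‖w‖) ^ m / m.factorial))
    ((Real.summable_pow_div_factorial _).mul_left K) ?_ ?_
  · intro m
    refine Tendsto.mul_const _ ?_
    refine (Complex.continuous_ofReal.tendsto _).comp ?_
    have h2 := ProbabilityTheory.tendsto_choose_mul_pow_atTop (p := fun n => 1 / (n : ℝ)) (r := 1) m ?_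
    · have h3 := h2.mul_const (a m)
      rw [one_pow, one_div_mul_eq_div] at h3
      exact h3
    · refine tendsto_const_nhds.congr' ?_
      filter_upwards [eventually_gt_atTop 0] with n hn
      field_simp
  · filter_upwards [eventually_gt_atTop 0] with N hN m
    refine le_trans ?_ (Hf_term ha hB (le_refl ‖w‖) m)
    rw [norm_mul, norm_mul]
    refine mul_le_mul_of_nonneg_right ?_ (norm_nonneg _)
    rw [Complex.norm_real, Complex.norm_real, Real.norm_eq_abs, Real.norm_eq_abs, abs_mul, abs_div]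
    have hN' : (0 : ℝ) < N := by exact_mod_cast hN
    have h2 : (N.choose m : ℝ) * (1 / (N : ℝ)) ^ m ≤ 1 / (m.factorial : ℝ) := by
      have h3 : (N.choose m : ℝ) ≤ (N : ℝ) ^ m / m.factorial := by
        exact_mod_cast Nat.choose_le_pow_div (α := ℝ) m N
      calc (N.choose m : ℝ) * (1 / (N : ℝ)) ^ m ≤ (N : ℝ) ^ m / m.factorial * (1 / (N : ℝ)) ^ m := by
            gcongr
        _ = 1 / (m.factorial : ℝ) := by
            rw [div_pow, one_pow]; field_simp
    rw [abs_of_nonneg (by positivity : (0 : ℝ) ≤ (N.choose m : ℝ) * (1 / (N : ℝ)) ^ m),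
      abs_of_pos (by positivity : (0 : ℝ) < (m.factorial : ℝ))]
    calc (N.choose m : ℝ) * (1 / (N : ℝ)) ^ m * |a m| ≤ 1 / (m.factorial : ℝ) * |a m| := by
          gcongr
      _ = |a m| / (m.factorial : ℝ) := by ring

open Complex in
theorem Hf_real {a : ℕ → ℝ} {K B : ℝ} (ha : ∀ m, |a m| ≤ K * B ^ m) (hB : 0 ≤ B) (h0 : a 0 ≠ 0)
    (hr : ∀ L, Multiset.card (SP (L + 2) a).roots = (SP (L + 2) a).natDegree) {w : ℂ}
    (hw : Hf a w = 0) : w.im = 0 := by
  by_contra hy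
  have key : ∀ t : ℝ, |t| ≤ |w.im| → Hf a (w.re + t * I) = 0 := by
    intro t ht
    have h1 := (SP_tendsto ha hB w).norm
    have h2 := (SP_tendsto ha hB (w.re + t * I)).norm
    rw [hw, norm_zero] at h1
    have h3 : ‖Hf a (w.re + t * I)‖ ≤ 0 := by
      refine le_of_tendsto_of_tendsto h2 h1 ?_
      filter_upwards [eventually_ge_atTop 2] with N hN
      obtain ⟨L, rfl⟩ : ∃ L, N = L + 2 := ⟨N - 2, by omega⟩
      have h4 := grow_of_card (hr L) (w.re / ((L + 2 : ℕ) : ℝ)) (w.im / ((L + 2 : ℕ) : ℝ))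
        (t / ((L + 2 : ℕ) : ℝ)) (by
          rw [abs_div, abs_div]
          gcongr)
      have h5 : (((w.re / ((L + 2 : ℕ) : ℝ) : ℝ) : ℂ) + ((t / ((L + 2 : ℕ) : ℝ) : ℝ) : ℂ) * I) =
          (w.re + t * I) / ((L + 2 : ℕ) : ℂ) := by
        push_cast; ring
      have h6 : (((w.re / ((L + 2 : ℕ) : ℝ) : ℝ) : ℂ) + ((w.im / ((L + 2 : ℕ) : ℝ) : ℝ) : ℂ) * I) =
          w / ((L + 2 : ℕ) : ℂ) := by
        conv_rhs => rw [← Complex.re_add_im w]
        push_cast; ring
      rw [h5, h6] at h4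
      exact h4
    exact norm_le_zero_iff.1 h3
  have hA : AnalyticOnNhd ℂ (Hf a) Set.univ := fun z _ =>
    (Hf_diff ha hB).analyticAt z
  have hfr : ∃ᶠ z in 𝓝[≠] (w.re : ℂ), Hf a z = 0 := by
    rw [frequently_iff]
    intro U hU
    rw [mem_nhdsWithin] at hU
    obtain ⟨V, hV, hV1, hV2⟩ := hU
    obtain ⟨ε, hε, hε2⟩ := Metric.isOpen_iff.1 hV _ hV1
    have hpos : 0 < |w.im| := abs_pos.2 hy
    set t : ℝ := min (ε / 2) |w.im| with ht
    have ht0 : 0 < t := lt_min (by linarith) hpos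
    refine ⟨w.re + t * I, hV2 ⟨hε2 ?_, ?_⟩, key t ?_⟩
    · rw [Metric.mem_ball, dist_eq_norm]
      simp only [add_sub_cancel_left, norm_mul, Complex.norm_real, Complex.norm_I, mul_one,
        Real.norm_eq_abs]
      rw [abs_of_pos ht0]
      exact (min_le_left _ _).trans_lt (by linarith)
    · simp only [Set.mem_compl_iff, Set.mem_singleton_iff]
      intro h
      have := congrArg Complex.im h
      simp at this
      exact ht0.ne' this
    · rw [abs_of_pos ht0]; exact min_le_right _ _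
  have h7 := hA.eqOn_zero_of_preconnected_of_frequently_eq_zero isPreconnected_univ
    (Set.mem_univ _) hfr (Set.mem_univ (0 : ℂ))
  rw [Hf_zero] at h7
  simp only [Pi.zero_apply, Complex.ofReal_eq_zero] at h7
  exact h0 h7


lemma lin_bound (m : ℕ) {r : ℝ} (h0 : 0 ≤ r) (h1 : r ≤ 3) : |(-r + 2 * (m : ℝ))| ≤ 3 * 2 ^ m := by
  have h2 : (m : ℝ) ≤ 2 ^ m := by exact_mod_cast Nat.lt_two_pow_self.le
  have h3 : (1 : ℝ) ≤ 2 ^ m := one_le_pow₀ (by norm_num)
  have h4 : (0 : ℝ) ≤ m := Nat.cast_nonneg m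
  rw [abs_le]
  constructor <;> linarith

lemma a2_le (m : ℕ) : |a2 m| ≤ 10 * 4 ^ m := by
  have h1 := lin_bound m (r := 1 / 10) (by norm_num) (by norm_num)
  have h2 := lin_bound m (r := 11 / 10) (by norm_num) (by norm_num)
  have h3 := a0_bound m
  have h4 : a2 m = (-(11 / 10) + 2 * m) * ((-(1 / 10) + 2 * m) * a0 m) := by
    rw [a2, a1]; ring
  rw [h4, abs_mul, abs_mul]
  calc _ ≤ (3 * 2 ^ m) * ((3 * 2 ^ m) * (10 / 9)) := by gcongr
    _ = 10 * ((2 : ℝ) ^ m * 2 ^ m) := by ring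
    _ = 10 * 4 ^ m := by rw [← mul_pow]; norm_num

lemma a3_le (m : ℕ) : |a3 m| ≤ 30 * 8 ^ m := by
  have h1 := lin_bound m (r := 21 / 10) (by norm_num) (by norm_num)
  have h2 := a2_le m
  have h4 : a3 m = (-(21 / 10) + 2 * m) * a2 m := by
    rw [a3]; ring
  rw [h4, abs_mul]
  calc _ ≤ (3 * 2 ^ m) * (10 * 4 ^ m) := by gcongr
    _ = 30 * ((2 : ℝ) ^ m * 4 ^ m) := by ring
    _ = 30 * 8 ^ m := by rw [← mul_pow]; norm_num

lemma gam (m : ℕ) : Real.Gamma (-1 / 10 + m + 1) = rp c0 m * Real.Gamma (9 / 10) := by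
  induction m with
  | zero => rw [rp_zero]; norm_num
  | succ m ih =>
    have hm : (0 : ℝ) ≤ m := Nat.cast_nonneg m
    have h : (-1 / 10 + ((m + 1 : ℕ) : ℝ) + 1) = (-1 / 10 + m + 1) + 1 := by push_cast; ring
    rw [h, Real.Gamma_add_one (by linarith), ih, rp_succ, c0]
    ring

lemma gam_pos : 0 < Real.Gamma (9 / 10) := Real.Gamma_pos_of_pos (by norm_num)

theorem Hf2_real {w : ℂ} (hw : Hf a2 w = 0) : w.im = 0 :=
  Hf_real a2_le (by norm_num) (by rw [a2_eq, rp_zero]; norm_num) real_a2 hw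

theorem Hf3_real {w : ℂ} (hw : Hf a3 w = 0) : w.im = 0 :=
  Hf_real a3_le (by norm_num) (by rw [a3, a2_eq, rp_zero]; norm_num) real_a3 hw

lemma a2_pos (m : ℕ) : 0 < a2 m := by
  rw [a2_eq]
  refine div_pos ?_ (rp_pos c0_pos m)
  rcases Nat.eq_zero_or_pos m with rfl | h
  · norm_num
  · have : (1 : ℝ) ≤ m := by exact_mod_cast h
    apply mul_pos <;> linarith

/-- no zeros on the negative half line -/
theorem Hf2_neg (t : ℝ) (ht : 0 ≤ t) : Hf a2 (-(t : ℂ)) ≠ 0 := by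
  have h1 : Hf a2 (-(t : ℂ)) = ((∑' m : ℕ, a2 m / (m.factorial : ℝ) * t ^ m : ℝ) : ℂ) := by
    rw [Hf, Complex.ofReal_tsum]
    refine tsum_congr (fun m => ?_)
    push_cast
    rw [neg_neg]
  rw [h1]
  have hs : Summable (fun m : ℕ => a2 m / (m.factorial : ℝ) * t ^ m) := by
    refine Summable.of_norm_bounded (g := fun m : ℕ => 10 * ((4 * t) ^ m / m.factorial))
      ((Real.summable_pow_div_factorial _).mul_left 10) (fun m => ?_)
    rw [norm_mul, norm_div, Real.norm_eq_abs, Real.norm_eq_abs, Real.norm_eq_abs,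
      abs_of_pos (by positivity : (0 : ℝ) < (m.factorial : ℝ)), abs_of_nonneg (pow_nonneg ht m), mul_pow]
    have := a2_le m
    have hf : (0 : ℝ) < (m.factorial : ℝ) := by positivity
    calc |a2 m| / (m.factorial : ℝ) * t ^ m ≤ (10 * 4 ^ m) / (m.factorial : ℝ) * t ^ m := by gcongr
      _ = _ := by ring
  have h2 : 0 < ∑' m : ℕ, a2 m / (m.factorial : ℝ) * t ^ m := by
    refine hs.tsum_pos (fun m => ?_) 0 ?_
    · have := a2_pos m
      positivity
    · have := a2_pos 0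
      simpa using this
  exact_mod_cast h2.ne'

/-- number of zeros of `f` in `S`, with multiplicity -/
lemma count_eq {f : ℂ → ℂ} {S T : Set ℂ} (h : ∀ z, f z = 0 → (z ∈ S ↔ z ∈ T)) :
    {p : ℂ × ℕ | p.1 ∈ S ∧ (p.2 : ℕ∞) < analyticOrderAt f p.1} =
      {p : ℂ × ℕ | p.1 ∈ T ∧ (p.2 : ℕ∞) < analyticOrderAt f p.1} := by
  ext p
  simp only [Set.mem_ofPred_eq]
  refine and_congr_left (fun h1 => ?_)
  exact h p.1 (analyticOrderAt_ne_zero.1 (pos_of_gt h1).ne').2

end Pool.Agent.Q213.Bes
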