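import Mathlib
import Pool.Agent.Helper764.KacK3

/-! Gaussian computations for the Kac-Rice formula. -/

set_option autoImplicit false
open MeasureTheory ProbabilityTheory Filter Topology Set
open scoped ENNReal NNReal

namespace Q213.KR

theorem lint_abs_gauss (v : ℝ≥0) :
    ∫⁻ x, ENNReal.ofReal |x| ∂(gaussianReal 0 v) = ENNReal.ofReal (Real.sqrt (2 * v / Real.pi)) := by
  have h1 := gaussianReal_map_const_mul (μ := 0) (v := 1) (Real.sqrt v)
  rw [mul_zero, mul_one] at h1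
  have h2 : NNReal.mk ((Real.sqrt v) ^ 2) (sq_nonneg _) = v := by
    apply NNReal.coe_injective
    change (Real.sqrt v) ^ 2 = v
    exact Real.sq_sqrt v.2
  rw [h2] at h1
  rw [← h1, lintegral_map (by fun_prop) (by fun_prop)]
  have h3 : ∀ x : ℝ, ENNReal.ofReal |Real.sqrt v * x|
      = ENNReal.ofReal (Real.sqrt v) * ENNReal.ofReal |x| := by
    intro x
    rw [abs_mul, abs_of_nonneg (Real.sqrt_nonneg _), ENNReal.ofReal_mul (Real.sqrt_nonneg _)]
  simp only [h3]
  rw [lintegral_const_mul _ (by fun_prop),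
    ← ofReal_integral_eq_lintegral_ofReal Kac764.K3.ge_absint (Eventually.of_forall fun x => abs_nonneg x),
    Kac764.K3.ge_E0, ← ENNReal.ofReal_mul (Real.sqrt_nonneg _)]
  congr 1
  unfold Kac764.K3.gePhi
  have hpi := Real.pi_pos
  have e0 : 2 * (v : ℝ) / Real.pi = v * (2 / Real.pi) := by ring
  rw [e0, Real.sqrt_mul (NNReal.coe_nonneg v)]
  congr 1
  have e1 : (2 : ℝ) = Real.sqrt (2 ^ 2) := by rw [Real.sqrt_sq (by norm_num)]
  rw [← Real.sqrt_inv]
  nth_rewrite 1 [e1]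
  rw [← Real.sqrt_mul (by positivity)]
  congr 1
  field_simp

/-- product of centred Gaussian densities -/
theorem pdf_mul (v a : ℝ≥0) (hv : v ≠ 0) (ha : a ≠ 0) (q : ℝ) :
    gaussianPDFReal 0 v (-q) * gaussianPDFReal 0 a q
      = (Real.sqrt (2 * Real.pi * (v + a)))⁻¹ * gaussianPDFReal 0 (v * a / (v + a)) q := by
  have hv' : (0 : ℝ) < v := by positivity
  have ha' : (0 : ℝ) < a := by positivity
  have hpi := Real.pi_pos
  simp only [gaussianPDFReal]
  have e1 : (√(2 * Real.pi * v))⁻¹ * (√(2 * Real.pi * a))⁻¹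
      = (√(2 * Real.pi * (v + a)))⁻¹ * (√(2 * Real.pi * ((v * a / (v + a) : ℝ≥0) : ℝ)))⁻¹ := by
    rw [← mul_inv, ← mul_inv, ← Real.sqrt_mul (by positivity), ← Real.sqrt_mul (by positivity)]
    congr 2
    push_cast
    field_simp
  have e2 : Real.exp (-(-q - 0) ^ 2 / (2 * v)) * Real.exp (-(q - 0) ^ 2 / (2 * a))
      = Real.exp (-(q - 0) ^ 2 / (2 * ((v * a / (v + a) : ℝ≥0) : ℝ))) := by
    rw [← Real.exp_add]
    congr 1
    push_cast
    field_simp
    ring
  calc _ = ((√(2 * Real.pi * v))⁻¹ * (√(2 * Real.pi * a))⁻¹) *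
        (Real.exp (-(-q - 0) ^ 2 / (2 * v)) * Real.exp (-(q - 0) ^ 2 / (2 * a))) := by ring
    _ = _ := by rw [e1, e2]; ring

/-- the key Gaussian integral -/
theorem key_gauss (α : ℝ) (v a β : ℝ≥0) (hv : v ≠ 0) (ha : a ≠ 0) :
    ∫⁻ p : ℝ × ℝ, ENNReal.ofReal |α * p.1 + p.2| * gaussianPDF 0 v (-p.1)
      ∂((gaussianReal 0 a).prod (gaussianReal 0 β))
      = ENNReal.ofReal ((1 / Real.pi) * Real.sqrt ((α ^ 2 * (v * a / (v + a)) + β) / (v + a))) := by
  have hv' : (0 : ℝ) < v := by positivity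
  have ha' : (0 : ℝ) < a := by positivity
  have hpi := Real.pi_pos
  set τ : ℝ≥0 := v * a / (v + a) with hτ
  have hτ0 : τ ≠ 0 := by rw [hτ]; positivity
  have hm : Measurable fun p : ℝ × ℝ => ENNReal.ofReal |α * p.1 + p.2| := by fun_prop
  have hm2 : Measurable fun p : ℝ × ℝ => ENNReal.ofReal |α * p.1 + p.2| * gaussianPDF 0 v (-p.1) := by
    refine hm.mul ?_
    exact (measurable_gaussianPDF 0 v).comp measurable_fst.neg
  set G : ℝ → ℝ≥0∞ := fun q => ∫⁻ z, ENNReal.ofReal |α * q + z| ∂(gaussianReal 0 β) with hG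
  have hGm : Measurable G := by
    rw [hG]
    exact Measurable.lintegral_prod_right' (f := fun p : ℝ × ℝ => ENNReal.ofReal |α * p.1 + p.2|) hm
  rw [lintegral_prod _ hm2.aemeasurable]
  have s1 : ∀ q : ℝ, ∫⁻ z, ENNReal.ofReal |α * q + z| * gaussianPDF 0 v (-q) ∂(gaussianReal 0 β)
      = G q * gaussianPDF 0 v (-q) := by
    intro q
    rw [lintegral_mul_const _ (by fun_prop)]
  simp only [s1]
  have hGm2 : Measurable fun q : ℝ => G q * gaussianPDF 0 v (-q) :=
    hGm.mul ((measurable_gaussianPDF 0 v).comp measurable_neg)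
  rw [gaussianReal_of_var_ne_zero _ ha, lintegral_withDensity_eq_lintegral_mul _
    (measurable_gaussianPDF 0 a) hGm2]
  have s2 : ∀ q : ℝ, (gaussianPDF 0 a * fun q => G q * gaussianPDF 0 v (-q)) q
      = ENNReal.ofReal ((Real.sqrt (2 * Real.pi * (v + a)))⁻¹) * (gaussianPDF 0 τ q * G q) := by
    intro q
    simp only [Pi.mul_apply, gaussianPDF]
    have h := pdf_mul v a hv ha q
    have h2 : ENNReal.ofReal (gaussianPDFReal 0 v (-q)) * ENNReal.ofReal (gaussianPDFReal 0 a q)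
        = ENNReal.ofReal ((Real.sqrt (2 * Real.pi * (v + a)))⁻¹) *
          ENNReal.ofReal (gaussianPDFReal 0 τ q) := by
      rw [← ENNReal.ofReal_mul (gaussianPDFReal_nonneg _ _ _), h,
        ENNReal.ofReal_mul (by positivity)]
    calc _ = (ENNReal.ofReal (gaussianPDFReal 0 v (-q)) * ENNReal.ofReal (gaussianPDFReal 0 a q)) * G q := by
          ring
      _ = _ := by rw [h2]; ring
  have hGm3 : Measurable fun q : ℝ => gaussianPDF 0 τ q * G q :=
    (measurable_gaussianPDF 0 τ).mul hGm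
  rw [lintegral_congr s2, lintegral_const_mul _ hGm3]
  have s3 : ∫⁻ q, gaussianPDF 0 τ q * G q = ∫⁻ q, G q ∂(gaussianReal 0 τ) := by
    rw [gaussianReal_of_var_ne_zero _ hτ0, lintegral_withDensity_eq_lintegral_mul _
      (measurable_gaussianPDF 0 τ) hGm]
    rfl
  have s4 : ∫⁻ q, G q ∂(gaussianReal 0 τ)
      = ∫⁻ u, ENNReal.ofReal |u| ∂(gaussianReal 0 (NNReal.mk (α ^ 2) (sq_nonneg _) * τ + β)) := by
    have h1 := gaussianReal_conv_gaussianReal (m₁ := 0) (m₂ := 0)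
      (v₁ := NNReal.mk (α ^ 2) (sq_nonneg α) * τ) (v₂ := β)
    rw [add_zero] at h1
    rw [← h1, Measure.lintegral_conv (by fun_prop)]
    have h2 := gaussianReal_map_const_mul (μ := 0) (v := τ) α
    rw [mul_zero] at h2
    have h3 : Measurable fun x : ℝ => ∫⁻ y, ENNReal.ofReal |x + y| ∂(gaussianReal 0 β) :=
      Measurable.lintegral_prod_right' (f := fun p : ℝ × ℝ => ENNReal.ofReal |p.1 + p.2|)
        (by fun_prop)
    rw [← h2, lintegral_map h3 (by fun_prop)]
  rw [s3, s4, lint_abs_gauss, ← ENNReal.ofReal_mul (by positivity)]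
  congr 1
  have e3 : (((NNReal.mk (α ^ 2) (sq_nonneg _) * τ + β : ℝ≥0)) : ℝ) = α ^ 2 * (v * a / (v + a)) + β := by
    rw [hτ]
    push_cast
    rfl
  rw [e3]
  set s : ℝ := α ^ 2 * (v * a / (v + a)) + β with hs
  have hs0 : 0 ≤ s := by rw [hs]; positivity
  rw [← Real.sqrt_inv, ← Real.sqrt_mul (by positivity)]
  have e4 : (1 / Real.pi : ℝ) = Real.sqrt ((1 / Real.pi) ^ 2) := by
    rw [Real.sqrt_sq (by positivity)]
  rw [e4, ← Real.sqrt_mul (by positivity)]
  congr 1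
  field_simp

theorem pair_gauss {Ω : Type*} [MeasurableSpace Ω] (P : Measure Ω) [IsProbabilityMeasure P]
    (Q Y : Ω → ℝ) (h : HasGaussianLaw (fun ω => (Q ω, Y ω)) P)
    (hQ0 : ∫ ω, Q ω ∂P = 0) (hY0 : ∫ ω, Y ω ∂P = 0) (a b c : ℝ) (ha : 0 < a)
    (hQQ : ∫ ω, Q ω * Q ω ∂P = a) (hQY : ∫ ω, Q ω * Y ω ∂P = c) (hYY : ∫ ω, Y ω * Y ω ∂P = b)
    (v : ℝ≥0) (hv : v ≠ 0) :
    ∫⁻ ω, ENNReal.ofReal |Y ω| * gaussianPDF 0 v (-Q ω) ∂P
      = ENNReal.ofReal ((1 / Real.pi) * Real.sqrt ((b - c ^ 2 / (v + a)) / (v + a))) := by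
  have hQ : HasGaussianLaw Q P := h.fst
  have hY : HasGaussianLaw Y P := h.snd
  set Z : Ω → ℝ := fun ω => Y ω - c / a * Q ω with hZ
  have hQZ : HasGaussianLaw (fun ω => (Q ω, Z ω)) P := by
    have := h.map_fun ((ContinuousLinearMap.fst ℝ ℝ ℝ).prod
      (ContinuousLinearMap.snd ℝ ℝ ℝ - (c / a) • ContinuousLinearMap.fst ℝ ℝ ℝ))
    refine this.congr (Eventually.of_forall fun ω => ?_)
    simp [hZ]
  have hZg : HasGaussianLaw Z P := hQZ.snd
  have i1 : Integrable (fun ω => Q ω * Q ω) P := hQ.memLp_two.integrable_mul hQ.memLp_two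
  have i2 : Integrable (fun ω => Q ω * Y ω) P := hQ.memLp_two.integrable_mul hY.memLp_two
  have i3 : Integrable (fun ω => Y ω * Y ω) P := hY.memLp_two.integrable_mul hY.memLp_two
  have hZ0 : ∫ ω, Z ω ∂P = 0 := by
    rw [hZ, integral_sub hY.integrable (hQ.integrable.const_mul _), integral_const_mul, hQ0, hY0]
    simp
  have hQZc : ∫ ω, Q ω * Z ω ∂P = 0 := by
    have e : ∀ ω, Q ω * Z ω = Q ω * Y ω - c / a * (Q ω * Q ω) := fun ω => by rw [hZ]; ring
    simp only [e]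
    rw [integral_sub i2 (i1.const_mul _), integral_const_mul, hQQ, hQY]
    field_simp
    ring
  have hZZ : ∫ ω, Z ω * Z ω ∂P = b - c ^ 2 / a := by
    have e : ∀ ω, Z ω * Z ω = Y ω * Y ω - 2 * (c / a) * (Q ω * Y ω) + (c / a) ^ 2 * (Q ω * Q ω) :=
      fun ω => by rw [hZ]; ring
    simp only [e]
    have i4 : Integrable (fun ω => Y ω * Y ω - 2 * (c / a) * (Q ω * Y ω)) P :=
      i3.sub (i2.const_mul _)
    rw [integral_add i4 (i1.const_mul _), integral_sub i3 (i2.const_mul _),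
      integral_const_mul, integral_const_mul, hQQ, hQY, hYY]
    field_simp
    ring
  have hcov : cov[Q, Z; P] = 0 := by
    rw [covariance_eq_sub hQ.memLp_two hZg.memLp_two, hQ0, hZ0]
    simp only [Pi.mul_apply, mul_zero, sub_zero]
    exact hQZc
  have hind : IndepFun Q Z P := hQZ.indepFun_of_covariance_eq_zero hcov
  have hβ : 0 ≤ b - c ^ 2 / a := by
    rw [← hZZ]
    exact integral_nonneg fun ω => mul_self_nonneg _
  have hlQ : P.map Q = gaussianReal 0 (Real.toNNReal a) := by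
    rw [hQ.map_eq_gaussianReal, hQ0, variance_eq_integral hQ.aemeasurable, hQ0]
    congr 2
    rw [← hQQ]
    congr 1
    funext ω
    ring
  have hlZ : P.map Z = gaussianReal 0 (Real.toNNReal (b - c ^ 2 / a)) := by
    rw [hZg.map_eq_gaussianReal, hZ0, variance_eq_integral hZg.aemeasurable, hZ0]
    congr 2
    rw [← hZZ]
    congr 1
    funext ω
    ring
  have hjoint : P.map (fun ω => (Q ω, Z ω)) = (P.map Q).prod (P.map Z) :=
    (indepFun_iff_map_prod_eq_prod_map_map hQ.aemeasurable hZg.aemeasurable).1 hind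
  have e1 : ∫⁻ ω, ENNReal.ofReal |Y ω| * gaussianPDF 0 v (-Q ω) ∂P
      = ∫⁻ p : ℝ × ℝ, ENNReal.ofReal |c / a * p.1 + p.2| * gaussianPDF 0 v (-p.1)
        ∂(P.map (fun ω => (Q ω, Z ω))) := by
    rw [lintegral_map' _ hQZ.aemeasurable]
    · refine lintegral_congr fun ω => ?_
      simp only [hZ]
      congr 3
      ring
    · apply Measurable.aemeasurable
      have hm : Measurable fun p : ℝ × ℝ => ENNReal.ofReal |c / a * p.1 + p.2| := by fun_prop
      exact hm.mul ((measurable_gaussianPDF 0 v).comp measurable_fst.neg)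
  have ha' : Real.toNNReal a ≠ 0 := by
    rw [ne_eq, Real.toNNReal_eq_zero]
    linarith
  rw [e1, hjoint, hlQ, hlZ, key_gauss (c / a) v _ _ hv ha', Real.coe_toNNReal _ ha.le,
    Real.coe_toNNReal _ hβ]
  congr 3
  have hv' : (0 : ℝ) < v := by positivity
  congr 1
  field_simp
  ring

end Q213.KR
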