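import Pool.Agent.Q213.KR9

set_option autoImplicit false
open MeasureTheory ProbabilityTheory Filter Topology Set Kac764
open scoped ENNReal NNReal

namespace Q213.KR

/-- truncated geometric sum `∑_{k ≤ n} x^{2k}` -/
noncomputable def gA (n : ℕ) (x : ℝ) : ℝ := ∑ k ∈ Finset.range (n + 1), (x ^ 2) ^ k

/-- second moment of the two-point law -/
noncomputable def m1 (l d : ℝ) : ℝ := (1 - l) * d ^ 2 + l

theorem gA_ge_one (n : ℕ) (x : ℝ) : 1 ≤ gA n x := by
  unfold gA
  have : (1 : ℝ) = (x ^ 2) ^ 0 := by simp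
  rw [this]
  exact Finset.single_le_sum (f := fun k => (x ^ 2) ^ k) (fun i _ => by positivity)
    (Finset.mem_range.2 (by omega))

theorem quad_ineq (U : ℝ) (hU : 1 / 4 ≤ U) : 1 / U ^ 2 ≤ 24 * (U - 1) ^ 2 - 2 * (U - 1) + 1 := by
  rw [div_le_iff₀ (by positivity)]
  have h : (24 * (U - 1) ^ 2 - 2 * (U - 1) + 1) * U ^ 2 - 1
      = (U - 1) ^ 2 * ((4 * U - 1) * (6 * U + 1)) := by ring
  have h2 : 0 ≤ (U - 1) ^ 2 * ((4 * U - 1) * (6 * U + 1)) := by
    apply mul_nonneg (sq_nonneg _)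
    apply mul_nonneg <;> linarith
  linarith

theorem quad_pos (U : ℝ) : 0 ≤ 24 * (U - 1) ^ 2 - 2 * (U - 1) + 1 := by
  nlinarith [sq_nonneg (24 * (U - 1) - 1)]

theorem W_pointwise (σ : ℕ → ℝ) (l d : ℝ) (h0 : 0 < l) (h1 : l < 1) (hd0 : 0 < d) (hd1 : d < 1)
    (hσ : ∀ k, σ k = d ∨ σ k = 1) (n : ℕ) (x : ℝ) (hx : 0 < x) (y : ℝ)
    (hy : y = m1 l d * gA n x) :
    ENNReal.ofReal (y ^ 2 / sA σ n x ^ 2)
      ≤ ENNReal.ofReal (24 * (sA σ n x / y - 1) ^ 2 - 2 * (sA σ n x / y - 1) + 1)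
        + (∑ m ∈ Finset.range (n + 1), ef σ m *
            ENNReal.ofReal (1 / 2 * y ^ 2 * Real.exp (-(y / 8)) * ((x ^ 8)⁻¹) ^ m))
        + ENNReal.ofReal (1 / 2 * y ^ 2 * Real.exp (3 * y / 8)) * ENNReal.ofReal (Real.exp (-sA σ n x))
        + e0 σ n * ENNReal.ofReal (1 / d ^ 4) := by
  have hpos : ∀ k, 0 < σ k := by
    intro k
    rcases hσ k with h | h <;> rw [h]
    · exact hd0
    · exact one_pos
  have hA := sA_pos σ hpos n x
  set A := sA σ n x with hAd
  have hg := gA_ge_one n x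
  have hm1 : 0 < m1 l d := by
    unfold m1
    have : 0 < 1 - l := by linarith
    positivity
  have hm1' : m1 l d ≤ 1 := by
    unfold m1
    have : d ^ 2 ≤ 1 := by nlinarith
    nlinarith
  have hy0 : 0 < y := by rw [hy]; positivity
  have eU : y ^ 2 / A ^ 2 = 1 / (A / y) ^ 2 := by
    field_simp
  rcases le_or_gt (1 / 4) (A / y) with hc | hc
  · refine le_trans ?_ (le_add_right (le_add_right (le_add_right le_rfl)))
    rw [eU]
    exact ENNReal.ofReal_le_ofReal (quad_ineq _ hc)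
  · have hAy : A < y / 4 := by
      rw [div_lt_iff₀ hy0] at hc
      linarith
    rcases dich σ d hd1 hσ n with ⟨m, hm, _, h2, h3⟩ | ⟨h2, h3⟩
    · refine le_trans ?_ (le_add_right (add_le_add_left (le_add_left le_rfl) _))
      have hge : (x ^ m) ^ 2 ≤ A := by
        have : (σ m * x ^ m) ^ 2 ≤ A := by
          rw [hAd]
          unfold sA
          exact Finset.single_le_sum (f := fun k => (σ k * x ^ k) ^ 2)
            (fun i _ => sq_nonneg _) (Finset.mem_range.2 (by omega))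
        rwa [h2, one_mul] at this
      set z : ℝ := ((x ^ m) ^ 4)⁻¹ with hz
      have hz0 : 0 < z := by positivity
      have hz1 : y ^ 2 / A ^ 2 ≤ y ^ 2 * z := by
        rw [hz, ← div_eq_mul_inv]
        apply div_le_div_of_nonneg_left (sq_nonneg y) (by positivity)
        calc (x ^ m) ^ 4 = ((x ^ m) ^ 2) ^ 2 := by ring
          _ ≤ A ^ 2 := pow_le_pow_left₀ (by positivity) hge 2
      have hz2 : ((x ^ 8)⁻¹) ^ m = z ^ 2 := by
        rw [hz, inv_pow, inv_pow, ← pow_mul, ← pow_mul, ← pow_mul]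
        congr 2
        ring
      have hθ : Real.exp (-(y / 8)) * Real.exp (y / 8) = 1 := by
        rw [← Real.exp_add]
        simp
      have hθ1 := Real.exp_pos (-(y / 8))
      have hθ2 := Real.exp_pos (y / 8)
      have hamgm : z ≤ 1 / 2 * (Real.exp (-(y / 8)) * z ^ 2 + Real.exp (y / 8)) := by
        nlinarith [sq_nonneg (Real.exp (-(y / 8)) * z - 1), hθ, mul_pos hθ1 hθ2,
          mul_nonneg hθ2.le (sq_nonneg (Real.exp (-(y / 8)) * z - 1))]
      have hexp : Real.exp (y / 8) ≤ Real.exp (3 * y / 8) * Real.exp (-A) := by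
        rw [← Real.exp_add]
        apply Real.exp_le_exp.2
        linarith
      have hterm : ENNReal.ofReal (1 / 2 * y ^ 2 * Real.exp (-(y / 8)) * ((x ^ 8)⁻¹) ^ m)
          ≤ ∑ m ∈ Finset.range (n + 1), ef σ m *
            ENNReal.ofReal (1 / 2 * y ^ 2 * Real.exp (-(y / 8)) * ((x ^ 8)⁻¹) ^ m) := by
        refine le_trans (le_of_eq ?_) (Finset.single_le_sum (fun i _ => bot_le)
          (Finset.mem_range.2 (show m < n + 1 by omega)))
        rw [h3, one_mul]
      refine le_trans ?_ (add_le_add_left hterm _)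
      rw [← ENNReal.ofReal_mul (by positivity), ← ENNReal.ofReal_add (by positivity) (by positivity)]
      apply ENNReal.ofReal_le_ofReal
      rw [hz2]
      calc y ^ 2 / A ^ 2 ≤ y ^ 2 * z := hz1
        _ ≤ y ^ 2 * (1 / 2 * (Real.exp (-(y / 8)) * z ^ 2 + Real.exp (y / 8))) :=
            mul_le_mul_of_nonneg_left hamgm (sq_nonneg y)
        _ ≤ y ^ 2 * (1 / 2 * (Real.exp (-(y / 8)) * z ^ 2 + Real.exp (3 * y / 8) * Real.exp (-A))) := by
            gcongr
        _ = _ := by ring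
    · refine le_trans ?_ (le_add_left le_rfl)
      rw [h3, one_mul]
      apply ENNReal.ofReal_le_ofReal
      have hAe : A = d ^ 2 * gA n x := by
        rw [hAd]
        unfold sA gA
        rw [Finset.mul_sum]
        refine Finset.sum_congr rfl fun k hk => ?_
        have := Finset.mem_range.1 hk
        rw [h2 k (by omega)]
        ring
      rw [hAe, hy]
      have hg0 : 0 < gA n x := by linarith
      have : (m1 l d * gA n x) ^ 2 / (d ^ 2 * gA n x) ^ 2 = m1 l d ^ 2 / d ^ 4 := by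
        field_simp
      rw [this]
      apply div_le_div_of_nonneg_right _ (by positivity)
      nlinarith

end Q213.KR
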