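import Pool.Agent.Q213.KR10

set_option autoImplicit false
open MeasureTheory ProbabilityTheory Filter Topology Set Kac764
open scoped ENNReal NNReal

namespace Q213.KR

theorem nu_int (l d : ℝ) (h0 : 0 ≤ l) (h1 : l ≤ 1) (f : ℝ → ℝ) :
    ∫ y, f y ∂(nu l d) = (1 - l) * f d + l * f 1 := by
  unfold nu
  have i1 : Integrable f (ENNReal.ofReal (1 - l) • Measure.dirac d) :=
    (integrable_dirac (by simp)).smul_measure ENNReal.ofReal_ne_top
  have i2 : Integrable f (ENNReal.ofReal l • Measure.dirac (1 : ℝ)) :=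
    (integrable_dirac (by simp)).smul_measure ENNReal.ofReal_ne_top
  rw [integral_add_measure i1 i2, integral_smul_measure, integral_smul_measure, integral_dirac,
    integral_dirac, ENNReal.toReal_ofReal (by linarith), ENNReal.toReal_ofReal h0, smul_eq_mul,
    smul_eq_mul]

section
variable (l d : ℝ) (h0 : 0 < l) (h1 : l < 1) (hd0 : 0 < d) (hd1 : d < 1)
include h0 h1 hd0 hd1

theorem int_V (k : ℕ) : ∫ σ : ℕ → ℝ, σ k ^ 2 ∂(PP (nu l d)) = m1 l d := by
  have := nu_prob l d h0.le h1.le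
  have h := integral_map (μ := PP (nu l d)) (φ := fun ω : ℕ → ℝ => ω k)
    (measurable_pi_apply k).aemeasurable (f := fun x : ℝ => x ^ 2) (by fun_prop)
  rw [← h, map_coord, nu_int l d h0.le h1.le]
  unfold m1
  ring

theorem int_VV (j k : ℕ) : ∫ σ : ℕ → ℝ, σ j ^ 2 * σ k ^ 2 ∂(PP (nu l d))
    = if j = k then (1 - l) * d ^ 4 + l else m1 l d ^ 2 := by
  have := nu_prob l d h0.le h1.le
  by_cases hjk : j = k
  · subst hjk
    rw [if_pos rfl]
    have h := integral_map (μ := PP (nu l d)) (φ := fun ω : ℕ → ℝ => ω j)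
      (measurable_pi_apply j).aemeasurable (f := fun x : ℝ => x ^ 2 * x ^ 2) (by fun_prop)
    rw [← h, map_coord, nu_int l d h0.le h1.le]
    ring
  · rw [if_neg hjk]
    have hi := (iindep_coord (nu l d)).indepFun hjk
    have hi2 : IndepFun (fun σ : ℕ → ℝ => σ j ^ 2) (fun σ : ℕ → ℝ => σ k ^ 2) (PP (nu l d)) :=
      hi.comp (φ := fun x : ℝ => x ^ 2) (ψ := fun x : ℝ => x ^ 2) (by fun_prop) (by fun_prop)
    have m : ∀ i : ℕ, Measurable fun σ : ℕ → ℝ => σ i ^ 2 := fun i => (measurable_pi_apply i).pow_const 2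
    have := hi2.integral_fun_mul_eq_mul_integral (m j).aestronglyMeasurable
      (m k).aestronglyMeasurable
    rw [this, int_V l d h0 h1 hd0 hd1, int_V l d h0 h1 hd0 hd1, sq]

theorem ae_bdd : ∀ᵐ σ ∂(PP (nu l d)), ∀ k, 0 < σ k ∧ σ k ≤ 1 := by
  filter_upwards [nu_ae l d h0.le h1.le] with σ hσ k
  rcases hσ k with h | h <;> rw [h]
  · exact ⟨hd0, hd1.le⟩
  · exact ⟨one_pos, le_rfl⟩

theorem int_bV (k : ℕ) : Integrable (fun σ : ℕ → ℝ => σ k ^ 2) (PP (nu l d)) := by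
  have := nu_prob l d h0.le h1.le
  refine Integrable.of_bound ((measurable_pi_apply k).pow_const 2).aestronglyMeasurable 1 ?_
  filter_upwards [ae_bdd l d h0 h1 hd0 hd1] with σ hσ
  have := hσ k
  rw [Real.norm_eq_abs, abs_of_nonneg (by positivity)]
  exact pow_le_one₀ this.1.le this.2

theorem int_bVV (j k : ℕ) : Integrable (fun σ : ℕ → ℝ => σ j ^ 2 * σ k ^ 2) (PP (nu l d)) := by
  have := nu_prob l d h0.le h1.le
  refine Integrable.of_bound (((measurable_pi_apply j).pow_const 2).mul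
    ((measurable_pi_apply k).pow_const 2)).aestronglyMeasurable 1 ?_
  filter_upwards [ae_bdd l d h0 h1 hd0 hd1] with σ hσ
  have hj := hσ j
  have hk := hσ k
  rw [Real.norm_eq_abs, abs_of_nonneg (by positivity)]
  exact mul_le_one₀ (pow_le_one₀ hj.1.le hj.2) (by positivity) (pow_le_one₀ hk.1.le hk.2)

theorem int_A (n : ℕ) (x : ℝ) : Integrable (fun σ : ℕ → ℝ => sA σ n x) (PP (nu l d)) ∧
    ∫ σ : ℕ → ℝ, sA σ n x ∂(PP (nu l d)) = m1 l d * gA n x := by
  have e : ∀ σ : ℕ → ℝ, sA σ n x = ∑ k ∈ Finset.range (n + 1), (x ^ 2) ^ k * σ k ^ 2 := by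
    intro σ
    unfold sA
    refine Finset.sum_congr rfl fun k _ => ?_
    ring
  simp only [e]
  have hi : ∀ k : ℕ, Integrable (fun σ : ℕ → ℝ => (x ^ 2) ^ k * σ k ^ 2) (PP (nu l d)) :=
    fun k => (int_bV l d h0 h1 hd0 hd1 k).const_mul _
  refine ⟨integrable_finsetSum _ fun k _ => hi k, ?_⟩
  rw [integral_finsetSum _ fun k _ => hi k]
  unfold gA
  rw [Finset.mul_sum]
  refine Finset.sum_congr rfl fun k _ => ?_
  rw [integral_const_mul, int_V l d h0 h1 hd0 hd1]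
  ring

theorem int_AA (n : ℕ) (x : ℝ) : Integrable (fun σ : ℕ → ℝ => sA σ n x ^ 2) (PP (nu l d)) ∧
    ∫ σ : ℕ → ℝ, sA σ n x ^ 2 ∂(PP (nu l d)) = m1 l d ^ 2 * gA n x ^ 2
      + ((1 - l) * d ^ 4 + l - m1 l d ^ 2) * ∑ k ∈ Finset.range (n + 1), (x ^ 4) ^ k := by
  have e : ∀ σ : ℕ → ℝ, sA σ n x ^ 2 = ∑ j ∈ Finset.range (n + 1), ∑ k ∈ Finset.range (n + 1),
      ((x ^ 2) ^ j * (x ^ 2) ^ k) * (σ j ^ 2 * σ k ^ 2) := by
    intro σ
    unfold sA
    rw [sq, Finset.sum_mul_sum]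
    refine Finset.sum_congr rfl fun j _ => Finset.sum_congr rfl fun k _ => ?_
    ring
  simp only [e]
  have hi : ∀ j k : ℕ, Integrable (fun σ : ℕ → ℝ => ((x ^ 2) ^ j * (x ^ 2) ^ k) *
      (σ j ^ 2 * σ k ^ 2)) (PP (nu l d)) :=
    fun j k => (int_bVV l d h0 h1 hd0 hd1 j k).const_mul _
  refine ⟨integrable_finsetSum _ fun j _ => integrable_finsetSum _ fun k _ => hi j k, ?_⟩
  rw [integral_finsetSum _ fun j _ => integrable_finsetSum _ fun k _ => hi j k]
  have e2 : m1 l d ^ 2 * gA n x ^ 2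
      + ((1 - l) * d ^ 4 + l - m1 l d ^ 2) * ∑ k ∈ Finset.range (n + 1), (x ^ 4) ^ k
      = ∑ j ∈ Finset.range (n + 1), ((∑ k ∈ Finset.range (n + 1),
        ((x ^ 2) ^ j * (x ^ 2) ^ k) * m1 l d ^ 2)
        + ((1 - l) * d ^ 4 + l - m1 l d ^ 2) * (x ^ 4) ^ j) := by
    rw [Finset.sum_add_distrib, ← Finset.mul_sum]
    congr 1
    unfold gA
    simp only [← Finset.sum_mul]
    rw [sq (∑ k ∈ Finset.range (n + 1), (x ^ 2) ^ k), Finset.sum_mul_sum]
    simp only [← Finset.mul_sum, ← Finset.sum_mul]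
    ring
  rw [e2]
  refine Finset.sum_congr rfl fun j hj => ?_
  rw [integral_finsetSum _ fun k _ => hi j k]
  simp only [integral_const_mul, int_VV l d h0 h1 hd0 hd1]
  have e3 : ∀ k : ℕ, (x ^ 2) ^ j * (x ^ 2) ^ k * (if j = k then (1 - l) * d ^ 4 + l else m1 l d ^ 2)
      = ((x ^ 2) ^ j * (x ^ 2) ^ k) * m1 l d ^ 2
        + (if j = k then ((1 - l) * d ^ 4 + l - m1 l d ^ 2) * (x ^ 4) ^ j else 0) := by
    intro k
    split_ifs with h
    · subst h
      have : (x ^ 2) ^ j * (x ^ 2) ^ j = (x ^ 4) ^ j := by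
        rw [← mul_pow]
        congr 1
        ring
      rw [this]
      ring
    · ring
  simp only [e3]
  rw [Finset.sum_add_distrib, Finset.sum_ite_eq (Finset.range (n + 1)) j, if_pos hj]

end

end Q213.KR
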