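import Pool.Agent.Q213.KR11

set_option autoImplicit false
open MeasureTheory ProbabilityTheory Filter Topology Set Kac764
open scoped ENNReal NNReal

namespace Q213.KR

theorem sA_meas (n : ℕ) (x : ℝ) : Measurable fun σ : ℕ → ℝ => sA σ n x := by
  unfold sA
  refine Finset.measurable_sum _ fun k _ => ?_
  exact (((measurable_pi_apply k).mul_const _).pow_const 2)

section
variable (l d : ℝ) (h0 : 0 < l) (h1 : l < 1) (hd0 : 0 < d) (hd1 : d < 1)
include h0 h1 hd0 hd1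

theorem m1_pos : 0 < m1 l d := by
  unfold m1
  have : 0 < 1 - l := by linarith
  positivity

theorem m1_le : m1 l d ≤ 1 := by
  unfold m1
  have : d ^ 2 ≤ 1 := by nlinarith
  nlinarith

theorem lint_W1 (n : ℕ) (x : ℝ) (hx0 : 0 < x) (hx1 : x < 1) (y : ℝ) (hy : y = m1 l d * gA n x) :
    ∫⁻ σ, ENNReal.ofReal (24 * (sA σ n x / y - 1) ^ 2 - 2 * (sA σ n x / y - 1) + 1) ∂(PP (nu l d))
      ≤ ENNReal.ofReal (1 + 24 / y) := by
  have hp := nu_prob l d h0.le h1.le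
  have hm := m1_pos l d h0 h1 hd0 hd1
  have hg := gA_ge_one n x
  have hy0 : 0 < y := by rw [hy]; positivity
  obtain ⟨iA, eA⟩ := int_A l d h0 h1 hd0 hd1 n x
  obtain ⟨iAA, eAA⟩ := int_AA l d h0 h1 hd0 hd1 n x
  have e : ∀ σ : ℕ → ℝ, 24 * (sA σ n x / y - 1) ^ 2 - 2 * (sA σ n x / y - 1) + 1
      = 24 / y ^ 2 * sA σ n x ^ 2 + (-(50 / y)) * sA σ n x + 27 := by
    intro σ
    field_simp
    ring
  have i1 : Integrable (fun σ : ℕ → ℝ => 24 / y ^ 2 * sA σ n x ^ 2) (PP (nu l d)) := iAA.const_mul _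
  have i2 : Integrable (fun σ : ℕ → ℝ => (-(50 / y)) * sA σ n x) (PP (nu l d)) := iA.const_mul _
  have i3 : Integrable (fun σ : ℕ → ℝ => 24 / y ^ 2 * sA σ n x ^ 2 + (-(50 / y)) * sA σ n x)
    (PP (nu l d)) := i1.add i2
  have i4 : Integrable (fun σ : ℕ → ℝ => 24 / y ^ 2 * sA σ n x ^ 2 + (-(50 / y)) * sA σ n x + 27)
    (PP (nu l d)) := i3.add (integrable_const _)
  have hnn : ∀ σ : ℕ → ℝ, 0 ≤ 24 / y ^ 2 * sA σ n x ^ 2 + (-(50 / y)) * sA σ n x + 27 := by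
    intro σ
    rw [← e]
    exact quad_pos _
  simp only [e]
  rw [← ofReal_integral_eq_lintegral_ofReal i4 (Eventually.of_forall hnn)]
  apply ENNReal.ofReal_le_ofReal
  rw [integral_add i3 (integrable_const _), integral_add i1 i2, integral_const_mul,
    integral_const_mul, eA, eAA, integral_const]
  simp only [probReal_univ, smul_eq_mul, one_mul]
  have hS : ∑ k ∈ Finset.range (n + 1), (x ^ 4) ^ k ≤ gA n x := by
    unfold gA
    refine Finset.sum_le_sum fun k _ => ?_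
    apply pow_le_pow_left₀ (by positivity)
    exact pow_le_pow_of_le_one hx0.le hx1.le (by norm_num)
  have hS0 : 0 ≤ ∑ k ∈ Finset.range (n + 1), (x ^ 4) ^ k :=
    Finset.sum_nonneg fun k _ => by positivity
  have hV : (1 - l) * d ^ 4 + l - m1 l d ^ 2 ≤ m1 l d := by
    have h2 : (1 - l) * d ^ 4 ≤ (1 - l) * d ^ 2 := by
      apply mul_le_mul_of_nonneg_left _ (by linarith)
      exact pow_le_pow_of_le_one hd0.le hd1.le (by norm_num)
    have h3 : 0 ≤ m1 l d ^ 2 := sq_nonneg _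
    have h4 : (1 - l) * d ^ 2 + l = m1 l d := rfl
    linarith
  have hb : ((1 - l) * d ^ 4 + l - m1 l d ^ 2) * ∑ k ∈ Finset.range (n + 1), (x ^ 4) ^ k ≤ y := by
    calc _ ≤ m1 l d * ∑ k ∈ Finset.range (n + 1), (x ^ 4) ^ k := mul_le_mul_of_nonneg_right hV hS0
      _ ≤ m1 l d * gA n x := mul_le_mul_of_nonneg_left hS hm.le
      _ = y := hy.symm
  rw [← mul_pow, ← hy]
  calc 24 / y ^ 2 * (y ^ 2 + ((1 - l) * d ^ 4 + l - m1 l d ^ 2) *
        ∑ k ∈ Finset.range (n + 1), (x ^ 4) ^ k) + -(50 / y) * y + 27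
      ≤ 24 / y ^ 2 * (y ^ 2 + y) + -(50 / y) * y + 27 := by gcongr
    _ = 1 + 24 / y := by
        field_simp
        ring

theorem lint_W3 (n : ℕ) (x : ℝ) (hx0 : 0 < x) (hx1 : x < 1) (y : ℝ) (hy : y = m1 l d * gA n x) :
    ∫⁻ σ, ENNReal.ofReal (Real.exp (-sA σ n x)) ∂(PP (nu l d)) ≤ ENNReal.ofReal (Real.exp (-(y / 2))) := by
  have hp := nu_prob l d h0.le h1.le
  have e : ∀ σ : ℕ → ℝ, ENNReal.ofReal (Real.exp (-sA σ n x))
      = ∏ k ∈ Finset.range (n + 1), ENNReal.ofReal (Real.exp (-((σ k * x ^ k) ^ 2))) := by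
    intro σ
    unfold sA
    rw [← Finset.sum_neg_distrib, Real.exp_sum, ENNReal.ofReal_prod_of_nonneg]
    intro k _
    exact (Real.exp_pos _).le
  simp only [e]
  rw [lint_prod_coord (nu l d) (Finset.range (n + 1))
    (fun k s => ENNReal.ofReal (Real.exp (-((s * x ^ k) ^ 2)))) (fun k => by fun_prop)]
  have h2 : ∀ k ∈ Finset.range (n + 1), ∫⁻ s, ENNReal.ofReal (Real.exp (-((s * x ^ k) ^ 2))) ∂(nu l d)
      ≤ ENNReal.ofReal (Real.exp (-(m1 l d * (x ^ 2) ^ k / 2))) := by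
    intro k _
    rw [nu_lint l d _ (by fun_prop), ← ENNReal.ofReal_mul (by linarith), ← ENNReal.ofReal_mul h0.le,
      ← ENNReal.ofReal_add (by have : 0 < 1 - l := by linarith
                               positivity) (by positivity)]
    apply ENNReal.ofReal_le_ofReal
    have hxk : (x ^ 2) ^ k ≤ 1 := pow_le_one₀ (by positivity) (by nlinarith)
    have h3 := phi_le l d ((x ^ 2) ^ k) h0.le h1.le hd0.le hd1.le (by positivity) hxk
    have e1 : (d * x ^ k) ^ 2 = d ^ 2 * (x ^ 2) ^ k := by ring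
    have e2 : (1 * x ^ k) ^ 2 = (x ^ 2) ^ k := by ring
    rw [e1, e2]
    exact h3
  refine (Finset.prod_le_prod' h2).trans (le_of_eq ?_)
  rw [← ENNReal.ofReal_prod_of_nonneg (fun k _ => (Real.exp_pos _).le), ← Real.exp_sum]
  congr 2
  rw [hy]
  unfold gA
  rw [Finset.sum_neg_distrib, Finset.mul_sum, Finset.sum_div]

theorem lint_W2 (n : ℕ) (x : ℝ) (hx0 : 0 < x) (hx1 : x < 1) (hxl : 1 - x ^ 2 ≤ l / 16) (c : ℝ)
    (hc : 0 ≤ c) :
    ∫⁻ σ, (∑ m ∈ Finset.range (n + 1), ef σ m * ENNReal.ofReal (c * ((x ^ 8)⁻¹) ^ m)) ∂(PP (nu l d))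
      ≤ ENNReal.ofReal (2 * c) := by
  have h1l : 0 < 1 - l := by linarith
  rw [lintegral_finsetSum _ fun m _ => (ef_meas m).mul_const _]
  have e : ∀ m ∈ Finset.range (n + 1), ∫⁻ σ, ef σ m * ENNReal.ofReal (c * ((x ^ 8)⁻¹) ^ m) ∂(PP (nu l d))
      = ENNReal.ofReal (l * c * ((1 - l) * (x ^ 8)⁻¹) ^ m) := by
    intro m _
    rw [lintegral_mul_const _ (ef_meas m), lint_ef l d h0 h1 hd0 hd1, ← ENNReal.ofReal_mul (by positivity)]
    congr 1
    rw [mul_pow]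
    ring
  rw [Finset.sum_congr rfl e, ← ENNReal.ofReal_sum_of_nonneg fun m _ => by positivity]
  apply ENNReal.ofReal_le_ofReal
  rw [← Finset.mul_sum]
  have hq : 1 - l / 16 ≤ x ^ 2 := by linarith
  have hq4 : 1 - l / 4 ≤ x ^ 8 := by
    have h2 : (1 - l / 16) ^ 4 ≤ (x ^ 2) ^ 4 := pow_le_pow_left₀ (by linarith) hq 4
    have h3 := one_add_mul_le_pow (a := -(l / 16)) (by linarith) 4
    have e1 : (x ^ 2) ^ 4 = x ^ 8 := by ring
    rw [e1] at h2
    push_cast at h3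
    have e2 : 1 + -(l / 16) = 1 - l / 16 := by ring
    rw [e2] at h3
    linarith
  have hp : (1 - l) * (x ^ 8)⁻¹ ≤ 1 - l / 2 := by
    rw [← div_eq_mul_inv, div_le_iff₀ (by positivity)]
    have : (1 - l / 2) * (1 - l / 4) ≤ (1 - l / 2) * x ^ 8 :=
      mul_le_mul_of_nonneg_left hq4 (by linarith)
    nlinarith
  have hp0 : 0 ≤ (1 - l) * (x ^ 8)⁻¹ := by positivity
  have hg := geo_sum_le ((1 - l) * (x ^ 8)⁻¹) hp0 (by linarith) (n + 1)
  have h4 : 1 / (1 - (1 - l) * (x ^ 8)⁻¹) ≤ 2 / l := by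
    rw [div_le_div_iff₀ (by linarith) h0]
    linarith
  calc l * c * ∑ m ∈ Finset.range (n + 1), ((1 - l) * (x ^ 8)⁻¹) ^ m
      ≤ l * c * (2 / l) := mul_le_mul_of_nonneg_left (hg.trans h4) (by positivity)
    _ = 2 * c := by field_simp

theorem cube_exp (y : ℝ) (hy : 0 < y) : y ^ 2 * Real.exp (-(y / 8)) ≤ 3072 / y := by
  have h2 : (y / 8) ^ 3 / 6 ≤ Real.exp (y / 8) := by
    have := Real.pow_div_factorial_le_exp (y / 8) (by positivity) 3
    norm_num [Nat.factorial] at this ⊢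
    linarith
  rw [Real.exp_neg, le_div_iff₀ hy]
  have h3 := Real.exp_pos (y / 8)
  calc y ^ 2 * (Real.exp (y / 8))⁻¹ * y = y ^ 3 / Real.exp (y / 8) := by
        rw [div_eq_mul_inv]; ring
    _ ≤ 3072 := by
        rw [div_le_iff₀ h3]
        nlinarith

/-- `E (y/A)^2 ≤ 1 + 4632 / y + ...` -/
theorem lint_invsq (n : ℕ) (x : ℝ) (hx0 : 0 < x) (hx1 : x < 1) (hxl : 1 - x ^ 2 ≤ l / 16) (y : ℝ)
    (hy : y = m1 l d * gA n x) :
    ∫⁻ σ, ENNReal.ofReal (y ^ 2 / sA σ n x ^ 2) ∂(PP (nu l d))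
      ≤ ENNReal.ofReal (1 + 4632 / y + (1 - l) ^ (n + 1) / d ^ 4) := by
  have hm := m1_pos l d h0 h1 hd0 hd1
  have hg := gA_ge_one n x
  have hy0 : 0 < y := by rw [hy]; positivity
  have h1l : 0 < 1 - l := by linarith
  have hpt : ∀ᵐ σ ∂(PP (nu l d)), ENNReal.ofReal (y ^ 2 / sA σ n x ^ 2)
      ≤ ENNReal.ofReal (24 * (sA σ n x / y - 1) ^ 2 - 2 * (sA σ n x / y - 1) + 1)
        + (∑ m ∈ Finset.range (n + 1), ef σ m *
            ENNReal.ofReal (1 / 2 * y ^ 2 * Real.exp (-(y / 8)) * ((x ^ 8)⁻¹) ^ m))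
        + ENNReal.ofReal (1 / 2 * y ^ 2 * Real.exp (3 * y / 8)) * ENNReal.ofReal (Real.exp (-sA σ n x))
        + e0 σ n * ENNReal.ofReal (1 / d ^ 4) := by
    filter_upwards [nu_ae l d h0.le h1.le] with σ hσ
    exact W_pointwise σ l d h0 h1 hd0 hd1 hσ n x hx0 y hy
  refine (lintegral_mono_ae hpt).trans ?_
  have mA := sA_meas n x
  have mE : Measurable fun σ : ℕ → ℝ => ENNReal.ofReal (Real.exp (-sA σ n x)) :=
    ENNReal.measurable_ofReal.comp (Real.measurable_exp.comp mA.neg)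
  rw [lintegral_add_right _ ((e0_meas n).mul_const _), lintegral_mul_const _ (e0_meas n),
    lint_e0 l d h0 h1 hd0 hd1, lintegral_add_right _ (mE.const_mul _), lintegral_const_mul _ mE,
    lintegral_add_right _ (Finset.measurable_sum _ fun m _ => (ef_meas m).mul_const _)]
  have w1 := lint_W1 l d h0 h1 hd0 hd1 n x hx0 hx1 y hy
  have w2 := lint_W2 l d h0 h1 hd0 hd1 n x hx0 hx1 hxl (1 / 2 * y ^ 2 * Real.exp (-(y / 8)))
    (by positivity)
  have w3 := lint_W3 l d h0 h1 hd0 hd1 n x hx0 hx1 y hy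
  refine (add_le_add (add_le_add (add_le_add w1 w2) (mul_le_mul_right w3 _)) le_rfl).trans ?_
  rw [← ENNReal.ofReal_mul (by positivity), ← ENNReal.ofReal_mul (by positivity),
    ← ENNReal.ofReal_add (by positivity) (by positivity),
    ← ENNReal.ofReal_add (by positivity) (by positivity),
    ← ENNReal.ofReal_add (by positivity) (by positivity)]
  apply ENNReal.ofReal_le_ofReal
  have hce := cube_exp l d h0 h1 hd0 hd1 y hy0
  have e1 : Real.exp (3 * y / 8) * Real.exp (-(y / 2)) = Real.exp (-(y / 8)) := by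
    rw [← Real.exp_add]
    congr 1
    ring
  have e2 : 1 / 2 * y ^ 2 * Real.exp (3 * y / 8) * Real.exp (-(y / 2))
      = 1 / 2 * (y ^ 2 * Real.exp (-(y / 8))) := by
    rw [mul_assoc (1 / 2 * y ^ 2), e1]
    ring
  have e3 : 2 * (1 / 2 * y ^ 2 * Real.exp (-(y / 8))) = y ^ 2 * Real.exp (-(y / 8)) := by ring
  rw [e2, e3]
  have e4 : (4632 : ℝ) / y = 24 / y + 3072 / y + 1 / 2 * (3072 / y) := by
    field_simp
    norm_num
  rw [e4, mul_one_div]
  linarith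

end

end Q213.KR
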