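import Pool.Agent.Q213.KR12

set_option autoImplicit false
open MeasureTheory ProbabilityTheory Filter Topology Set Kac764
open scoped ENNReal NNReal

namespace Q213.KR

theorem disc_eq (σ : ℕ → ℝ) (n : ℕ) (x : ℝ) (hx : x ≠ 0) :
    sA σ n x * sC σ n x - sB σ n x ^ 2
      = ∑ j ∈ Finset.range (n + 1), ∑ k ∈ Finset.range (n + 1),
        (1 / 2 * ((j : ℝ) - k) ^ 2 * ((x ^ 2) ^ j * (x ^ 2) ^ k) / x ^ 2) * (σ j ^ 2 * σ k ^ 2) := by
  rw [sB_eq σ n x hx, sC_eq σ n x hx]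
  unfold sA
  set u : ℕ → ℝ := fun k => (σ k * x ^ k) ^ 2 with hu
  have e0 : ∀ k : ℕ, (σ k * x ^ k) ^ 2 = u k := fun k => rfl
  have e1 : ∀ j k : ℕ, (1 / 2 * ((j : ℝ) - k) ^ 2 * ((x ^ 2) ^ j * (x ^ 2) ^ k) / x ^ 2)
      * (σ j ^ 2 * σ k ^ 2) = (1 / (2 * x ^ 2)) * (((j : ℝ) - k) ^ 2 * (u j * u k)) := by
    intro j k
    simp only [hu]
    field_simp
    ring
  simp only [e1, ← Finset.mul_sum]
  simp only [e0]
  have s1 : ∑ j ∈ Finset.range (n + 1), ∑ k ∈ Finset.range (n + 1), ((j : ℝ) - k) ^ 2 * (u j * u k)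
      = ∑ j ∈ Finset.range (n + 1), ∑ k ∈ Finset.range (n + 1), (u j * (u k * (k : ℝ) ^ 2)
          - (u j * (j : ℝ)) * (u k * (k : ℝ)))
        + ∑ j ∈ Finset.range (n + 1), ∑ k ∈ Finset.range (n + 1), (u k * (u j * (j : ℝ) ^ 2)
          - (u k * (k : ℝ)) * (u j * (j : ℝ))) := by
    rw [← Finset.sum_add_distrib]
    refine Finset.sum_congr rfl fun j _ => ?_
    rw [← Finset.sum_add_distrib]
    refine Finset.sum_congr rfl fun k _ => ?_
    ring
  have s2 : ∑ j ∈ Finset.range (n + 1), ∑ k ∈ Finset.range (n + 1), (u k * (u j * (j : ℝ) ^ 2)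
          - (u k * (k : ℝ)) * (u j * (j : ℝ)))
      = ∑ j ∈ Finset.range (n + 1), ∑ k ∈ Finset.range (n + 1), (u j * (u k * (k : ℝ) ^ 2)
          - (u j * (j : ℝ)) * (u k * (k : ℝ))) := Finset.sum_comm
  have s3 : ∑ j ∈ Finset.range (n + 1), ∑ k ∈ Finset.range (n + 1), (u j * (u k * (k : ℝ) ^ 2)
          - (u j * (j : ℝ)) * (u k * (k : ℝ)))
      = (∑ k ∈ Finset.range (n + 1), u k) * (∑ k ∈ Finset.range (n + 1), u k * (k : ℝ) ^ 2)
        - (∑ k ∈ Finset.range (n + 1), u k * (k : ℝ)) ^ 2 := by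
    rw [sq (∑ k ∈ Finset.range (n + 1), u k * (k : ℝ)), Finset.sum_mul_sum, Finset.sum_mul_sum,
      ← Finset.sum_sub_distrib]
    refine Finset.sum_congr rfl fun j _ => ?_
    rw [← Finset.sum_sub_distrib]
  rw [s1, s2, s3]
  field_simp
  ring

section
variable (l d : ℝ) (h0 : 0 < l) (h1 : l < 1) (hd0 : 0 < d) (hd1 : d < 1)
include h0 h1 hd0 hd1

theorem lint_D (n : ℕ) (x : ℝ) (hx0 : 0 < x) (hx1 : x < 1) :
    ∫⁻ σ, ENNReal.ofReal (sA σ n x * sC σ n x - sB σ n x ^ 2) ∂(PP (nu l d))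
      ≤ ENNReal.ofReal (m1 l d ^ 2 / (1 - x ^ 2) ^ 4) := by
  simp only [disc_eq _ n x hx0.ne']
  set c : ℕ → ℕ → ℝ := fun j k => 1 / 2 * ((j : ℝ) - k) ^ 2 * ((x ^ 2) ^ j * (x ^ 2) ^ k) / x ^ 2 with hc
  have hc0 : ∀ j k, 0 ≤ c j k := fun j k => by simp only [hc]; positivity
  have hi : ∀ j k : ℕ, Integrable (fun σ : ℕ → ℝ => c j k * (σ j ^ 2 * σ k ^ 2)) (PP (nu l d)) :=
    fun j k => (int_bVV l d h0 h1 hd0 hd1 j k).const_mul _
  have hI : Integrable (fun σ : ℕ → ℝ => ∑ j ∈ Finset.range (n + 1), ∑ k ∈ Finset.range (n + 1),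
      c j k * (σ j ^ 2 * σ k ^ 2)) (PP (nu l d)) :=
    integrable_finsetSum _ fun j _ => integrable_finsetSum _ fun k _ => hi j k
  rw [← ofReal_integral_eq_lintegral_ofReal hI (Eventually.of_forall fun σ =>
    Finset.sum_nonneg fun j _ => Finset.sum_nonneg fun k _ =>
      mul_nonneg (hc0 j k) (by positivity))]
  apply ENNReal.ofReal_le_ofReal
  rw [integral_finsetSum _ fun j _ => integrable_finsetSum _ fun k _ => hi j k]
  have e : ∀ j ∈ Finset.range (n + 1), ∫ σ : ℕ → ℝ, ∑ k ∈ Finset.range (n + 1),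
      c j k * (σ j ^ 2 * σ k ^ 2) ∂(PP (nu l d))
      = ∑ k ∈ Finset.range (n + 1), (m1 l d ^ 2 / x ^ 2) *
        (1 / 2 * (((j : ℝ) - k) ^ 2 * ((x ^ 2) ^ j * (x ^ 2) ^ k))) := by
    intro j _
    rw [integral_finsetSum _ fun k _ => hi j k]
    refine Finset.sum_congr rfl fun k _ => ?_
    rw [integral_const_mul, int_VV l d h0 h1 hd0 hd1]
    split_ifs with h
    · subst h
      simp [hc]
    · simp only [hc]
      ring
  rw [Finset.sum_congr rfl e]
  simp only [← Finset.mul_sum]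
  have hq : x ^ 2 < 1 := by nlinarith
  have h4 := double_sum_le (x ^ 2) (by positivity) hq (n + 1)
  calc _ ≤ (m1 l d ^ 2 / x ^ 2) * (x ^ 2 / (1 - x ^ 2) ^ 4) :=
        mul_le_mul_of_nonneg_left h4 (by positivity)
    _ = _ := by
        have : 1 - x ^ 2 ≠ 0 := by linarith
        field_simp

/-- expected tail bound -/
theorem exp_tail (n : ℕ) (x : ℝ) (hx0 : 0 < x) (hx1 : x < 1) (hxl : 1 - x ^ 2 ≤ l / 16) :
    ∫⁻ σ, ENNReal.ofReal (rho σ n x) ∂(PP (nu l d))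
      ≤ ENNReal.ofReal (1 / ((1 - x ^ 2) ^ 2 * gA n x) *
          (1 + 2316 / (m1 l d * gA n x) + (1 - l) ^ (n + 1) / (2 * d ^ 4))) := by
  have hm := m1_pos l d h0 h1 hd0 hd1
  have hg := gA_ge_one n x
  have hg0 : 0 < gA n x := by linarith
  set y : ℝ := m1 l d * gA n x with hy
  have hy0 : 0 < y := by rw [hy]; positivity
  have h1l : 0 < 1 - l := by linarith
  have hq : 0 < 1 - x ^ 2 := by nlinarith
  set b : ℝ := m1 l d / (1 - x ^ 2) ^ 2 with hb
  have hb0 : 0 < b := by positivity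
  have hpt : ∀ᵐ σ ∂(PP (nu l d)), ENNReal.ofReal (rho σ n x)
      ≤ ENNReal.ofReal (1 / (2 * b * y)) * ENNReal.ofReal (sA σ n x * sC σ n x - sB σ n x ^ 2)
        + ENNReal.ofReal (b / (2 * y)) * ENNReal.ofReal (y ^ 2 / sA σ n x ^ 2) := by
    filter_upwards [ae_bdd l d h0 h1 hd0 hd1] with σ hσ
    have hA := sA_pos σ (fun k => (hσ k).1) n x
    have hD0 : 0 ≤ sA σ n x * sC σ n x - sB σ n x ^ 2 := by
      rw [disc_eq σ n x hx0.ne']
      refine Finset.sum_nonneg fun j _ => Finset.sum_nonneg fun k _ => ?_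
      positivity
    rw [← ENNReal.ofReal_mul (by positivity), ← ENNReal.ofReal_mul (by positivity),
      ← ENNReal.ofReal_add (by positivity) (by positivity)]
    apply ENNReal.ofReal_le_ofReal
    unfold rho
    set D := sA σ n x * sC σ n x - sB σ n x ^ 2 with hDd
    set A := sA σ n x with hAd
    have hs := Real.sq_sqrt hD0
    have hs0 := Real.sqrt_nonneg D
    set s := Real.sqrt D with hsd
    rw [← hs]
    have hkey : 1 / (2 * b * y) * s ^ 2 + b / (2 * y) * (y ^ 2 / A ^ 2) - s / A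
        = (s * A - b * y) ^ 2 / (2 * b * y * A ^ 2) := by
      field_simp
      ring
    have : 0 ≤ (s * A - b * y) ^ 2 / (2 * b * y * A ^ 2) := by positivity
    linarith
  refine (lintegral_mono_ae hpt).trans ?_
  have mD : Measurable fun σ : ℕ → ℝ => ENNReal.ofReal (sA σ n x * sC σ n x - sB σ n x ^ 2) := by
    apply ENNReal.measurable_ofReal.comp
    simp only [disc_eq _ n x hx0.ne']
    refine Finset.measurable_sum _ fun j _ => Finset.measurable_sum _ fun k _ => ?_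
    exact (((measurable_pi_apply j).pow_const 2).mul ((measurable_pi_apply k).pow_const 2)).const_mul _
  have mA : Measurable fun σ : ℕ → ℝ => ENNReal.ofReal (y ^ 2 / sA σ n x ^ 2) :=
    ENNReal.measurable_ofReal.comp (measurable_const.div ((sA_meas n x).pow_const 2))
  rw [lintegral_add_left (mD.const_mul _), lintegral_const_mul _ mD, lintegral_const_mul _ mA]
  have w1 := lint_D l d h0 h1 hd0 hd1 n x hx0 hx1
  have w2 := lint_invsq l d h0 h1 hd0 hd1 n x hx0 hx1 hxl y hy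
  refine (add_le_add (mul_le_mul_right w1 _) (mul_le_mul_right w2 _)).trans ?_
  rw [← ENNReal.ofReal_mul (by positivity), ← ENNReal.ofReal_mul (by positivity),
    ← ENNReal.ofReal_add (by positivity) (by positivity)]
  apply ENNReal.ofReal_le_ofReal
  apply le_of_eq
  rw [hb, hy]
  field_simp
  ring

end

end Q213.KR
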