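import Pool.Agent.Q213.KR13

set_option autoImplicit false
open MeasureTheory ProbabilityTheory Filter Topology Set Kac764
open scoped ENNReal NNReal

namespace Q213.KR

theorem rho_neg (σ : ℕ → ℝ) (n : ℕ) (x : ℝ) (hx : x ≠ 0) : rho σ n (-x) = rho σ n x := by
  have hA : sA σ n (-x) = sA σ n x := by
    unfold sA
    refine Finset.sum_congr rfl fun k _ => ?_
    rw [mul_pow, mul_pow, ← pow_mul, ← pow_mul, mul_comm k 2, pow_mul, pow_mul]
    norm_num
  have hu : ∀ k : ℕ, (σ k * (-x) ^ k) ^ 2 = (σ k * x ^ k) ^ 2 := by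
    intro k
    rw [mul_pow, mul_pow, ← pow_mul, ← pow_mul, mul_comm k 2, pow_mul, pow_mul]
    norm_num
  have hB : sB σ n (-x) = -sB σ n x := by
    rw [sB_eq σ n x hx, sB_eq σ n (-x) (neg_ne_zero.2 hx)]
    simp only [hu]
    rw [div_neg]
  have hC : sC σ n (-x) = sC σ n x := by
    rw [sC_eq σ n x hx, sC_eq σ n (-x) (neg_ne_zero.2 hx)]
    simp only [hu]
    rw [neg_sq]
  unfold rho
  rw [hA, hB, hC, neg_sq]

theorem rho_meas (n : ℕ) : Measurable fun p : (ℕ → ℝ) × ℝ => rho p.1 n p.2 := by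
  unfold rho sA sB sC
  fun_prop

theorem lint_neg (σ : ℕ → ℝ) (n : ℕ) (r : ℝ) :
    ∫⁻ x in Ioo (-r) 0, ENNReal.ofReal ((1 / Real.pi) * rho σ n x)
      = ∫⁻ x in Ioo 0 r, ENNReal.ofReal ((1 / Real.pi) * rho σ n x) := by
  have hm : Measurable fun x : ℝ => ENNReal.ofReal ((1 / Real.pi) * rho σ n x) := by
    unfold rho sA sB sC
    fun_prop
  have h := (Measure.measurePreserving_neg (volume : Measure ℝ)).setLIntegral_comp_preimage
    (measurableSet_Ioo (a := -r) (b := (0 : ℝ))) hm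
  have e : Neg.neg ⁻¹' Ioo (-r) (0 : ℝ) = Ioo 0 r := by
    ext x
    simp only [mem_preimage, mem_Ioo]
    constructor
    · rintro ⟨h1, h2⟩; constructor <;> linarith
    · rintro ⟨h1, h2⟩; constructor <;> linarith
  rw [e] at h
  rw [← h]
  refine setLIntegral_congr_fun measurableSet_Ioo fun x hx => ?_
  rw [rho_neg σ n x hx.1.ne']

theorem artanh_deriv (x : ℝ) (h0 : 0 ≤ x) (h1 : x < 1) :
    HasDerivAt (fun x : ℝ => 1 / 2 * (Real.log (1 + x) - Real.log (1 - x))) (1 / (1 - x ^ 2)) x := by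
  have a1 : HasDerivAt (fun x : ℝ => Real.log (1 + x)) (1 / (1 + x)) x :=
    ((hasDerivAt_id x).const_add 1).log (by simp only [id]; linarith)
  have a2 : HasDerivAt (fun x : ℝ => Real.log (1 - x)) (-1 / (1 - x)) x :=
    ((hasDerivAt_id x).const_sub 1).log (by simp only [id]; linarith)
  refine ((a1.sub a2).const_mul (1 / 2)).congr_deriv ?_
  have b1 : 1 + x ≠ 0 := by linarith
  have b2 : 1 - x ≠ 0 := by linarith
  have b3 : 1 - x ^ 2 ≠ 0 := by nlinarith
  field_simp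
  ring

/-- `artanh` -/
noncomputable def at' (x : ℝ) : ℝ := 1 / 2 * (Real.log (1 + x) - Real.log (1 - x))

theorem gA_ge (n : ℕ) (x r : ℝ) (hx0 : 0 < x) (hxr : x ≤ r) (hr1 : r < 1) :
    (1 - (r ^ 2) ^ (n + 1)) / (1 - x ^ 2) ≤ gA n x := by
  unfold gA
  have hq : 0 < 1 - x ^ 2 := by nlinarith
  rw [div_le_iff₀ hq, geom_sum_mul_neg]
  have : (x ^ 2) ^ (n + 1) ≤ (r ^ 2) ^ (n + 1) := by
    apply pow_le_pow_left₀ (by positivity)
    nlinarith
  linarith

/-- bound for the expected number of zeros in `(0,r)` of the degree `n` polynomial, times `π` -/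
noncomputable def Bn (l d r0 r : ℝ) (n : ℕ) : ℝ :=
  (5 + 4 * l / (1 - r0) + (1 - l) ^ (n + 1) / (1 - r0))
  + ((1 + (1 - l) ^ (n + 1) / (2 * d ^ 4)) / (1 - (r ^ 2) ^ (n + 1)) * (at' r - at' r0)
  + 2316 / (m1 l d * (1 - (r ^ 2) ^ (n + 1)) ^ 2) * (r - r0))

theorem at_mono (r0 r : ℝ) (h0 : 0 ≤ r0) (h : r0 ≤ r) (hr : r < 1) : at' r0 ≤ at' r := by
  unfold at'
  have h1 : Real.log (1 + r0) ≤ Real.log (1 + r) := Real.log_le_log (by linarith) (by linarith)
  have h2 : Real.log (1 - r) ≤ Real.log (1 - r0) := Real.log_le_log (by linarith) (by linarith)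
  linarith

section
variable (l d : ℝ) (h0 : 0 < l) (h1 : l < 1) (hd0 : 0 < d) (hd1 : d < 1)
include h0 h1 hd0 hd1

theorem tail_int (n : ℕ) (r0 r : ℝ) (hr0 : 0 < r0) (hrr : r0 ≤ r) (hr1 : r < 1)
    (hr0l : 1 - r0 ^ 2 ≤ l / 16) :
    ∫⁻ σ, (∫⁻ x in Ioc r0 r, ENNReal.ofReal (rho σ n x)) ∂(PP (nu l d))
      ≤ ENNReal.ofReal ((1 + (1 - l) ^ (n + 1) / (2 * d ^ 4)) / (1 - (r ^ 2) ^ (n + 1)) * (at' r - at' r0)
        + 2316 / (m1 l d * (1 - (r ^ 2) ^ (n + 1)) ^ 2) * (r - r0)) := by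
  have hm := m1_pos l d h0 h1 hd0 hd1
  have hp := nu_prob l d h0.le h1.le
  have h1l : 0 < 1 - l := by linarith
  have hr : 0 < r := hr0.trans_le hrr
  set κ : ℝ := 1 - (r ^ 2) ^ (n + 1) with hκ
  have hκ0 : 0 < κ := by
    have : (r ^ 2) ^ (n + 1) < 1 := pow_lt_one₀ (by positivity) (by nlinarith) (by omega)
    linarith
  set ε : ℝ := (1 - l) ^ (n + 1) / (2 * d ^ 4) with hε
  have hε0 : 0 < ε := by positivity
  rw [lintegral_lintegral_swap]
  · have hpt : ∀ x ∈ Ioc r0 r, ∫⁻ σ, ENNReal.ofReal (rho σ n x) ∂(PP (nu l d))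
        ≤ ENNReal.ofReal ((1 + ε) / κ * (1 / (1 - x ^ 2)) + 2316 / (m1 l d * κ ^ 2)) := by
      intro x hx
      have hx0 : 0 < x := hr0.trans hx.1
      have hx1 : x < 1 := hx.2.trans_lt hr1
      have hq : 0 < 1 - x ^ 2 := by nlinarith
      have hxl : 1 - x ^ 2 ≤ l / 16 := by
        have : r0 ^ 2 ≤ x ^ 2 := pow_le_pow_left₀ hr0.le hx.1.le 2
        linarith
      refine (exp_tail l d h0 h1 hd0 hd1 n x hx0 hx1 hxl).trans (ENNReal.ofReal_le_ofReal ?_)
      have hg := gA_ge n x r hx0 hx.2 hr1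
      rw [← hκ] at hg
      have hg0 : 0 < κ / (1 - x ^ 2) := by positivity
      have hgA : 0 < gA n x := by
        have := gA_ge_one n x
        linarith
      rw [← hε]
      calc 1 / ((1 - x ^ 2) ^ 2 * gA n x) * (1 + 2316 / (m1 l d * gA n x) + ε)
          ≤ 1 / ((1 - x ^ 2) ^ 2 * (κ / (1 - x ^ 2))) *
            (1 + 2316 / (m1 l d * (κ / (1 - x ^ 2))) + ε) := by gcongr
        _ = (1 + ε) / κ * (1 / (1 - x ^ 2)) + 2316 / (m1 l d * κ ^ 2) := by
            field_simp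
            ring
    refine (setLIntegral_mono' measurableSet_Ioc hpt).trans ?_
    have h := lint_ftc (fun x => (1 + ε) / κ * at' x + 2316 / (m1 l d * κ ^ 2) * x)
      (fun x => (1 + ε) / κ * (1 / (1 - x ^ 2)) + 2316 / (m1 l d * κ ^ 2))
      (fun x => (1 + ε) / κ * (1 / (1 - x ^ 2)) + 2316 / (m1 l d * κ ^ 2)) r0 r hrr ?_ ?_ ?_
      (fun _ _ => le_rfl)
    · refine h.trans (le_of_eq ?_)
      congr 1
      ring
    · intro x hx
      have a1 := (artanh_deriv x (hr0.le.trans hx.1) (hx.2.trans_lt hr1)).const_mul ((1 + ε) / κ)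
      have a2 := (hasDerivAt_id x).const_mul (2316 / (m1 l d * κ ^ 2))
      exact (a1.add a2).congr_deriv (by rw [mul_one])
    · intro x hx
      have hx1 : x < 1 := hx.2.trans_lt hr1
      have hx0 : 0 < x := hr0.trans_le hx.1
      have hq : 1 - x ^ 2 ≠ 0 := by nlinarith
      apply ContinuousAt.continuousWithinAt
      fun_prop (disch := exact hq)
    · intro x hx
      have hx1 : x < 1 := hx.2.trans_lt hr1
      have hx0 : 0 < x := hr0.trans hx.1
      have hq : 0 < 1 - x ^ 2 := by nlinarith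
      positivity
  · exact (ENNReal.measurable_ofReal.comp (rho_meas n)).aemeasurable

/-- `π E nz(P_n; (0,r))`-bound as a lower integral -/
theorem total_lint (n : ℕ) (r0 r : ℝ) (hd : d = Real.exp (-(1 / l))) (hr0 : 0 < r0) (hrr : r0 ≤ r)
    (hr1 : r < 1) (hr0l : 1 - r0 ^ 2 ≤ l / 16) :
    ∫⁻ σ, (∫⁻ x in Ioo 0 r, ENNReal.ofReal ((1 / Real.pi) * rho σ n x)) ∂(PP (nu l d))
      ≤ ENNReal.ofReal ((1 / Real.pi) * Bn l d r0 r n) := by
  have hm := m1_pos l d h0 h1 hd0 hd1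
  have h1l : 0 < 1 - l := by linarith
  have hr : 0 < r := hr0.trans_le hrr
  have hr01 : r0 < 1 := hrr.trans_lt hr1
  have hpi := Real.pi_pos
  have hκ0 : 0 < 1 - (r ^ 2) ^ (n + 1) := by
    have : (r ^ 2) ^ (n + 1) < 1 := pow_lt_one₀ (by positivity) (by nlinarith) (by omega)
    linarith
  have hhead := exp_head l h0 h1 n r0 hr0 hr01
  rw [← hd] at hhead
  have htail := tail_int l d h0 h1 hd0 hd1 n r0 r hr0 hrr hr1 hr0l
  have hmr : Measurable fun p : (ℕ → ℝ) × ℝ => ENNReal.ofReal (rho p.1 n p.2) :=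
    ENNReal.measurable_ofReal.comp (rho_meas n)
  have hp := nu_prob l d h0.le h1.le
  have hmI : ∀ s : Set ℝ, Measurable fun σ : ℕ → ℝ => ∫⁻ x in s, ENNReal.ofReal (rho σ n x) :=
    fun s => Measurable.lintegral_prod_right' hmr
  have hpt : ∀ σ : ℕ → ℝ, ∫⁻ x in Ioo 0 r, ENNReal.ofReal ((1 / Real.pi) * rho σ n x)
      ≤ ENNReal.ofReal (1 / Real.pi) * ((∫⁻ x in Ioc 0 r0, ENNReal.ofReal (rho σ n x))
        + ∫⁻ x in Ioc r0 r, ENNReal.ofReal (rho σ n x)) := by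
    intro σ
    have hmσ : Measurable fun x : ℝ => ENNReal.ofReal (rho σ n x) := by
      unfold rho sA sB sC
      fun_prop
    have e : ∀ x : ℝ, ENNReal.ofReal ((1 / Real.pi) * rho σ n x)
        = ENNReal.ofReal (1 / Real.pi) * ENNReal.ofReal (rho σ n x) := fun x =>
      ENNReal.ofReal_mul (by positivity)
    simp only [e]
    rw [lintegral_const_mul _ hmσ]
    gcongr
    refine le_trans (lintegral_mono_set Ioo_subset_Ioc_self) ?_
    rw [← Ioc_union_Ioc_eq_Ioc hr0.le hrr]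
    exact lintegral_union_le _ _ _
  refine (lintegral_mono hpt).trans ?_
  have hmS : Measurable fun σ : ℕ → ℝ => (∫⁻ x in Ioc 0 r0, ENNReal.ofReal (rho σ n x))
      + ∫⁻ x in Ioc r0 r, ENNReal.ofReal (rho σ n x) := (hmI _).add (hmI _)
  rw [lintegral_const_mul _ hmS, lintegral_add_left (hmI _)]
  refine (mul_le_mul_right (add_le_add hhead htail) _).trans ?_
  have hat := at_mono r0 r hr0.le hrr hr1
  have hat' : 0 ≤ at' r - at' r0 := by linarith
  have hrr' : 0 ≤ r - r0 := by linarith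
  have hr0' : 0 < 1 - r0 := by linarith
  rw [← ENNReal.ofReal_add (by positivity) (by positivity), ← ENNReal.ofReal_mul (by positivity)]
  exact le_of_eq rfl

/-- `E nz(P_n; (0,r))` and `E nz(P_n; (-r,0))` -/
theorem nz_bound (c : ℝ) (hc : c ≠ 0) (n : ℕ) (hn : 1 ≤ n) (r0 r : ℝ)
    (hd : d = Real.exp (-(1 / l))) (hr0 : 0 < r0) (hrr : r0 ≤ r)
    (hr1 : r < 1) (hr0l : 1 - r0 ^ 2 ≤ l / 16) :
    (∫ ω, (nz (kac n ω) (Ioo 0 r) : ℝ) ∂(PP (muc c l d)) ≤ (1 / Real.pi) * Bn l d r0 r n) ∧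
    (∫ ω, (nz (kac n ω) (Ioo (-r) 0) : ℝ) ∂(PP (muc c l d)) ≤ (1 / Real.pi) * Bn l d r0 r n) := by
  have hr : 0 < r := hr0.trans_le hrr
  have hB := total_lint l d h0 h1 hd0 hd1 n r0 r hd hr0 hrr hr1 hr0l
  have e1 := mixture_kac_rice c l d hc h0.le h1.le hd0 n hn 0 r hr (by simp)
  have e2 := mixture_kac_rice c l d hc h0.le h1.le hd0 n hn (-r) 0 (by linarith) (by simp)
  have hm := m1_pos l d h0 h1 hd0 hd1
  have h1l : 0 < 1 - l := by linarith
  have hr01 : r0 < 1 := hrr.trans_lt hr1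
  have hpi := Real.pi_pos
  have hκ0 : 0 < 1 - (r ^ 2) ^ (n + 1) := by
    have : (r ^ 2) ^ (n + 1) < 1 := pow_lt_one₀ (by positivity) (by nlinarith) (by omega)
    linarith
  have hat := at_mono r0 r hr0.le hrr hr1
  have hat' : 0 ≤ at' r - at' r0 := by linarith
  have hrr' : 0 ≤ r - r0 := by linarith
  have hr0' : 0 < 1 - r0 := by linarith
  have hBn : 0 ≤ (1 / Real.pi) * Bn l d r0 r n := by
    unfold Bn
    positivity
  simp only [lint_neg] at e2
  have key : ∀ S : Set ℝ, Measurable (fun ω : ℕ → ℝ => nz (kac n ω) S) →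
      (∫⁻ ω, (nz (kac n ω) S : ℝ≥0∞) ∂(PP (muc c l d)) ≤ ENNReal.ofReal ((1 / Real.pi) * Bn l d r0 r n)) →
      ∫ ω, (nz (kac n ω) S : ℝ) ∂(PP (muc c l d)) ≤ (1 / Real.pi) * Bn l d r0 r n := by
    intro S hS hle
    have hS' : Measurable fun ω : ℕ → ℝ => (nz (kac n ω) S : ℝ) := measurable_from_top.comp hS
    rw [integral_eq_lintegral_of_nonneg_ae (Eventually.of_forall fun ω => Nat.cast_nonneg _)
      hS'.aestronglyMeasurable]
    apply ENNReal.toReal_le_of_le_ofReal hBn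
    refine le_trans (le_of_eq ?_) hle
    refine lintegral_congr fun ω => ?_
    rw [ENNReal.ofReal_natCast]
  refine ⟨key _ (J6.measurable_nz n 0 r) ?_, key _ (J6.measurable_nz n (-r) 0) ?_⟩
  · rw [e1]
    exact hB
  · rw [e2]
    exact hB

end

end Q213.KR
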