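import Pool.Agent.Q213.KR14
import Pool.Agent.Results.MP_5fc11c_pr.KacConstant

set_option autoImplicit false
open MeasureTheory ProbabilityTheory Filter Topology Set Kac764
open scoped ENNReal NNReal
open Pool.Agent.Results.MP_5fc11c_pr.KacConstant (seriesZeros iidLaw seriesZeros_eq)

namespace Q213.KR

theorem gauss_pow_int (p : ℕ) : Integrable (fun x : ℝ => x ^ p) γ0 := by
  have h : MemLp id (p : ℝ≥0∞) γ0 := memLp_id_gaussianReal' (μ := 0) (v := 1) (p : ℝ≥0∞) (by simp)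
  have h2 := h.integrable_norm_pow'
  refine h2.mono' (by fun_prop) (Eventually.of_forall fun x => ?_)
  rw [norm_pow]
  rfl

section
variable (l d : ℝ) (h0 : 0 < l) (h1 : l < 1) (hd0 : 0 < d) (hd1 : d < 1)
include h0 h1 hd0 hd1

theorem nu_pow_int (p : ℕ) : Integrable (fun x : ℝ => x ^ p) (nu l d) := by
  unfold nu
  exact ((integrable_dirac (by simp)).smul_measure ENNReal.ofReal_ne_top).add_measure
    ((integrable_dirac (by simp)).smul_measure ENNReal.ofReal_ne_top)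

theorem muc_pow_int (c : ℝ) (p : ℕ) : Integrable (fun x : ℝ => x ^ p) (muc c l d) := by
  have := nu_prob l d h0.le h1.le
  unfold muc
  rw [integrable_map_measure (by fun_prop) (muc_meas c).aemeasurable]
  have h := ((nu_pow_int l d h0 h1 hd0 hd1 p).mul_prod (gauss_pow_int p)).const_mul (c ^ p)
  refine h.congr (Eventually.of_forall fun z => ?_)
  simp only [Function.comp_def, mul_pow]

theorem muc_int (c : ℝ) (p : ℕ) : ∫ x, x ^ p ∂(muc c l d)
    = c ^ p * ((∫ x, x ^ p ∂(nu l d)) * ∫ x, x ^ p ∂γ0) := by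
  have := nu_prob l d h0.le h1.le
  unfold muc
  rw [integral_map (muc_meas c).aemeasurable (by fun_prop), ← integral_prod_mul, ← integral_const_mul]
  refine integral_congr_ae (Eventually.of_forall fun z => ?_)
  simp only [mul_pow]

theorem muc_std : Std (muc (1 / Real.sqrt (m1 l d)) l d) := by
  have hm := m1_pos l d h0 h1 hd0 hd1
  refine ⟨muc_prob _ l d h0.le h1.le, muc_pow_int l d h0 h1 hd0 hd1 _ 2, ?_, ?_⟩
  · have h := muc_int l d h0 h1 hd0 hd1 (1 / Real.sqrt (m1 l d)) 1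
    simp only [pow_one, integral_id_gaussianReal, mul_zero] at h
    exact h
  · rw [muc_int l d h0 h1 hd0 hd1]
    have e1 : ∫ x : ℝ, x ^ 2 ∂γ0 = 1 := by
      rw [← gauss_sq]
      congr 1
      funext x
      ring
    have e2 : ∫ x, x ^ 2 ∂(nu l d) = m1 l d := by
      rw [nu_int l d h0.le h1.le]
      unfold m1
      ring
    rw [e1, e2, one_div, inv_pow, Real.sq_sqrt hm.le]
    field_simp

theorem Bn_tendsto (r0 r : ℝ) (hr0 : 0 < r0) (hrr : r0 ≤ r) (hr1 : r < 1) :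
    Tendsto (fun n : ℕ => Bn l d r0 r n) atTop
      (𝓝 (5 + 4 * l / (1 - r0) + ((at' r - at' r0) + 2316 / m1 l d * (r - r0)))) := by
  have hm := m1_pos l d h0 h1 hd0 hd1
  have hr : 0 < r := hr0.trans_le hrr
  have t1 : Tendsto (fun n : ℕ => (1 - l) ^ (n + 1)) atTop (𝓝 0) :=
    (tendsto_pow_atTop_nhds_zero_of_lt_one (by linarith) (by linarith)).comp (tendsto_add_atTop_nat 1)
  have t2 : Tendsto (fun n : ℕ => (r ^ 2) ^ (n + 1)) atTop (𝓝 0) :=
    (tendsto_pow_atTop_nhds_zero_of_lt_one (by positivity) (by nlinarith)).comp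
      (tendsto_add_atTop_nat 1)
  have a1 : Tendsto (fun n : ℕ => 5 + 4 * l / (1 - r0) + (1 - l) ^ (n + 1) / (1 - r0)) atTop
      (𝓝 (5 + 4 * l / (1 - r0) + 0 / (1 - r0))) := (t1.div_const _).const_add _
  have a2 : Tendsto (fun n : ℕ => (1 + (1 - l) ^ (n + 1) / (2 * d ^ 4)) / (1 - (r ^ 2) ^ (n + 1))
      * (at' r - at' r0)) atTop (𝓝 ((1 + 0 / (2 * d ^ 4)) / (1 - 0) * (at' r - at' r0))) :=
    ((((t1.div_const _).const_add 1).div (t2.const_sub 1) (by norm_num))).mul_const _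
  have a3 : Tendsto (fun n : ℕ => 2316 / (m1 l d * (1 - (r ^ 2) ^ (n + 1)) ^ 2) * (r - r0)) atTop
      (𝓝 (2316 / (m1 l d * (1 - 0) ^ 2) * (r - r0))) := by
    refine Tendsto.mul_const _ (Tendsto.div tendsto_const_nhds
      (((t2.const_sub 1).pow 2).const_mul _) (by simp [hm.ne']))
  have h := a1.add (a2.add a3)
  simp only [zero_div, add_zero, sub_zero, div_one, one_mul, one_pow, mul_one] at h
  exact h

/-- bound for the expected number of zeros of the power series in `(0,r)` and `(-r,0)` -/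
theorem Ninf_bound (r0 r : ℝ) (hd : d = Real.exp (-(1 / l))) (hr0 : 0 < r0) (hrr : r0 ≤ r)
    (hr1 : r < 1) (hr0l : 1 - r0 ^ 2 ≤ l / 16) :
    (∫ ω, (Ninf ω (Ioo 0 r) : ℝ) ∂(PP (muc (1 / Real.sqrt (m1 l d)) l d))
      ≤ (1 / Real.pi) * (5 + 4 * l / (1 - r0) + ((at' r - at' r0) + 2316 / m1 l d * (r - r0)))) ∧
    (∫ ω, (Ninf ω (Ioo (-r) 0) : ℝ) ∂(PP (muc (1 / Real.sqrt (m1 l d)) l d))
      ≤ (1 / Real.pi) * (5 + 4 * l / (1 - r0) + ((at' r - at' r0) + 2316 / m1 l d * (r - r0)))) := by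
  have hm := m1_pos l d h0 h1 hd0 hd1
  have hr : 0 < r := hr0.trans_le hrr
  have hc : (1 / Real.sqrt (m1 l d)) ≠ 0 := by
    have := Real.sqrt_pos.2 hm
    positivity
  have hstd := muc_std l d h0 h1 hd0 hd1
  have hB := (Bn_tendsto l d h0 h1 hd0 hd1 r0 r hr0 hrr hr1).const_mul (1 / Real.pi)
  have t1 := (A1.tendsto_nz _ hstd 0 r hr (by norm_num) hr1 (by simp)).2
  have t2 := (A1.tendsto_nz _ hstd (-r) 0 (by linarith) (by linarith) (by norm_num) (by simp)).2
  constructor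
  · refine le_of_tendsto_of_tendsto t1 hB ?_
    filter_upwards [eventually_ge_atTop 1] with n hn
    exact (nz_bound l d h0 h1 hd0 hd1 _ hc n hn r0 r hd hr0 hrr hr1 hr0l).1
  · refine le_of_tendsto_of_tendsto t2 hB ?_
    filter_upwards [eventually_ge_atTop 1] with n hn
    exact (nz_bound l d h0 h1 hd0 hd1 _ hc n hn r0 r hd hr0 hrr hr1 hr0l).2

end

theorem series_split (μ : Measure ℝ) (hμ : Std μ) (r : ℝ) (hr : 0 < r) (hr1 : r < 1) :
    ∫ ω, (seriesZeros ω r : ℝ) ∂(iidLaw μ)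
      = ∫ ω, (Ninf ω (Ioo 0 r) : ℝ) ∂(PP μ) + ∫ ω, (Ninf ω (Ioo (-r) 0) : ℝ) ∂(PP μ) := by
  have hA := (A1.tendsto_nz μ hμ 0 r hr (by norm_num) hr1 (by simp)).1
  have hB := (A1.tendsto_nz μ hμ (-r) 0 (by linarith) (by linarith) (by norm_num) (by simp)).1
  rw [← integral_add hA hB]
  change ∫ ω, (seriesZeros ω r : ℝ) ∂(PP μ) = _
  refine integral_congr_ae ?_
  filter_upwards [M1.ae_finite_zeros μ hμ 0 r hr (by norm_num) hr1 (by simp),
    M1.ae_finite_zeros μ hμ (-r) 0 (by linarith) (by linarith) (by norm_num) (by simp)]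
    with ω h1 h2
  have hdis : Disjoint (Ioo 0 r) (Ioo (-r) 0) := by
    rw [Set.disjoint_left]
    rintro x ⟨h3, _⟩ ⟨_, h4⟩
    linarith
  have h3 := M1.aux12193_Ninf_union ω (Ioo 0 r) (Ioo (-r) 0) hdis h1 h2
  have h4 : {x : ℝ | 0 < |x| ∧ |x| < r} = Ioo 0 r ∪ Ioo (-r) 0 := by
    ext x
    constructor
    · rintro ⟨h5, h6⟩
      rw [abs_lt] at h6
      rcases lt_trichotomy x 0 with h | h | h
      · exact Or.inr ⟨h6.1, h⟩
      · simp [h] at h5
      · exact Or.inl ⟨h, h6.2⟩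
    · rintro (⟨h5, h6⟩ | ⟨h5, h6⟩)
      · exact ⟨abs_pos.2 h5.ne', abs_lt.2 ⟨by linarith, h6⟩⟩
      · exact ⟨abs_pos.2 h6.ne, abs_lt.2 ⟨h5, by linarith⟩⟩
  rw [seriesZeros_eq, h4, h3]
  push_cast
  rfl

/-- the bound for the limit `L` of the mixture law -/
theorem L_bound (l d : ℝ) (h0 : 0 < l) (h1 : l < 1) (hd : d = Real.exp (-(1 / l))) (L : ℝ)
    (hL : Tendsto (fun r : ℝ => 2 * (∫ ξ, (seriesZeros ξ r : ℝ)
        ∂(iidLaw (muc (1 / Real.sqrt (m1 l d)) l d)))
      - (2 / Real.pi) * Real.log ((1 + r) / (1 - r))) (𝓝[<] 1) (𝓝 L)) :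
    L ≤ (2 / Real.pi) * (556 - Real.log (16 / l)) := by
  have hd0 : 0 < d := by rw [hd]; exact Real.exp_pos _
  have hd1 : d < 1 := by
    rw [hd, Real.exp_lt_one_iff]
    have : 0 < 1 / l := by positivity
    linarith
  have hm := m1_pos l d h0 h1 hd0 hd1
  have hml : l ≤ m1 l d := by
    unfold m1
    have : 0 < 1 - l := by linarith
    have : 0 ≤ (1 - l) * d ^ 2 := by positivity
    linarith
  have hstd := muc_std l d h0 h1 hd0 hd1
  have hpi := Real.pi_pos
  set r0 : ℝ := Real.sqrt (1 - l / 16) with hr0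
  have hr0sq : r0 ^ 2 = 1 - l / 16 := Real.sq_sqrt (by linarith)
  have hr0p : 0 < r0 := Real.sqrt_pos.2 (by linarith)
  have hr01 : r0 < 1 := by
    rw [hr0, Real.sqrt_lt' one_pos]
    linarith
  have hr0l : 1 - r0 ^ 2 ≤ l / 16 := by linarith
  have hlow : l / 32 ≤ 1 - r0 := by nlinarith
  have hup : 1 - r0 ≤ l / 16 := by nlinarith
  have hpos : 0 < 1 - r0 := by linarith
  have hat0 : 1 / 2 * Real.log (16 / l) ≤ at' r0 := by
    unfold at'
    have e1 : Real.log (16 / l) ≤ -Real.log (1 - r0) := by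
      rw [← Real.log_inv]
      apply Real.log_le_log (by positivity)
      rw [← one_div, div_le_div_iff₀ h0 hpos]
      linarith
    have e2 : 0 ≤ Real.log (1 + r0) := Real.log_nonneg (by linarith)
    linarith
  have c1 : 4 * l / (1 - r0) ≤ 128 := by
    rw [div_le_iff₀ hpos]
    linarith
  have hmem : Ioo r0 1 ∈ 𝓝[<] (1 : ℝ) := Ioo_mem_nhdsLT hr01
  refine le_of_tendsto hL ?_
  filter_upwards [hmem] with r hr
  obtain ⟨b1, b2⟩ := Ninf_bound l d h0 h1 hd0 hd1 r0 r hd hr0p hr.1.le hr.2 hr0l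
  have hsplit := series_split _ hstd r (hr0p.trans hr.1) hr.2
  rw [hsplit]
  have hlog : Real.log ((1 + r) / (1 - r)) = 2 * at' r := by
    unfold at'
    rw [Real.log_div (by linarith [hr.1]) (by linarith [hr.2])]
    ring
  rw [hlog]
  have c2 : 2316 / m1 l d * (r - r0) ≤ 145 := by
    have h2 : 2316 / m1 l d ≤ 2316 / l := div_le_div_of_nonneg_left (by norm_num) h0 hml
    have h3 : r - r0 ≤ l / 16 := by linarith [hr.2]
    calc 2316 / m1 l d * (r - r0) ≤ 2316 / l * (l / 16) :=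
          mul_le_mul h2 h3 (by linarith [hr.1]) (by positivity)
      _ ≤ 145 := by
          have : 2316 / l * (l / 16) = 2316 / 16 := by field_simp
          rw [this]
          norm_num
  have c3 : 5 + 4 * l / (1 - r0) + ((at' r - at' r0) + 2316 / m1 l d * (r - r0))
      ≤ 278 + at' r - 1 / 2 * Real.log (16 / l) := by linarith
  have c4 : (1 / Real.pi) * (5 + 4 * l / (1 - r0) + ((at' r - at' r0) + 2316 / m1 l d * (r - r0)))
      ≤ (1 / Real.pi) * (278 + at' r - 1 / 2 * Real.log (16 / l)) :=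
    mul_le_mul_of_nonneg_left c3 (by positivity)
  have c5 : (2 / Real.pi) * (556 - Real.log (16 / l))
      = 2 * ((1 / Real.pi) * (278 + at' r - 1 / 2 * Real.log (16 / l))
        + (1 / Real.pi) * (278 + at' r - 1 / 2 * Real.log (16 / l)))
        - (2 / Real.pi) * (2 * at' r) := by ring
  rw [c5]
  linarith

end Q213.KR
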