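import Pool.Agent.Q213.KR15

set_option autoImplicit false
open MeasureTheory ProbabilityTheory Filter Topology Set Kac764
open scoped ENNReal NNReal

namespace Q213.KR

/-! ### almost surely all real roots are simple -/

theorem deriv_eval_eq (n : ℕ) (ω : ℕ → ℝ) (x : ℝ) :
    (kac n ω).derivative.eval x = ∑ j ∈ Finset.range (n + 1), ω j * ((j : ℝ) * x ^ (j - 1)) :=
  P6.kac_deriv_eval n ω x

theorem closed_double (n : ℕ) (p q : ℝ) :
    IsClosed {ω : ℕ → ℝ | ∃ x ∈ Icc p q, (kac n ω).eval x = 0 ∧ (kac n ω).derivative.eval x = 0} := by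
  have h : {ω : ℕ → ℝ | ∃ x ∈ Icc p q, (kac n ω).eval x = 0 ∧ (kac n ω).derivative.eval x = 0} =
      Prod.fst '' {z : (ℕ → ℝ) × (Icc p q) | (kac n z.1).eval (z.2 : ℝ) = 0 ∧
        (kac n z.1).derivative.eval (z.2 : ℝ) = 0} := by
    ext ω
    constructor
    · rintro ⟨x, hx, h⟩
      exact ⟨(ω, ⟨x, hx⟩), h, rfl⟩
    · rintro ⟨⟨ω', x⟩, h, rfl⟩
      exact ⟨x, x.2, h⟩
  rw [h]
  apply isClosedMap_fst_of_compactSpace
  have hc : Continuous (fun z : (ℕ → ℝ) × (Icc p q) => (kac n z.1).eval (z.2 : ℝ)) := by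
    simp only [J6.kac_eval_10967]
    apply continuous_finsetSum
    intro j _
    exact ((continuous_apply j).comp continuous_fst).mul
      ((continuous_subtype_val.comp continuous_snd).pow j)
  have hc2 : Continuous (fun z : (ℕ → ℝ) × (Icc p q) => (kac n z.1).derivative.eval (z.2 : ℝ)) := by
    simp only [deriv_eval_eq]
    apply continuous_finsetSum
    intro j _
    exact ((continuous_apply j).comp continuous_fst).mul
      (continuous_const.mul ((continuous_subtype_val.comp continuous_snd).pow (j - 1)))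
  exact (isClosed_singleton.preimage hc).inter (isClosed_singleton.preimage hc2)

/-- there is a double root -/
def Dbl (n : ℕ) : Set (ℕ → ℝ) :=
  {ω | ∃ x, (kac n ω).eval x = 0 ∧ (kac n ω).derivative.eval x = 0}

theorem Dbl_meas (n : ℕ) : MeasurableSet (Dbl n) := by
  have : Dbl n = ⋃ M : ℕ, {ω : ℕ → ℝ | ∃ x ∈ Icc (-(M : ℝ)) M, (kac n ω).eval x = 0 ∧
      (kac n ω).derivative.eval x = 0} := by
    ext ω
    simp only [Dbl, mem_iUnion]
    constructor
    · rintro ⟨x, hx⟩
      obtain ⟨M, hM⟩ := exists_nat_ge |x|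
      exact ⟨M, x, abs_le.1 hM, hx⟩
    · rintro ⟨M, x, _, hx⟩
      exact ⟨x, hx⟩
  rw [this]
  exact MeasurableSet.iUnion fun M => (closed_double n _ _).measurableSet

theorem deriv_coeff (n : ℕ) (ω : ℕ → ℝ) (k : ℕ) :
    (kac n ω).derivative.coeff k = (if k + 1 ≤ n then ω (k + 1) else 0) * (k + 1) := by
  rw [Polynomial.coeff_derivative, H4.h4_coeff]

theorem cst_meas (n : ℕ) : MeasurableSet {ω : ℕ → ℝ | (kac n ω).derivative = 0} := by
  have : {ω : ℕ → ℝ | (kac n ω).derivative = 0}
      = ⋂ k : ℕ, {ω : ℕ → ℝ | (kac n ω).derivative.coeff k = 0} := by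
    ext ω
    simp only [mem_iInter]
    constructor
    · intro h k
      have h' : (kac n ω).derivative = 0 := h
      change (kac n ω).derivative.coeff k = 0
      rw [h', Polynomial.coeff_zero]
    · intro h
      exact Polynomial.ext fun k => by
        rw [Polynomial.coeff_zero]
        exact h k
  rw [this]
  refine MeasurableSet.iInter fun k => ?_
  have hm : Measurable fun ω : ℕ → ℝ => (kac n ω).derivative.coeff k := by
    simp only [deriv_coeff]
    split_ifs
    · exact (measurable_pi_apply _).mul_const _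
    · exact measurable_const
  exact hm (measurableSet_singleton 0)

theorem nodup_of_not_bad (n : ℕ) (ω : ℕ → ℝ) (h : ¬ (ω ∈ Dbl n ∧ (kac n ω).derivative ≠ 0)) :
    (kac n ω).roots.Nodup := by
  classical
  by_cases hd : (kac n ω).derivative = 0
  · have h1 := Polynomial.derivative_eq_zero.1 hd
    obtain ⟨c, hc⟩ := Polynomial.natDegree_eq_zero.1 h1
    rw [← hc, Polynomial.roots_C]
    exact Multiset.nodup_zero
  · have h1 : ω ∉ Dbl n := fun h2 => h ⟨h2, hd⟩
    have hne : kac n ω ≠ 0 := fun h2 => hd (by rw [h2, Polynomial.derivative_zero])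
    rw [Multiset.nodup_iff_count_le_one]
    intro x
    rw [Polynomial.count_roots]
    by_contra h3
    push Not at h3
    have h4 := (Polynomial.one_lt_rootMultiplicity_iff_isRoot hne).1 h3
    exact h1 ⟨x, h4.1, h4.2⟩

theorem ae_nodup (μ : Measure ℝ) [IsProbabilityMeasure μ] (hna : ∀ x : ℝ, μ {x} = 0) (n : ℕ) :
    ∀ᵐ ω ∂(PP μ), (kac n ω).roots.Nodup := by
  set B : Set (ℕ → ℝ) := Dbl n ∩ {ω : ℕ → ℝ | (kac n ω).derivative = 0}ᶜ with hB
  have hBm : MeasurableSet B := (Dbl_meas n).inter (cst_meas n).compl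
  have hB0 : PP μ B = 0 := by
    rw [← lintegral_indicator_one hBm, ← G1.x_lint_upd μ 0 (measurable_one.indicator hBm)]
    refine lintegral_eq_zero_of_ae_eq_zero (Eventually.of_forall fun w => ?_)
    change ∫⁻ z, B.indicator 1 (Function.update w 0 z) ∂μ = 0
    set p : Polynomial ℝ := kac n (Function.update w 0 0) with hp
    have e : ∀ z : ℝ, kac n (Function.update w 0 z) = p + Polynomial.C z := by
      intro z
      have h := K5.kac_update n (Function.update w 0 0) z
      rw [← hp] at h
      rw [← h]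
      congr 1
      simp
    have hsub : {z : ℝ | Function.update w 0 z ∈ B}
        ⊆ (fun x => -p.eval x) '' (p.derivative.roots.toFinset : Set ℝ) := by
      intro z hz
      obtain ⟨⟨x, hx1, hx2⟩, hz2⟩ := hz
      rw [e z] at hx1 hx2
      have hz3 : (kac n (Function.update w 0 z)).derivative ≠ 0 := hz2
      rw [e z, Polynomial.derivative_add, Polynomial.derivative_C, add_zero] at hz3
      rw [Polynomial.derivative_add, Polynomial.derivative_C, add_zero] at hx2
      rw [Polynomial.eval_add, Polynomial.eval_C] at hx1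
      refine ⟨x, ?_, by simp only; linarith⟩
      simp only [Finset.mem_coe, Multiset.mem_toFinset]
      exact (Polynomial.mem_roots hz3).2 hx2
    have hnull : μ {z : ℝ | Function.update w 0 z ∈ B} = 0 := by
      have hfin : ((fun x => -p.eval x) '' (p.derivative.roots.toFinset : Set ℝ)).Finite :=
        (Finset.finite_toSet _).image _
      refine measure_mono_null hsub ?_
      rw [← Set.biUnion_of_singleton ((fun x => -p.eval x) '' (p.derivative.roots.toFinset : Set ℝ))]
      exact (measure_biUnion_null_iff hfin.countable).2 fun x _ => hna x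
    have hms : MeasurableSet {z : ℝ | Function.update w 0 z ∈ B} := by
      have h2 : Measurable fun z : ℝ => Function.update w 0 z := by
        have := (G1.x_meas_upd 0).comp (measurable_const.prodMk measurable_id :
          Measurable fun z : ℝ => ((w, z) : (ℕ → ℝ) × ℝ))
        exact this
      exact h2 hBm
    have e2 : ∀ z : ℝ, B.indicator (1 : (ℕ → ℝ) → ℝ≥0∞) (Function.update w 0 z)
        = {z : ℝ | Function.update w 0 z ∈ B}.indicator 1 z := fun z => rfl
    simp only [e2]
    rw [lintegral_indicator_one hms, hnull]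
  rw [ae_iff]
  refine measure_mono_null ?_ hB0
  intro ω hω
  by_contra h
  apply hω
  apply nodup_of_not_bad
  rintro ⟨h1, h2⟩
  exact h ⟨h1, h2⟩

theorem ae_card (μ : Measure ℝ) [IsProbabilityMeasure μ] (hna : ∀ x : ℝ, μ {x} = 0) (n : ℕ) :
    ∀ᵐ ω ∂(PP μ), (Multiset.card (kac n ω).roots : ℝ) = ((kac n ω).roots.toFinset.card : ℝ) := by
  filter_upwards [ae_nodup μ hna n] with ω hω
  rw [Multiset.toFinset_card_of_nodup hω]

end Q213.KR
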