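import Pool.Agent.Q213.KR1
import Pool.Agent.Helper764.KacK5

set_option autoImplicit false
open MeasureTheory ProbabilityTheory Filter Topology Set Kac764
open scoped ENNReal NNReal

namespace Q213.KR

/-- standard Gaussian law -/
noncomputable abbrev γ0 : Measure ℝ := gaussianReal 0 1

theorem iindep_coord (μ : Measure ℝ) [IsProbabilityMeasure μ] :
    iIndepFun (fun (i : ℕ) (ω : ℕ → ℝ) => ω i) (PP μ) :=
  iIndepFun_infinitePi (P := fun _ : ℕ => μ) (X := fun _ x => x) (fun _ => measurable_id)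

theorem map_coord (μ : Measure ℝ) [IsProbabilityMeasure μ] (i : ℕ) :
    (PP μ).map (fun ω : ℕ → ℝ => ω i) = μ := by
  exact Measure.infinitePi_map_eval (fun _ : ℕ => μ) i

theorem gauss_sq : ∫ x : ℝ, x * x ∂γ0 = 1 := by
  have h := variance_fun_id_gaussianReal (μ := 0) (v := 1)
  rw [variance_eq_integral measurable_id'.aemeasurable] at h
  simp only [integral_id_gaussianReal, sub_zero, NNReal.coe_one] at h
  rw [← h]
  congr 1
  funext x
  ring

theorem lin_gauss (n : ℕ) (α β : ℕ → ℝ) :
    HasGaussianLaw (fun g : ℕ → ℝ => (∑ k ∈ Finset.range n, α k * g k,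
      ∑ k ∈ Finset.range n, β k * g k)) (PP γ0) := by
  have h1 : iIndepFun (fun (i : Fin n) (ω : ℕ → ℝ) => ω i) (PP γ0) :=
    (iindep_coord γ0).precomp Fin.val_injective
  have h2 : ∀ i : Fin n, HasGaussianLaw (fun ω : ℕ → ℝ => ω i) (PP γ0) := by
    intro i
    constructor
    rw [map_coord]
    infer_instance
  have h3 := iIndepFun.hasGaussianLaw h2 h1
  have h4 := h3.map_fun ((∑ i : Fin n, (α i) • (ContinuousLinearMap.proj i :
      (Fin n → ℝ) →L[ℝ] ℝ)).prod (∑ i : Fin n, (β i) • (ContinuousLinearMap.proj i :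
      (Fin n → ℝ) →L[ℝ] ℝ)))
  refine h4.congr (Eventually.of_forall fun ω => ?_)
  simp [Finset.sum_range]

theorem coord_mem (i : ℕ) : MemLp (fun ω : ℕ → ℝ => ω i) 2 (PP γ0) := by
  have h2 : HasGaussianLaw (fun ω : ℕ → ℝ => ω i) (PP γ0) := by
    constructor
    rw [map_coord]
    infer_instance
  exact h2.memLp_two

theorem coord_mul (i j : ℕ) : ∫ g : ℕ → ℝ, g i * g j ∂(PP γ0) = if i = j then 1 else 0 := by
  by_cases h : i = j
  · subst h
    rw [if_pos rfl, ← gauss_sq]
    have := integral_map (μ := PP γ0) (φ := fun ω : ℕ → ℝ => ω i) (measurable_pi_apply i).aemeasurable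
      (f := fun x : ℝ => x * x) (by fun_prop)
    rw [← this, map_coord]
  · rw [if_neg h]
    have hi := (iindep_coord γ0).indepFun h
    have := hi.integral_fun_mul_eq_mul_integral (measurable_pi_apply i).aestronglyMeasurable
      (measurable_pi_apply j).aestronglyMeasurable
    rw [this]
    have h0 : ∫ ω : ℕ → ℝ, ω i ∂(PP γ0) = 0 := by
      have := integral_map (μ := PP γ0) (φ := fun ω : ℕ → ℝ => ω i) (measurable_pi_apply i).aemeasurable
        (f := fun x : ℝ => x) (by fun_prop)
      rw [← this, map_coord, integral_id_gaussianReal]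
    rw [h0, zero_mul]

theorem coord_int0 (i : ℕ) : ∫ ω : ℕ → ℝ, ω i ∂(PP γ0) = 0 := by
  have := integral_map (μ := PP γ0) (φ := fun ω : ℕ → ℝ => ω i) (measurable_pi_apply i).aemeasurable
    (f := fun x : ℝ => x) (by fun_prop)
  rw [← this, map_coord, integral_id_gaussianReal]

theorem lin_mean (n : ℕ) (α : ℕ → ℝ) :
    ∫ g : ℕ → ℝ, ∑ k ∈ Finset.range n, α k * g k ∂(PP γ0) = 0 := by
  rw [integral_finsetSum _ fun k _ => ((coord_mem k).integrable (by norm_num)).const_mul _]
  refine Finset.sum_eq_zero fun k _ => ?_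
  rw [integral_const_mul, coord_int0, mul_zero]

theorem lin_cov (n : ℕ) (α β : ℕ → ℝ) :
    ∫ g : ℕ → ℝ, (∑ k ∈ Finset.range n, α k * g k) * (∑ k ∈ Finset.range n, β k * g k) ∂(PP γ0)
      = ∑ k ∈ Finset.range n, α k * β k := by
  have e : ∀ g : ℕ → ℝ, (∑ k ∈ Finset.range n, α k * g k) * (∑ k ∈ Finset.range n, β k * g k)
      = ∑ i ∈ Finset.range n, ∑ j ∈ Finset.range n, (α i * β j) * (g i * g j) := by
    intro g
    rw [Finset.sum_mul_sum]
    refine Finset.sum_congr rfl fun i _ => Finset.sum_congr rfl fun j _ => ?_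
    ring
  simp only [e]
  have hi : ∀ i j : ℕ, Integrable (fun g : ℕ → ℝ => (α i * β j) * (g i * g j)) (PP γ0) := fun i j =>
    ((coord_mem i).integrable_mul (coord_mem j)).const_mul _
  rw [integral_finsetSum _ fun i _ => integrable_finsetSum _ fun j _ => hi i j]
  refine Finset.sum_congr rfl fun i hi' => ?_
  rw [integral_finsetSum _ fun j _ => hi i j]
  simp only [integral_const_mul, coord_mul]
  rw [Finset.sum_eq_single i]
  · simp
  · intro j _ hj
    rw [if_neg (Ne.symm hj), mul_zero]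
  · intro h
    exact absurd hi' h

end Q213.KR
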