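import Pool.Agent.Q213.KR2
import Pool.Agent.Helper764.KacFin

set_option autoImplicit false
open MeasureTheory ProbabilityTheory Filter Topology Set Kac764
open scoped ENNReal NNReal

namespace Q213.KR

/-- `∑ σ_k² x^{2k}` -/
noncomputable def sA (σ : ℕ → ℝ) (n : ℕ) (x : ℝ) : ℝ := ∑ k ∈ Finset.range (n + 1), (σ k * x ^ k) ^ 2
noncomputable def sB (σ : ℕ → ℝ) (n : ℕ) (x : ℝ) : ℝ :=
  ∑ k ∈ Finset.range (n + 1), (σ k * x ^ k) * (σ k * (k * x ^ (k - 1)))
noncomputable def sC (σ : ℕ → ℝ) (n : ℕ) (x : ℝ) : ℝ :=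
  ∑ k ∈ Finset.range (n + 1), (σ k * (k * x ^ (k - 1))) ^ 2
/-- `π` times the density of real zeros for independent centred Gaussian coefficients with standard
deviations `σ_k` -/
noncomputable def rho (σ : ℕ → ℝ) (n : ℕ) (x : ℝ) : ℝ :=
  Real.sqrt (sA σ n x * sC σ n x - sB σ n x ^ 2) / sA σ n x

theorem D0_upd (σ g : ℕ → ℝ) (n : ℕ) (x : ℝ) :
    D0 n (Function.update (fun k => σ k * g k) 0 0) x
      = ∑ k ∈ Finset.range (n + 1), (if k = 0 then 0 else σ k * x ^ k) * g k := by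
  unfold D0
  refine Finset.sum_congr rfl fun k _ => ?_
  by_cases hk : k = 0
  · subst hk
    simp
  · rw [Function.update_of_ne hk, if_neg hk]
    ring

theorem D1_upd (σ g : ℕ → ℝ) (n : ℕ) (x : ℝ) :
    D1 n (Function.update (fun k => σ k * g k) 0 0) x
      = ∑ k ∈ Finset.range (n + 1), (σ k * (k * x ^ (k - 1))) * g k := by
  unfold D1
  refine Finset.sum_congr rfl fun k _ => ?_
  by_cases hk : k = 0
  · subst hk
    simp
  · rw [Function.update_of_ne hk]
    ring

theorem meas_nz (n : ℕ) (a b : ℝ) :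
    Measurable fun ω : ℕ → ℝ => (nz (kac n ω) (Ioo a b) : ℝ≥0∞) :=
  (measurable_of_countable (fun k : ℕ => (k : ℝ≥0∞))).comp (J6.measurable_nz n a b)

/-- pointwise expectation -/
theorem point_density (σ : ℕ → ℝ) (hσ : ∀ k, 0 < σ k) (n : ℕ) (hn : 1 ≤ n) (x : ℝ) (hx : x ≠ 0) :
    ∫⁻ g : ℕ → ℝ, ENNReal.ofReal |∑ k ∈ Finset.range (n + 1), (σ k * (k * x ^ (k - 1))) * g k|
        * gaussianPDF 0 (Real.toNNReal (σ 0 ^ 2))
          (-(∑ k ∈ Finset.range (n + 1), (if k = 0 then 0 else σ k * x ^ k) * g k)) ∂(PP γ0)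
      = ENNReal.ofReal ((1 / Real.pi) * rho σ n x) := by
  set α : ℕ → ℝ := fun k => if k = 0 then 0 else σ k * x ^ k with hα
  set β : ℕ → ℝ := fun k => σ k * (k * x ^ (k - 1)) with hβ
  have ha : 0 < ∑ k ∈ Finset.range (n + 1), α k * α k := by
    have h1 : 0 < α 1 * α 1 := by
      have : α 1 ≠ 0 := by
        simp only [hα, one_ne_zero, if_false, pow_one]
        exact mul_ne_zero (hσ 1).ne' hx
      exact mul_self_pos.2 this
    exact lt_of_lt_of_le h1 (Finset.single_le_sum (f := fun k => α k * α k)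
      (fun i _ => mul_self_nonneg _) (Finset.mem_range.2 (by omega)))
  have hv : Real.toNNReal (σ 0 ^ 2) ≠ 0 := by
    rw [ne_eq, Real.toNNReal_eq_zero]
    have := hσ 0
    push Not
    positivity
  have h := pair_gauss (PP γ0) _ _ (lin_gauss (n + 1) α β) (lin_mean _ _) (lin_mean _ _) _ _ _ ha
    (lin_cov _ _ _) (lin_cov _ _ _) (lin_cov _ _ _) (Real.toNNReal (σ 0 ^ 2)) hv
  rw [h, Real.coe_toNNReal _ (sq_nonneg _)]
  have eA : σ 0 ^ 2 + ∑ k ∈ Finset.range (n + 1), α k * α k = sA σ n x := by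
    unfold sA
    rw [Finset.sum_range_succ', Finset.sum_range_succ']
    simp only [hα, if_true, pow_zero, mul_one, Nat.succ_ne_zero, if_false]
    rw [mul_zero, add_zero, add_comm]
    congr 1
    refine Finset.sum_congr rfl fun k _ => ?_
    ring
  have eB : ∑ k ∈ Finset.range (n + 1), α k * β k = sB σ n x := by
    unfold sB
    refine Finset.sum_congr rfl fun k _ => ?_
    by_cases hk : k = 0
    · subst hk
      simp [hα, hβ]
    · simp only [hα, hβ, if_neg hk]
  have eC : ∑ k ∈ Finset.range (n + 1), β k * β k = sC σ n x := by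
    unfold sC
    refine Finset.sum_congr rfl fun k _ => ?_
    simp only [hβ]
    ring
  rw [eA, eB, eC]
  have hA : 0 < sA σ n x := by
    rw [← eA]
    have := hσ 0
    positivity
  congr 2
  unfold rho
  have : (sC σ n x - sB σ n x ^ 2 / sA σ n x) / sA σ n x
      = (sA σ n x * sC σ n x - sB σ n x ^ 2) / sA σ n x ^ 2 := by
    field_simp
  rw [this, Real.sqrt_div' _ (sq_nonneg _), Real.sqrt_sq hA.le]

theorem map_scale (s : ℝ) : γ0.map (fun z => s * z) = gaussianReal 0 (Real.toNNReal (s ^ 2)) := by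
  have h1 := gaussianReal_map_const_mul (μ := 0) (v := 1) s
  rw [mul_zero, mul_one] at h1
  rw [h1]
  congr 1
  apply NNReal.coe_injective
  rw [Real.coe_toNNReal _ (sq_nonneg _)]
  rfl

theorem one_dim (p : Polynomial ℝ) (a b : ℝ) (hab : a < b)
    (hm : Measurable fun c : ℝ => (nz (p + Polynomial.C c) (Ioo a b) : ℝ≥0∞)) (s : ℝ) (hs : 0 < s) :
    ∫⁻ z, (nz (p + Polynomial.C (s * z)) (Ioo a b) : ℝ≥0∞) ∂γ0
      = ∫⁻ x in Ioo a b, ENNReal.ofReal |p.derivative.eval x|
        * gaussianPDF 0 (Real.toNNReal (s ^ 2)) (-p.eval x) := by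
  have hv : Real.toNNReal (s ^ 2) ≠ 0 := by
    rw [ne_eq, Real.toNNReal_eq_zero]
    push Not
    positivity
  set v : ℝ≥0 := Real.toNNReal (s ^ 2) with hvd
  have hms : Measurable fun z : ℝ => s * z := measurable_const_mul s
  have e2 : ∫⁻ z, (nz (p + Polynomial.C (s * z)) (Ioo a b) : ℝ≥0∞) ∂γ0
      = ∫⁻ c, (nz (p + Polynomial.C c) (Ioo a b) : ℝ≥0∞) ∂(γ0.map (fun z => s * z)) :=
    (lintegral_map hm hms).symm
  have e3 := J1.banach_indicatrix p a b hab (gaussianPDF 0 v) (measurable_gaussianPDF 0 v)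
  rw [e2, map_scale, ← e3, ← hvd, gaussianReal_of_var_ne_zero _ hv,
    lintegral_withDensity_eq_lintegral_mul _ (measurable_gaussianPDF 0 v) hm]
  refine lintegral_congr fun c => ?_
  simp only [Pi.mul_apply]
  ring

theorem meas_shift (n : ℕ) (ω : ℕ → ℝ) (a b : ℝ) :
    Measurable fun c : ℝ => (nz (kac n ω + Polynomial.C c) (Ioo a b) : ℝ≥0∞) := by
  have h := K5.measurable_joint n a b
  have h2 : Measurable fun c : ℝ => ((c, ω) : ℝ × (ℕ → ℝ)) := measurable_id.prodMk measurable_const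
  have h3 := Measurable.comp
    (g := fun p : ℝ × (ℕ → ℝ) => (nz (kac n p.2 + Polynomial.C p.1) (Ioo a b) : ℝ≥0∞)) h h2
  simpa only [Function.comp_def] using h3

theorem kac_scaled_upd (σ w : ℕ → ℝ) (n : ℕ) (z : ℝ) :
    kac n (fun k => σ k * Function.update w 0 z k)
      = kac n (Function.update (fun k => σ k * w k) 0 0) + Polynomial.C (σ 0 * z) := by
  have h := K5.kac_update n (Function.update (fun k => σ k * w k) 0 0) (σ 0 * z)
  rw [← h]
  congr 1
  funext k
  by_cases hk : k = 0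
  · subst hk
    simp
  · simp only [Function.update_of_ne hk]

theorem kr_inner (σ w : ℕ → ℝ) (hσ : 0 < σ 0) (n : ℕ) (a b : ℝ) (hab : a < b) :
    ∫⁻ z, (nz (kac n (fun k => σ k * Function.update w 0 z k)) (Ioo a b) : ℝ≥0∞) ∂γ0
      = ∫⁻ x in Ioo a b,
        ENNReal.ofReal |∑ k ∈ Finset.range (n + 1), (σ k * (k * x ^ (k - 1))) * w k|
        * gaussianPDF 0 (Real.toNNReal (σ 0 ^ 2))
          (-(∑ k ∈ Finset.range (n + 1), (if k = 0 then 0 else σ k * x ^ k) * w k)) := by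
  have h := one_dim (kac n (Function.update (fun k => σ k * w k) 0 0)) a b hab
    (meas_shift n _ a b) (σ 0) hσ
  simp only [← kac_scaled_upd] at h
  rw [h]
  refine lintegral_congr fun x => ?_
  rw [P6.kac_deriv_eval, P6.kac_eval, D0_upd, D1_upd]

/-- Kac-Rice formula for independent centred Gaussian coefficients. -/
theorem kac_rice (σ : ℕ → ℝ) (hσ : ∀ k, 0 < σ k) (n : ℕ) (hn : 1 ≤ n) (a b : ℝ) (hab : a < b)
    (h0 : (0 : ℝ) ∉ Ioo a b) :
    ∫⁻ g : ℕ → ℝ, (nz (kac n (fun k => σ k * g k)) (Ioo a b) : ℝ≥0∞) ∂(PP γ0)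
      = ∫⁻ x in Ioo a b, ENNReal.ofReal ((1 / Real.pi) * rho σ n x) := by
  have hmσ : Measurable fun g : ℕ → ℝ => (fun k => σ k * g k) := by
    rw [measurable_pi_iff]
    intro k
    exact (measurable_pi_apply k).const_mul _
  have hH : Measurable fun g : ℕ → ℝ => (nz (kac n (fun k => σ k * g k)) (Ioo a b) : ℝ≥0∞) :=
    (meas_nz n a b).comp hmσ
  rw [← G1.x_lint_upd γ0 0 hH]
  rw [lintegral_congr fun w => kr_inner σ w (hσ 0) n a b hab]
  rw [lintegral_lintegral_swap]
  · refine setLIntegral_congr_fun measurableSet_Ioo fun x hx => ?_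
    have hx0 : x ≠ 0 := fun h => h0 (h ▸ hx)
    exact point_density σ hσ n hn x hx0
  · apply Measurable.aemeasurable
    have m1 : Measurable fun p : (ℕ → ℝ) × ℝ =>
        ∑ k ∈ Finset.range (n + 1), (σ k * (k * p.2 ^ (k - 1))) * p.1 k := by fun_prop
    have m2 : Measurable fun p : (ℕ → ℝ) × ℝ =>
        ∑ k ∈ Finset.range (n + 1), (if k = 0 then 0 else σ k * p.2 ^ k) * p.1 k := by
      refine Finset.measurable_sum _ fun k _ => ?_
      by_cases hk : k = 0
      · simp only [hk, if_true, zero_mul]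
        exact measurable_const
      · simp only [hk, if_false]
        fun_prop
    exact (ENNReal.measurable_ofReal.comp (measurable_norm.comp m1)).mul
      ((measurable_gaussianPDF 0 _).comp m2.neg)

end Q213.KR
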