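import Pool.Agent.Q213.KR3

set_option autoImplicit false
open MeasureTheory ProbabilityTheory Filter Topology Set Kac764
open scoped ENNReal NNReal

namespace Q213.KR

/-- expectation of a product of functions of distinct coordinates -/
theorem lint_prod_coord (ν : Measure ℝ) [IsProbabilityMeasure ν] (s : Finset ℕ)
    (f : ℕ → ℝ → ℝ≥0∞) (hf : ∀ i, Measurable (f i)) :
    ∫⁻ ω : ℕ → ℝ, ∏ i ∈ s, f i (ω i) ∂(PP ν) = ∏ i ∈ s, ∫⁻ y, f i y ∂ν := by
  have h1 : iIndepFun (fun (i : ℕ) (ω : ℕ → ℝ) => f i (ω i)) (PP ν) :=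
    iIndepFun_infinitePi (P := fun _ : ℕ => ν) (X := f) hf
  have h2 := lintegral_prod_eq_prod_lintegral_of_indepFun s
    (fun (i : ℕ) (ω : ℕ → ℝ) => f i (ω i)) h1 (fun i => (hf i).comp (measurable_pi_apply i))
  rw [h2]
  refine Finset.prod_congr rfl fun i _ => ?_
  have h3 := lintegral_map (μ := PP ν) (hf i) (measurable_pi_apply i)
  rw [← h3, map_coord]

theorem PP_map_prod (ν γ : Measure ℝ) [IsProbabilityMeasure ν] [IsProbabilityMeasure γ]
    (φ : ℝ → ℝ → ℝ) (hφ : Measurable fun p : ℝ × ℝ => φ p.1 p.2) :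
    ((PP ν).prod (PP γ)).map (fun p : (ℕ → ℝ) × (ℕ → ℝ) => fun k => φ (p.1 k) (p.2 k))
      = PP ((ν.prod γ).map fun p : ℝ × ℝ => φ p.1 p.2) := by
  have : IsProbabilityMeasure ((ν.prod γ).map fun p : ℝ × ℝ => φ p.1 p.2) :=
    Measure.isProbabilityMeasure_map hφ.aemeasurable
  have hΦ : Measurable fun p : (ℕ → ℝ) × (ℕ → ℝ) => fun k => φ (p.1 k) (p.2 k) := by
    rw [measurable_pi_iff]
    intro k
    exact hφ.comp (f := fun p : (ℕ → ℝ) × (ℕ → ℝ) => (p.1 k, p.2 k))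
      (((measurable_pi_apply k).comp measurable_fst).prodMk
      ((measurable_pi_apply k).comp measurable_snd))
  refine Measure.eq_infinitePi _ (fun s t ht => ?_)
  have hms : MeasurableSet ((s : Set ℕ).pi t) := MeasurableSet.pi s.countable_toSet (fun i _ => ht i)
  rw [Measure.map_apply hΦ hms, Measure.prod_apply (hΦ hms)]
  have hsec : ∀ y : ℝ, MeasurableSet {x : ℝ | φ y x ∈ t 0} := fun y =>
    (hφ.comp (measurable_const.prodMk measurable_id)) (ht 0)
  have e1 : ∀ σ : ℕ → ℝ, (PP γ) (Prod.mk σ ⁻¹' ((fun p : (ℕ → ℝ) × (ℕ → ℝ) => fun k => φ (p.1 k) (p.2 k)) ⁻¹'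
      ((s : Set ℕ).pi t))) = ∏ i ∈ s, γ {x : ℝ | φ (σ i) x ∈ t i} := by
    intro σ
    have h1 : (Prod.mk σ ⁻¹' ((fun p : (ℕ → ℝ) × (ℕ → ℝ) => fun k => φ (p.1 k) (p.2 k)) ⁻¹'
      ((s : Set ℕ).pi t))) = (s : Set ℕ).pi (fun i => {x : ℝ | φ (σ i) x ∈ t i}) := by
      ext g
      simp only [mem_preimage, Set.mem_pi]
      rfl
    rw [h1, Measure.infinitePi_pi]
    intro i _
    exact (hφ.comp (measurable_const.prodMk measurable_id)) (ht i)
  simp only [e1]
  have hf : ∀ i : ℕ, Measurable fun y : ℝ => γ {x : ℝ | φ y x ∈ t i} := by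
    intro i
    have h1 : MeasurableSet ((fun p : ℝ × ℝ => φ p.1 p.2) ⁻¹' (t i)) := hφ (ht i)
    exact measurable_measure_prodMk_left h1
  rw [lint_prod_coord ν s (fun i y => γ {x : ℝ | φ y x ∈ t i}) hf]
  refine Finset.prod_congr rfl fun i _ => ?_
  rw [Measure.map_apply hφ (ht i), Measure.prod_apply (hφ (ht i))]
  rfl

/-- two-point law of the standard deviation -/
noncomputable def nu (l d : ℝ) : Measure ℝ :=
  ENNReal.ofReal (1 - l) • Measure.dirac d + ENNReal.ofReal l • Measure.dirac 1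

theorem nu_prob (l d : ℝ) (h0 : 0 ≤ l) (h1 : l ≤ 1) : IsProbabilityMeasure (nu l d) := by
  constructor
  unfold nu
  rw [Measure.add_apply, Measure.smul_apply, Measure.smul_apply, measure_univ, measure_univ,
    smul_eq_mul, smul_eq_mul, mul_one, mul_one, ← ENNReal.ofReal_add (by linarith) h0]
  simp

theorem nu_lint (l d : ℝ) (f : ℝ → ℝ≥0∞) (hf : Measurable f) :
    ∫⁻ y, f y ∂(nu l d) = ENNReal.ofReal (1 - l) * f d + ENNReal.ofReal l * f 1 := by
  unfold nu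
  rw [lintegral_add_measure, lintegral_smul_measure, lintegral_smul_measure,
    lintegral_dirac' _ hf, lintegral_dirac' _ hf, smul_eq_mul, smul_eq_mul]

theorem nu_ae (l d : ℝ) (h0 : 0 ≤ l) (h1 : l ≤ 1) :
    ∀ᵐ σ ∂(PP (nu l d)), ∀ k, σ k = d ∨ σ k = 1 := by
  have := nu_prob l d h0 h1
  rw [ae_all_iff]
  intro k
  have hms : MeasurableSet {y : ℝ | y = d ∨ y = 1} := by
    have : {y : ℝ | y = d ∨ y = 1} = {d, 1} := by
      ext y
      simp
    rw [this]
    exact (Set.toFinite _).measurableSet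
  have h2 : ∀ᵐ y ∂(nu l d), y = d ∨ y = 1 := by
    rw [ae_iff]
    have : {y : ℝ | ¬ (y = d ∨ y = 1)} = {y : ℝ | y = d ∨ y = 1}ᶜ := rfl
    rw [this]
    unfold nu
    rw [Measure.add_apply, Measure.smul_apply, Measure.smul_apply,
      Measure.dirac_apply' _ hms.compl, Measure.dirac_apply' _ hms.compl]
    simp
  have h3 := map_coord (nu l d) k
  rw [← h3] at h2
  exact (ae_map_iff (measurable_pi_apply k).aemeasurable hms).1 h2

/-- the law of `c σ g` -/
noncomputable def muc (c l d : ℝ) : Measure ℝ :=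
  ((nu l d).prod γ0).map fun p : ℝ × ℝ => c * (p.1 * p.2)

theorem muc_meas (c : ℝ) : Measurable fun p : ℝ × ℝ => c * (p.1 * p.2) := by fun_prop

theorem muc_prob (c l d : ℝ) (h0 : 0 ≤ l) (h1 : l ≤ 1) : IsProbabilityMeasure (muc c l d) := by
  have := nu_prob l d h0 h1
  exact Measure.isProbabilityMeasure_map (muc_meas c).aemeasurable

theorem kac_smul (n : ℕ) (c : ℝ) (ω : ℕ → ℝ) :
    kac n (fun k => c * ω k) = Polynomial.C c * kac n ω := by
  unfold kac
  rw [Finset.mul_sum]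
  refine Finset.sum_congr rfl fun k _ => ?_
  rw [Polynomial.C_mul, mul_assoc]

theorem nz_smul (n : ℕ) (c : ℝ) (hc : c ≠ 0) (ω : ℕ → ℝ) (S : Set ℝ) :
    nz (kac n (fun k => c * ω k)) S = nz (kac n ω) S := by
  rw [kac_smul]
  unfold nz
  congr 1
  ext x
  simp [hc]

/-- **Kac-Rice for the mixture**. -/
theorem mixture_kac_rice (c l d : ℝ) (hc : c ≠ 0) (h0 : 0 ≤ l) (h1 : l ≤ 1) (hd : 0 < d)
    (n : ℕ) (hn : 1 ≤ n) (a b : ℝ) (hab : a < b) (hz : (0 : ℝ) ∉ Ioo a b) :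
    ∫⁻ ω, (nz (kac n ω) (Ioo a b) : ℝ≥0∞) ∂(PP (muc c l d))
      = ∫⁻ σ, (∫⁻ x in Ioo a b, ENNReal.ofReal ((1 / Real.pi) * rho σ n x)) ∂(PP (nu l d)) := by
  have := nu_prob l d h0 h1
  unfold muc
  rw [← PP_map_prod (nu l d) γ0 (fun y x => c * (y * x)) (muc_meas c)]
  have hΦ : Measurable fun p : (ℕ → ℝ) × (ℕ → ℝ) => fun k => c * (p.1 k * p.2 k) := by
    rw [measurable_pi_iff]
    intro k
    exact (muc_meas c).comp (f := fun p : (ℕ → ℝ) × (ℕ → ℝ) => (p.1 k, p.2 k))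
      (((measurable_pi_apply k).comp measurable_fst).prodMk
      ((measurable_pi_apply k).comp measurable_snd))
  rw [lintegral_map (meas_nz n a b) hΦ]
  have h3 : Measurable fun p : (ℕ → ℝ) × (ℕ → ℝ) =>
      (nz (kac n (fun k => c * (p.1 k * p.2 k))) (Ioo a b) : ℝ≥0∞) := by
    have := (meas_nz n a b).comp hΦ
    simpa only [Function.comp_def] using this
  rw [lintegral_prod _ h3.aemeasurable]
  refine lintegral_congr_ae ?_
  filter_upwards [nu_ae l d h0 h1] with σ hσ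
  have hpos : ∀ k, 0 < σ k := by
    intro k
    rcases hσ k with h | h <;> rw [h]
    · exact hd
    · exact one_pos
  rw [← kac_rice σ hpos n hn a b hab hz]
  refine lintegral_congr fun g => ?_
  rw [nz_smul n c hc]

end Q213.KR
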