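import Pool.Agent.Q213.KR4

set_option autoImplicit false
open MeasureTheory ProbabilityTheory Filter Topology Set Kac764
open scoped ENNReal NNReal

namespace Q213.KR

theorem der_coef (σ : ℕ → ℝ) (x : ℝ) (hx : x ≠ 0) (k : ℕ) :
    σ k * (k * x ^ (k - 1)) = (σ k * x ^ k) * k / x := by
  rcases Nat.eq_zero_or_pos k with h | h
  · subst h; simp
  · have : x ^ k = x ^ (k - 1) * x := by
      rw [← pow_succ]
      congr 1
      omega
    rw [this]
    field_simp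

theorem sB_eq (σ : ℕ → ℝ) (n : ℕ) (x : ℝ) (hx : x ≠ 0) :
    sB σ n x = (∑ k ∈ Finset.range (n + 1), (σ k * x ^ k) ^ 2 * k) / x := by
  unfold sB
  rw [Finset.sum_div]
  refine Finset.sum_congr rfl fun k _ => ?_
  rw [der_coef σ x hx]
  ring

theorem sC_eq (σ : ℕ → ℝ) (n : ℕ) (x : ℝ) (hx : x ≠ 0) :
    sC σ n x = (∑ k ∈ Finset.range (n + 1), (σ k * x ^ k) ^ 2 * (k : ℝ) ^ 2) / x ^ 2 := by
  unfold sC
  rw [Finset.sum_div]
  refine Finset.sum_congr rfl fun k _ => ?_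
  rw [der_coef σ x hx]
  field_simp

theorem sA_pos (σ : ℕ → ℝ) (hσ : ∀ k, 0 < σ k) (n : ℕ) (x : ℝ) : 0 < sA σ n x := by
  unfold sA
  have h : 0 < (σ 0 * x ^ 0) ^ 2 := by
    have := hσ 0
    simp only [pow_zero, mul_one]
    positivity
  exact lt_of_lt_of_le h (Finset.single_le_sum (f := fun k => (σ k * x ^ k) ^ 2)
    (fun i _ => sq_nonneg _) (Finset.mem_range.2 (by omega)))

theorem disc_le (σ : ℕ → ℝ) (n : ℕ) (c x : ℝ) (hx : x ≠ 0) :
    sA σ n x * sC σ n x - sB σ n x ^ 2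
      ≤ sA σ n x * (∑ k ∈ Finset.range (n + 1), (σ k * x ^ k) ^ 2 * ((k : ℝ) - c) ^ 2) / x ^ 2 := by
  rw [sB_eq σ n x hx, sC_eq σ n x hx]
  set A := sA σ n x with hA
  set B := ∑ k ∈ Finset.range (n + 1), (σ k * x ^ k) ^ 2 * (k : ℝ) with hB
  set C := ∑ k ∈ Finset.range (n + 1), (σ k * x ^ k) ^ 2 * (k : ℝ) ^ 2 with hC
  have e : ∑ k ∈ Finset.range (n + 1), (σ k * x ^ k) ^ 2 * ((k : ℝ) - c) ^ 2
      = C - 2 * c * B + c ^ 2 * A := by
    rw [hA, hB, hC]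
    unfold sA
    rw [Finset.mul_sum, Finset.mul_sum, ← Finset.sum_sub_distrib, ← Finset.sum_add_distrib]
    refine Finset.sum_congr rfl fun k _ => ?_
    ring
  rw [e, div_pow, mul_div_assoc', ← sub_div]
  apply div_le_div_of_nonneg_right _ (sq_nonneg x)
  nlinarith [sq_nonneg (B - c * A)]

theorem rho_nonneg (σ : ℕ → ℝ) (n : ℕ) (x : ℝ) : 0 ≤ rho σ n x := by
  unfold rho
  apply div_nonneg (Real.sqrt_nonneg _)
  unfold sA
  exact Finset.sum_nonneg fun i _ => sq_nonneg _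

theorem rho_le (σ : ℕ → ℝ) (hσ : ∀ k, 0 < σ k) (n m : ℕ) (hm : m ≤ n) (c x : ℝ) (hx : 0 < x) :
    rho σ n x ≤ (∑ k ∈ Finset.range (n + 1), σ k * x ^ k * |(k : ℝ) - c|) / (x * (σ m * x ^ m)) := by
  have hA := sA_pos σ hσ n x
  have hu : ∀ k, 0 < σ k * x ^ k := fun k => mul_pos (hσ k) (pow_pos hx k)
  set S := ∑ k ∈ Finset.range (n + 1), σ k * x ^ k * |(k : ℝ) - c| with hS
  have hS0 : 0 ≤ S := Finset.sum_nonneg fun k _ => mul_nonneg (hu k).le (abs_nonneg _)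
  have h1 : ∑ k ∈ Finset.range (n + 1), (σ k * x ^ k) ^ 2 * ((k : ℝ) - c) ^ 2 ≤ S ^ 2 := by
    have h4 : ∀ k ∈ Finset.range (n + 1), (σ k * x ^ k) ^ 2 * ((k : ℝ) - c) ^ 2
        ≤ (σ k * x ^ k * |(k : ℝ) - c|) * S := by
      intro k hk
      have h5 : σ k * x ^ k * |(k : ℝ) - c| ≤ S := by
        rw [hS]
        exact Finset.single_le_sum (f := fun k : ℕ => σ k * x ^ k * |(k : ℝ) - c|)
          (fun i _ => mul_nonneg (hu i).le (abs_nonneg _)) hk
      have h6 : (σ k * x ^ k) ^ 2 * ((k : ℝ) - c) ^ 2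
          = (σ k * x ^ k * |(k : ℝ) - c|) * (σ k * x ^ k * |(k : ℝ) - c|) := by
        rw [← sq_abs ((k : ℝ) - c)]
        ring
      rw [h6]
      exact mul_le_mul_of_nonneg_left h5 (mul_nonneg (hu k).le (abs_nonneg _))
    refine (Finset.sum_le_sum h4).trans ?_
    rw [← Finset.sum_mul, ← hS, sq]
  have h2 : (σ m * x ^ m) ≤ Real.sqrt (sA σ n x) := by
    apply Real.le_sqrt_of_sq_le
    unfold sA
    exact Finset.single_le_sum (f := fun k => (σ k * x ^ k) ^ 2)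
      (fun i _ => sq_nonneg _) (Finset.mem_range.2 (by omega))
  have h3 : Real.sqrt (sA σ n x * sC σ n x - sB σ n x ^ 2) ≤ Real.sqrt (sA σ n x) * S / x := by
    have : Real.sqrt (sA σ n x) * S / x = Real.sqrt (sA σ n x * S ^ 2 / x ^ 2) := by
      rw [Real.sqrt_div' _ (sq_nonneg x), Real.sqrt_sq hx.le, Real.sqrt_mul hA.le, Real.sqrt_sq hS0]
    rw [this]
    apply Real.sqrt_le_sqrt
    refine (disc_le σ n c x hx.ne').trans ?_
    gcongr
  unfold rho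
  have hsq : 0 < Real.sqrt (sA σ n x) := Real.sqrt_pos.2 hA
  calc Real.sqrt (sA σ n x * sC σ n x - sB σ n x ^ 2) / sA σ n x
      ≤ (Real.sqrt (sA σ n x) * S / x) / sA σ n x := by gcongr
    _ = S / (x * Real.sqrt (sA σ n x)) := by
        nth_rewrite 2 [← Real.mul_self_sqrt hA.le]
        field_simp
    _ ≤ S / (x * (σ m * x ^ m)) := by
        have := hu m
        gcongr

end Q213.KR
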