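import Pool.Agent.Q213.KR5

set_option autoImplicit false
open MeasureTheory ProbabilityTheory Filter Topology Set Kac764
open scoped ENNReal NNReal

namespace Q213.KR

theorem lint_ftc (F f g : ℝ → ℝ) (a b : ℝ) (hab : a ≤ b)
    (hd : ∀ x ∈ Icc a b, HasDerivAt F (f x) x) (hc : ContinuousOn f (Icc a b))
    (h0 : ∀ x ∈ Ioc a b, 0 ≤ f x) (hg : ∀ x ∈ Ioc a b, g x ≤ f x) :
    ∫⁻ x in Ioc a b, ENNReal.ofReal (g x) ≤ ENNReal.ofReal (F b - F a) := by
  have h1 : ∫ x in a..b, f x = F b - F a := by
    refine intervalIntegral.integral_eq_sub_of_hasDerivAt ?_ ?_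
    · intro x hx
      rw [uIcc_of_le hab] at hx
      exact hd x hx
    · exact ContinuousOn.intervalIntegrable (by rwa [uIcc_of_le hab])
  have hi : IntegrableOn f (Ioc a b) :=
    (hc.integrableOn_compact isCompact_Icc).mono_set Ioc_subset_Icc_self
  rw [← h1, intervalIntegral.integral_of_le hab, ofReal_integral_eq_lintegral_ofReal hi]
  · exact setLIntegral_mono' measurableSet_Ioc fun x hx => ENNReal.ofReal_le_ofReal (hg x hx)
  · exact (ae_restrict_iff' measurableSet_Ioc).2 (Eventually.of_forall h0)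

theorem head1 (σ : ℕ → ℝ) (hσ : ∀ k, 0 < σ k) (n : ℕ) (t : ℝ) (ht : 0 ≤ t) :
    ∫⁻ x in Ioc 0 t, ENNReal.ofReal (rho σ n x)
      ≤ ENNReal.ofReal ((∑ k ∈ Finset.range (n + 1), if 0 < k then σ k * t ^ k else 0) / σ 0) := by
  have h0 := hσ 0
  have h := lint_ftc (fun x => (∑ k ∈ Finset.range (n + 1), σ k * x ^ k) / σ 0)
    (fun x => (∑ k ∈ Finset.range (n + 1), σ k * (k * x ^ (k - 1))) / σ 0)
    (fun x => rho σ n x) 0 t ht ?_ ?_ ?_ ?_
  · refine h.trans (le_of_eq ?_)
    congr 1
    simp only [← sub_div]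
    congr 1
    rw [← Finset.sum_sub_distrib]
    refine Finset.sum_congr rfl fun k _ => ?_
    by_cases hk : 0 < k
    · rw [if_pos hk, zero_pow (by omega)]
      ring
    · have : k = 0 := by omega
      subst this
      simp
  · intro x _
    apply HasDerivAt.div_const
    apply HasDerivAt.fun_sum
    intro k _
    exact (hasDerivAt_pow k x).const_mul _
  · apply Continuous.continuousOn
    fun_prop
  · intro x hx
    apply div_nonneg _ h0.le
    refine Finset.sum_nonneg fun k _ => ?_
    have := hx.1.le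
    have := (hσ k).le
    positivity
  · intro x hx
    refine (rho_le σ hσ n 0 (Nat.zero_le n) 0 x hx.1).trans (le_of_eq ?_)
    rw [pow_zero, mul_one, ← div_div]
    congr 1
    rw [Finset.sum_div]
    refine Finset.sum_congr rfl fun k _ => ?_
    rw [sub_zero, abs_of_nonneg (Nat.cast_nonneg k), der_coef σ x hx.1.ne']

theorem head2 (σ : ℕ → ℝ) (hσ : ∀ k, 0 < σ k) (n m : ℕ) (hm : m ≤ n) (hσm : σ m = 1) (t r : ℝ)
    (ht : 0 < t) (htr : t ≤ r) :
    ∫⁻ x in Ioc t r, ENNReal.ofReal (rho σ n x)
      ≤ ENNReal.ofReal ((∑ k ∈ Finset.range (n + 1), if m < k then σ k * r ^ (k - m) else 0)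
        + (∑ k ∈ Finset.range (n + 1), if k < m then σ k * t ^ k else 0) / t ^ m) := by
  have hr : 0 < r := ht.trans_le htr
  set s : ℕ → ℝ := fun k => if k < m then -1 else 1 with hs
  have hsk : ∀ k : ℕ, s k * ((k : ℝ) - m) = |(k : ℝ) - m| := by
    intro k
    simp only [hs]
    by_cases hk : k < m
    · have : (k : ℝ) < m := by exact_mod_cast hk
      rw [if_pos hk, abs_of_neg (by linarith)]
      ring
    · have : (m : ℝ) ≤ k := by exact_mod_cast (not_lt.1 hk)
      rw [if_neg hk, abs_of_nonneg (by linarith)]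
      ring
  have h := lint_ftc (fun x => ∑ k ∈ Finset.range (n + 1), s k * σ k * (x ^ k / x ^ m))
    (fun x => (∑ k ∈ Finset.range (n + 1), σ k * x ^ k * |(k : ℝ) - m|) / (x * (σ m * x ^ m)))
    (fun x => rho σ n x) t r htr ?_ ?_ ?_ ?_
  · refine h.trans (ENNReal.ofReal_le_ofReal ?_)
    rw [← Finset.sum_sub_distrib, Finset.sum_div, ← Finset.sum_add_distrib]
    refine Finset.sum_le_sum fun k _ => ?_
    have hk0 := (hσ k).le
    by_cases hk : k < m
    · rw [if_pos hk, if_neg (by omega)]
      simp only [hs, if_pos hk]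
      have : 0 ≤ σ k * (r ^ k / r ^ m) := by positivity
      have e : σ k * t ^ k / t ^ m = σ k * (t ^ k / t ^ m) := by ring
      rw [e]
      linarith
    · rw [if_neg hk]
      simp only [hs, if_neg hk]
      rcases eq_or_lt_of_le (not_lt.1 hk) with h1 | h1
      · subst h1
        rw [if_neg (lt_irrefl _), div_self (pow_pos hr m).ne', div_self (pow_pos ht m).ne']
        simp
      · rw [if_pos h1]
        have h2 : r ^ k / r ^ m = r ^ (k - m) := by
          rw [pow_sub₀ r hr.ne' h1.le, div_eq_mul_inv]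
        rw [h2]
        have : 0 ≤ σ k * (t ^ k / t ^ m) := by positivity
        simp only [zero_div, add_zero, one_mul]
        linarith
  · intro x hx
    have hx0 : 0 < x := ht.trans_le hx.1
    have e : (∑ k ∈ Finset.range (n + 1), σ k * x ^ k * |(k : ℝ) - m|) / (x * (σ m * x ^ m))
        = ∑ k ∈ Finset.range (n + 1), s k * σ k *
          ((k * x ^ (k - 1) * x ^ m - x ^ k * (m * x ^ (m - 1))) / (x ^ m) ^ 2) := by
      rw [Finset.sum_div, hσm]
      refine Finset.sum_congr rfl fun k _ => ?_
      have h1 := der_coef (fun _ => 1) x hx0.ne' k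
      have h2 := der_coef (fun _ => 1) x hx0.ne' m
      simp only [one_mul] at h1 h2
      rw [h1, h2, ← hsk k]
      field_simp
    rw [e]
    apply HasDerivAt.fun_sum
    intro k _
    exact ((hasDerivAt_pow k x).div (hasDerivAt_pow m x) (pow_pos hx0 m).ne').const_mul _
  · intro x hx
    have hx0 : 0 < x := ht.trans_le hx.1
    apply ContinuousWithinAt.div
    · exact (by fun_prop : Continuous fun x : ℝ =>
        ∑ k ∈ Finset.range (n + 1), σ k * x ^ k * |(k : ℝ) - m|).continuousWithinAt
    · exact (by fun_prop : Continuous fun x : ℝ => x * (σ m * x ^ m)).continuousWithinAt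
    · rw [hσm]
      positivity
  · intro x hx
    have hx0 : 0 < x := ht.trans hx.1
    apply div_nonneg
    · refine Finset.sum_nonneg fun k _ => ?_
      have := (hσ k).le
      positivity
    · rw [hσm]
      positivity
  · intro x hx
    exact rho_le σ hσ n m hm m x (ht.trans hx.1)

/-- tail sum after the first big index -/
noncomputable def tl (σ : ℕ → ℝ) (n m : ℕ) (r : ℝ) : ℝ :=
  ∑ k ∈ Finset.range (n + 1), if m < k then σ k * r ^ (k - m) else 0

theorem geo_sum_le (t : ℝ) (h0 : 0 ≤ t) (h1 : t < 1) (n : ℕ) :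
    ∑ k ∈ Finset.range n, t ^ k ≤ 1 / (1 - t) := by
  rw [le_div_iff₀ (by linarith), geom_sum_mul_neg]
  have : 0 ≤ t ^ n := by positivity
  linarith

theorem geo_le (m : ℕ) (N : ℝ) (hN : 0 < N) (hm : 0 < m) (t : ℝ) (ht0 : 0 ≤ t)
    (ht : t ≤ Real.exp (-(N / m))) (n : ℕ) :
    (∑ k ∈ Finset.range (n + 1), if k < m then t ^ k else 0) ≤ 1 + m / N := by
  have hm' : (0 : ℝ) < m := by exact_mod_cast hm
  set u : ℝ := N / m with hu
  have hu0 : 0 < u := by positivity
  have h1 : t ≤ 1 / (1 + u) := by
    refine ht.trans ?_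
    rw [Real.exp_neg, ← one_div]
    apply one_div_le_one_div_of_le (by positivity)
    have := Real.add_one_le_exp u
    linarith
  have h2 : t < 1 := h1.trans_lt (by rw [div_lt_one (by positivity)]; linarith)
  have h3 : (∑ k ∈ Finset.range (n + 1), if k < m then t ^ k else 0)
      ≤ ∑ k ∈ Finset.range (n + 1), t ^ k := by
    refine Finset.sum_le_sum fun k _ => ?_
    split_ifs
    · exact le_rfl
    · positivity
  have h4 : ∑ k ∈ Finset.range (n + 1), t ^ k ≤ 1 / (1 - t) := geo_sum_le t ht0 h2 (n + 1)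
  have h5 : 1 / (1 - t) ≤ 1 + 1 / u := by
    have h6 : 1 - t ≥ u / (1 + u) := by
      have : (1 : ℝ) - 1 / (1 + u) = u / (1 + u) := by field_simp; ring
      linarith
    calc 1 / (1 - t) ≤ 1 / (u / (1 + u)) := one_div_le_one_div_of_le (by positivity) h6
      _ = 1 + 1 / u := by field_simp; ring
  calc _ ≤ 1 + 1 / u := h3.trans (h4.trans h5)
    _ = 1 + m / N := by rw [hu]; field_simp

/-- head bound when the first big index is `m ≤ n` -/
theorem head_big (σ : ℕ → ℝ) (hσ : ∀ k, 0 < σ k) (N : ℝ) (hN : 0 < N) (n m : ℕ) (hm : m ≤ n)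
    (h1 : ∀ k < m, σ k = Real.exp (-N)) (h2 : σ m = 1) (r : ℝ) (hr : 0 < r) :
    ∫⁻ x in Ioc 0 r, ENNReal.ofReal (rho σ n x)
      ≤ ENNReal.ofReal (3 + 2 * (m / N) + 2 * tl σ n m r) := by
  have htl : 0 ≤ tl σ n m r := by
    unfold tl
    refine Finset.sum_nonneg fun k _ => ?_
    have := (hσ k).le
    split_ifs
    · positivity
    · exact le_rfl
  rcases Nat.eq_zero_or_pos m with hm0 | hm0
  · subst hm0
    refine (head1 σ hσ n r hr.le).trans (ENNReal.ofReal_le_ofReal ?_)
    rw [h2, div_one]
    have e : (∑ k ∈ Finset.range (n + 1), if 0 < k then σ k * r ^ k else 0) = tl σ n 0 r := by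
      unfold tl
      refine Finset.sum_congr rfl fun k _ => ?_
      rw [Nat.sub_zero]
    rw [e]
    simp only [Nat.cast_zero, zero_div, mul_zero, add_zero]
    linarith
  · have hm' : (0 : ℝ) < m := by exact_mod_cast hm0
    set d : ℝ := Real.exp (-N) with hd
    have hd0 : 0 < d := Real.exp_pos _
    set xs : ℝ := Real.exp (-(N / m)) with hxs
    have hxs0 : 0 < xs := Real.exp_pos _
    have hxsm : xs ^ m = d := by
      rw [hxs, hd, ← Real.exp_nat_mul]
      congr 1
      field_simp
    set t : ℝ := min xs r with ht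
    have ht0 : 0 < t := lt_min hxs0 hr
    have htx : t ≤ xs := min_le_left _ _
    have htr : t ≤ r := min_le_right _ _
    have htm : t ^ m ≤ d := by
      rw [← hxsm]
      exact pow_le_pow_left₀ ht0.le htx m
    set g : ℝ := ∑ k ∈ Finset.range (n + 1), if k < m then t ^ k else 0 with hg
    have hgle : g ≤ 1 + m / N := geo_le m N hN hm0 t ht0.le htx n
    have hg0 : 0 ≤ g := by
      rw [hg]
      refine Finset.sum_nonneg fun k _ => ?_
      split_ifs
      · positivity
      · exact le_rfl
    -- first part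
    have p1 : (∑ k ∈ Finset.range (n + 1), if 0 < k then σ k * t ^ k else 0) / σ 0
        ≤ g + 1 + tl σ n m r := by
      have e1 : (1 : ℝ) = ∑ k ∈ Finset.range (n + 1), if k = m then (1 : ℝ) else 0 := by
        rw [Finset.sum_ite_eq' (Finset.range (n + 1)) m, if_pos (Finset.mem_range.2 (by omega))]
      have e2 : g + 1 + tl σ n m r = ∑ k ∈ Finset.range (n + 1), ((if k < m then t ^ k else 0)
          + (if k = m then (1 : ℝ) else 0) + (if m < k then σ k * r ^ (k - m) else 0)) := by
        rw [Finset.sum_add_distrib, Finset.sum_add_distrib, ← e1, hg]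
        rfl
      rw [h1 0 hm0, e2, Finset.sum_div]
      refine Finset.sum_le_sum fun k _ => ?_
      rcases lt_trichotomy k m with hk | hk | hk
      · have a1 : ¬ k = m := by omega
        have a2 : ¬ m < k := by omega
        simp only [hk, a1, a2, if_true, if_false, add_zero]
        split_ifs
        · rw [h1 k hk]
          field_simp
          simp
        · simp only [zero_div]
          positivity
      · subst hk
        rw [if_pos hm0, if_neg (lt_irrefl _), if_pos rfl, h2]
        simp only [one_mul, zero_add]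
        rw [if_neg (lt_irrefl _), add_zero, div_le_one hd0]
        exact htm
      · rw [if_pos (by omega), if_neg (by omega), if_neg (by omega), if_pos hk]
        simp only [zero_add]
        have hk0 := (hσ k).le
        have e2 : t ^ k = t ^ (k - m) * t ^ m := by
          rw [← pow_add]
          congr 1
          omega
        rw [e2]
        calc σ k * (t ^ (k - m) * t ^ m) / d = σ k * t ^ (k - m) * (t ^ m / d) := by ring
          _ ≤ σ k * t ^ (k - m) * 1 := by
              apply mul_le_mul_of_nonneg_left _ (by positivity)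
              rw [div_le_one hd0]
              exact htm
          _ ≤ σ k * r ^ (k - m) := by
              rw [mul_one]
              gcongr
    have q1 := (head1 σ hσ n t ht0.le).trans (ENNReal.ofReal_le_ofReal p1)
    have hsplit : ∫⁻ x in Ioc 0 r, ENNReal.ofReal (rho σ n x)
        ≤ (∫⁻ x in Ioc 0 t, ENNReal.ofReal (rho σ n x)) + ∫⁻ x in Ioc t r, ENNReal.ofReal (rho σ n x) := by
      rw [← Ioc_union_Ioc_eq_Ioc ht0.le htr]
      exact lintegral_union_le _ _ _
    have q2 : ∫⁻ x in Ioc t r, ENNReal.ofReal (rho σ n x)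
        ≤ ENNReal.ofReal (tl σ n m r + g) := by
      rcases le_or_gt xs r with hxr | hxr
      · have htxs : t = xs := min_eq_left hxr
        refine (head2 σ hσ n m hm h2 t r ht0 htr).trans (ENNReal.ofReal_le_ofReal ?_)
        unfold tl
        gcongr
        rw [hg, Finset.sum_div]
        refine Finset.sum_le_sum fun k _ => ?_
        have htm2 : t ^ m = d := by rw [htxs, hxsm]
        split_ifs with hk
        · rw [h1 k hk, htm2]
          field_simp
          simp
        · simp
      · have : t = r := min_eq_right hxr.le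
        rw [this]
        simp
    refine hsplit.trans ((add_le_add q1 q2).trans ?_)
    rw [← ENNReal.ofReal_add (by positivity) (by positivity)]
    apply ENNReal.ofReal_le_ofReal
    have : 1 + m / N + (1 + m / N) = 2 + 2 * (m / N) := by ring
    linarith

/-- head bound when there is no big index `≤ n` -/
theorem head_none (σ : ℕ → ℝ) (hσ : ∀ k, 0 < σ k) (d : ℝ) (hd : 0 < d) (n : ℕ)
    (h1 : ∀ k ≤ n, σ k = d) (r : ℝ) (hr : 0 < r) (hr1 : r < 1) :
    ∫⁻ x in Ioc 0 r, ENNReal.ofReal (rho σ n x) ≤ ENNReal.ofReal (1 / (1 - r)) := by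
  refine (head1 σ hσ n r hr.le).trans (ENNReal.ofReal_le_ofReal ?_)
  rw [h1 0 (Nat.zero_le n), Finset.sum_div]
  have h4 : ∑ k ∈ Finset.range (n + 1), r ^ k ≤ 1 / (1 - r) := geo_sum_le r hr.le hr1 (n + 1)
  refine le_trans (Finset.sum_le_sum fun k hk => ?_) h4
  split_ifs
  · rw [h1 k (by have := Finset.mem_range.1 hk; omega)]
    field_simp
    simp
  · simp only [zero_div]
    positivity

end Q213.KR
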