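import Pool.Agent.Q213.KR6

set_option autoImplicit false
open MeasureTheory ProbabilityTheory Filter Topology Set Kac764
open scoped ENNReal NNReal

namespace Q213.KR

noncomputable def bg (y : ℝ) : ℝ≥0∞ := if y = 1 then 1 else 0
noncomputable def sm (y : ℝ) : ℝ≥0∞ := if y = 1 then 0 else 1

theorem bg_meas : Measurable bg :=
  Measurable.ite (measurableSet_eq) measurable_const measurable_const
theorem sm_meas : Measurable sm :=
  Measurable.ite (measurableSet_eq) measurable_const measurable_const

/-- indicator that the first big index is `m` -/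
noncomputable def ef (σ : ℕ → ℝ) (m : ℕ) : ℝ≥0∞ :=
  ∏ i ∈ Finset.range (m + 1), if i < m then sm (σ i) else bg (σ i)

/-- indicator that there is no big index `≤ n` -/
noncomputable def e0 (σ : ℕ → ℝ) (n : ℕ) : ℝ≥0∞ := ∏ i ∈ Finset.range (n + 1), sm (σ i)

theorem ef_meas (m : ℕ) : Measurable fun σ : ℕ → ℝ => ef σ m := by
  unfold ef
  refine Finset.measurable_prod _ fun i _ => ?_
  split_ifs
  · exact sm_meas.comp (measurable_pi_apply i)
  · exact bg_meas.comp (measurable_pi_apply i)

theorem e0_meas (n : ℕ) : Measurable fun σ : ℕ → ℝ => e0 σ n := by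
  unfold e0
  exact Finset.measurable_prod _ fun i _ => sm_meas.comp (measurable_pi_apply i)

theorem dich (σ : ℕ → ℝ) (d : ℝ) (hd : d < 1) (hσ : ∀ k, σ k = d ∨ σ k = 1) (n : ℕ) :
    (∃ m ≤ n, (∀ k < m, σ k = d) ∧ σ m = 1 ∧ ef σ m = 1) ∨ ((∀ k ≤ n, σ k = d) ∧ e0 σ n = 1) := by
  classical
  by_cases h : ∃ m, m ≤ n ∧ σ m = 1
  · left
    have h1 := Nat.find_spec h
    set m := Nat.find h with hm
    have h2 : ∀ k < m, σ k = d := by
      intro k hk
      have h3 := Nat.find_min h hk
      rcases hσ k with h4 | h4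
      · exact h4
      · exact absurd ⟨by omega, h4⟩ h3
    refine ⟨m, h1.1, h2, h1.2, ?_⟩
    unfold ef
    refine Finset.prod_eq_one fun i hi => ?_
    have hi' := Finset.mem_range.1 hi
    split_ifs with h5
    · rw [h2 i h5, sm, if_neg hd.ne]
    · have : i = m := by omega
      rw [this, h1.2, bg, if_pos rfl]
  · right
    push Not at h
    have h2 : ∀ k ≤ n, σ k = d := fun k hk => (hσ k).resolve_right (h k hk)
    refine ⟨h2, ?_⟩
    unfold e0
    refine Finset.prod_eq_one fun i hi => ?_
    have hi' := Finset.mem_range.1 hi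
    rw [h2 i (by omega), sm, if_neg hd.ne]

section
variable (l d : ℝ) (h0 : 0 < l) (h1 : l < 1) (hd0 : 0 < d) (hd1 : d < 1)
include h0 h1 hd0 hd1

theorem lint_sm : ∫⁻ y, sm y ∂(nu l d) = ENNReal.ofReal (1 - l) := by
  rw [nu_lint l d sm sm_meas]
  simp [sm, hd1.ne]

theorem lint_bg : ∫⁻ y, bg y ∂(nu l d) = ENNReal.ofReal l := by
  rw [nu_lint l d bg bg_meas]
  simp [bg, hd1.ne]

theorem lint_id : ∫⁻ y, ENNReal.ofReal y ∂(nu l d) = ENNReal.ofReal ((1 - l) * d + l) := by
  rw [nu_lint l d _ (by fun_prop), ENNReal.ofReal_add (by have := mul_pos (sub_pos.2 h1) hd0; exact this.le) h0.le,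
    ENNReal.ofReal_mul (by linarith)]
  simp

theorem lint_e0 (n : ℕ) : ∫⁻ σ, e0 σ n ∂(PP (nu l d)) = ENNReal.ofReal ((1 - l) ^ (n + 1)) := by
  have := nu_prob l d h0.le h1.le
  unfold e0
  rw [lint_prod_coord (nu l d) (Finset.range (n + 1)) (fun _ => sm) (fun _ => sm_meas)]
  simp only [lint_sm l d h0 h1 hd0 hd1, Finset.prod_const, Finset.card_range]
  rw [ENNReal.ofReal_pow (by linarith)]

theorem lint_ef (m : ℕ) : ∫⁻ σ, ef σ m ∂(PP (nu l d)) = ENNReal.ofReal ((1 - l) ^ m * l) := by
  have := nu_prob l d h0.le h1.le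
  unfold ef
  have h := lint_prod_coord (nu l d) (Finset.range (m + 1))
    (fun i y => if i < m then sm y else bg y) (fun i => by
      split_ifs
      · exact sm_meas
      · exact bg_meas)
  rw [h, Finset.prod_range_succ]
  have e1 : ∀ i ∈ Finset.range m, ∫⁻ y, (if i < m then sm y else bg y) ∂(nu l d)
      = ENNReal.ofReal (1 - l) := by
    intro i hi
    simp only [Finset.mem_range.1 hi, if_true]
    exact lint_sm l d h0 h1 hd0 hd1
  rw [Finset.prod_congr rfl e1]
  simp only [lt_irrefl, if_false, Finset.prod_const, Finset.card_range]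
  rw [lint_bg l d h0 h1 hd0 hd1, ENNReal.ofReal_mul (by have : 0 < 1 - l := by linarith
                                                        positivity),
    ENNReal.ofReal_pow (by linarith)]

theorem lint_ef_coord (m k : ℕ) (hk : m < k) :
    ∫⁻ σ, ef σ m * ENNReal.ofReal (σ k) ∂(PP (nu l d))
      = ENNReal.ofReal ((1 - l) ^ m * l) * ENNReal.ofReal ((1 - l) * d + l) := by
  have := nu_prob l d h0.le h1.le
  have h := lint_prod_coord (nu l d) (insert k (Finset.range (m + 1)))
    (fun i y => if i ≤ m then (if i < m then sm y else bg y) else ENNReal.ofReal y) (fun i => by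
      split_ifs
      · exact sm_meas
      · exact bg_meas
      · fun_prop)
  have hkn : k ∉ Finset.range (m + 1) := by
    rw [Finset.mem_range]
    omega
  rw [Finset.prod_insert hkn] at h
  simp only [Finset.prod_insert hkn, if_neg (not_le.2 hk)] at h
  have e1 : ∀ σ : ℕ → ℝ, ENNReal.ofReal (σ k) * ∏ i ∈ Finset.range (m + 1),
      (if i ≤ m then (if i < m then sm (σ i) else bg (σ i)) else ENNReal.ofReal (σ i))
      = ef σ m * ENNReal.ofReal (σ k) := by
    intro σ
    rw [mul_comm]
    congr 1
    unfold ef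
    refine Finset.prod_congr rfl fun i hi => ?_
    rw [if_pos (by have := Finset.mem_range.1 hi; omega)]
  simp only [e1] at h
  rw [h, mul_comm, lint_id l d h0 h1 hd0 hd1]
  congr 1
  rw [← lint_ef l d h0 h1 hd0 hd1 m]
  unfold ef
  rw [lint_prod_coord (nu l d) (Finset.range (m + 1))
    (fun i y => if i < m then sm y else bg y) (fun i => by
      split_ifs
      · exact sm_meas
      · exact bg_meas)]
  refine Finset.prod_congr rfl fun i hi => ?_
  have hi' : i ≤ m := by have := Finset.mem_range.1 hi; omega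
  simp only [hi', if_true]

end

end Q213.KR
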