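import Pool.Agent.Q213.KR7

set_option autoImplicit false
open MeasureTheory ProbabilityTheory Filter Topology Set Kac764
open scoped ENNReal NNReal

namespace Q213.KR

theorem head_pointwise (σ : ℕ → ℝ) (N : ℝ) (hN : 0 < N)
    (hσ : ∀ k, σ k = Real.exp (-N) ∨ σ k = 1) (n : ℕ) (r : ℝ) (hr : 0 < r) (hr1 : r < 1) :
    ∫⁻ x in Ioc 0 r, ENNReal.ofReal (rho σ n x)
      ≤ (∑ m ∈ Finset.range (n + 1), (ef σ m * ENNReal.ofReal (3 + 2 * (m / N))
          + ∑ k ∈ Finset.range (n + 1), if m < k then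
              (ef σ m * ENNReal.ofReal (σ k)) * ENNReal.ofReal (2 * r ^ (k - m)) else 0))
        + e0 σ n * ENNReal.ofReal (1 / (1 - r)) := by
  have hd : Real.exp (-N) < 1 := by
    rw [Real.exp_lt_one_iff]
    linarith
  have hpos : ∀ k, 0 < σ k := by
    intro k
    rcases hσ k with h | h <;> rw [h]
    · exact Real.exp_pos _
    · exact one_pos
  rcases dich σ _ hd hσ n with ⟨m, hm, h1, h2, h3⟩ | ⟨h1, h2⟩
  · refine le_trans ?_ (le_add_right le_rfl)
    refine le_trans ?_ (Finset.single_le_sum (fun i _ => bot_le)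
      (Finset.mem_range.2 (show m < n + 1 by omega)))
    rw [h3]
    refine (head_big σ hpos N hN n m hm h1 h2 r hr).trans (le_of_eq ?_)
    have hm0 : (0 : ℝ) ≤ m := Nat.cast_nonneg m
    rw [ENNReal.ofReal_add (by positivity) (by
      unfold tl
      apply mul_nonneg (by norm_num)
      refine Finset.sum_nonneg fun k _ => ?_
      have := (hpos k).le
      split_ifs
      · positivity
      · exact le_rfl), one_mul]
    congr 1
    unfold tl
    rw [Finset.mul_sum, ENNReal.ofReal_sum_of_nonneg]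
    · refine Finset.sum_congr rfl fun k _ => ?_
      split_ifs
      · rw [one_mul, ← ENNReal.ofReal_mul (hpos k).le]
        congr 1
        ring
      · simp
    · intro k _
      have := (hpos k).le
      split_ifs
      · positivity
      · simp
  · refine le_trans ?_ (le_add_left le_rfl)
    rw [h2, one_mul]
    exact head_none σ hpos _ (Real.exp_pos _) n h1 r hr hr1

theorem sum_geo_mul (p : ℝ) (h0 : 0 ≤ p) (h1 : p < 1) (n : ℕ) :
    ∑ m ∈ Finset.range n, (m : ℝ) * p ^ m ≤ p / (1 - p) ^ 2 := by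
  have h := hasSum_coe_mul_geometric_of_norm_lt_one (𝕜 := ℝ) (r := p)
    (by rw [Real.norm_eq_abs, abs_of_nonneg h0]; exact h1)
  exact sum_le_hasSum _ (fun i _ => by positivity) h

theorem sum_shift_geo (r : ℝ) (hr : 0 ≤ r) (hr1 : r < 1) (m n : ℕ) :
    (∑ k ∈ Finset.range (n + 1), if m < k then r ^ (k - m) else 0) ≤ 1 / (1 - r) := by
  rw [← Finset.sum_filter]
  have hinj : Set.InjOn (fun k => k - m) ((Finset.range (n + 1)).filter (fun k => m < k) : Set ℕ) := by
    intro a ha b hb hab
    have ha' := (Finset.mem_filter.1 (Finset.mem_coe.1 ha)).2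
    have hb' := (Finset.mem_filter.1 (Finset.mem_coe.1 hb)).2
    simp only at hab
    omega
  rw [← Finset.sum_image (f := fun j => r ^ j) hinj]
  refine le_trans (Finset.sum_le_sum_of_subset_of_nonneg ?_ ?_) (geo_sum_le r hr hr1 (n + 1))
  · intro j hj
    obtain ⟨k, hk, rfl⟩ := Finset.mem_image.1 hj
    have := Finset.mem_range.1 (Finset.mem_filter.1 hk).1
    rw [Finset.mem_range]
    omega
  · intro i _ _
    positivity

/-- expected head bound -/
theorem exp_head (l : ℝ) (h0 : 0 < l) (h1 : l < 1) (n : ℕ) (r : ℝ) (hr : 0 < r) (hr1 : r < 1) :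
    ∫⁻ σ, (∫⁻ x in Ioc 0 r, ENNReal.ofReal (rho σ n x)) ∂(PP (nu l (Real.exp (-(1 / l)))))
      ≤ ENNReal.ofReal (5 + 4 * l / (1 - r) + (1 - l) ^ (n + 1) / (1 - r)) := by
  set N : ℝ := 1 / l with hN
  have hN0 : 0 < N := by positivity
  set d : ℝ := Real.exp (-N) with hd
  have hd0 : 0 < d := Real.exp_pos _
  have hd1 : d < 1 := by
    rw [hd, Real.exp_lt_one_iff]
    linarith
  have hdl : d ≤ l := by
    rw [hd, Real.exp_neg, inv_le_comm₀ (Real.exp_pos _) h0, ← one_div, ← hN]
    have := Real.add_one_le_exp N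
    linarith
  have h1l : 0 < 1 - l := by linarith
  have h1r : 0 < 1 - r := by linarith
  set E : ℝ := (1 - l) * d + l with hE
  have hE0 : 0 < E := by positivity
  have hE1 : E ≤ 2 * l := by
    have : (1 - l) * d ≤ 1 * l := mul_le_mul (by linarith) hdl hd0.le (by norm_num)
    linarith
  have hprob := nu_prob l d h0.le h1.le
  have hpt : ∀ᵐ σ ∂(PP (nu l d)), ∫⁻ x in Ioc 0 r, ENNReal.ofReal (rho σ n x)
      ≤ (∑ m ∈ Finset.range (n + 1), (ef σ m * ENNReal.ofReal (3 + 2 * (m / N))
          + ∑ k ∈ Finset.range (n + 1), if m < k then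
              (ef σ m * ENNReal.ofReal (σ k)) * ENNReal.ofReal (2 * r ^ (k - m)) else 0))
        + e0 σ n * ENNReal.ofReal (1 / (1 - r)) := by
    filter_upwards [nu_ae l d h0.le h1.le] with σ hσ
    exact head_pointwise σ N hN0 hσ n r hr hr1
  refine (lintegral_mono_ae hpt).trans ?_
  have mk : ∀ m k : ℕ, Measurable fun σ : ℕ → ℝ => (if m < k then
      (ef σ m * ENNReal.ofReal (σ k)) * ENNReal.ofReal (2 * r ^ (k - m)) else 0) := by
    intro m k
    split_ifs
    · exact ((ef_meas m).mul (ENNReal.measurable_ofReal.comp (measurable_pi_apply k))).mul_const _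
    · exact measurable_const
  have mA : ∀ m : ℕ, Measurable fun σ : ℕ → ℝ => ef σ m * ENNReal.ofReal (3 + 2 * (m / N)) :=
    fun m => (ef_meas m).mul_const _
  have mB : ∀ m : ℕ, Measurable fun σ : ℕ → ℝ => (ef σ m * ENNReal.ofReal (3 + 2 * (m / N))
          + ∑ k ∈ Finset.range (n + 1), if m < k then
              (ef σ m * ENNReal.ofReal (σ k)) * ENNReal.ofReal (2 * r ^ (k - m)) else 0) := by
    intro m
    exact (mA m).add (Finset.measurable_sum _ fun k _ => mk m k)
  have mC : ∀ m k : ℕ, Measurable fun σ : ℕ → ℝ => ef σ m * ENNReal.ofReal (σ k) := by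
    intro m k
    exact (ef_meas m).mul (ENNReal.measurable_ofReal.comp (measurable_pi_apply k))
  rw [lintegral_add_right _ ((e0_meas n).mul_const _), lintegral_mul_const _ (e0_meas n),
    lint_e0 l d h0 h1 hd0 hd1, lintegral_finsetSum _ fun m _ => mB m]
  have hm : ∀ m ∈ Finset.range (n + 1), ∫⁻ σ, (ef σ m * ENNReal.ofReal (3 + 2 * (m / N))
          + ∑ k ∈ Finset.range (n + 1), if m < k then
              (ef σ m * ENNReal.ofReal (σ k)) * ENNReal.ofReal (2 * r ^ (k - m)) else 0) ∂(PP (nu l d))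
      ≤ ENNReal.ofReal ((1 - l) ^ m * l * (3 + 2 * (m / N) + E * (2 * (1 / (1 - r))))) := by
    intro m _
    rw [lintegral_add_left (mA m), lintegral_mul_const _ (ef_meas m), lint_ef l d h0 h1 hd0 hd1,
      lintegral_finsetSum _ fun k _ => mk m k]
    have hk : ∀ k ∈ Finset.range (n + 1), ∫⁻ σ, (if m < k then
        (ef σ m * ENNReal.ofReal (σ k)) * ENNReal.ofReal (2 * r ^ (k - m)) else 0) ∂(PP (nu l d))
        = ENNReal.ofReal (((1 - l) ^ m * l) * (E * (2 * (if m < k then r ^ (k - m) else 0)))) := by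
      intro k _
      split_ifs with hmk
      · rw [lintegral_mul_const _ (mC m k),
          lint_ef_coord l d h0 h1 hd0 hd1 m k hmk, ← ENNReal.ofReal_mul (by positivity),
          ← ENNReal.ofReal_mul (by positivity)]
        congr 1
        ring
      · simp
    rw [Finset.sum_congr rfl hk, ← ENNReal.ofReal_sum_of_nonneg (fun k _ => by
      split_ifs
      · positivity
      · simp), ← Finset.mul_sum, ← Finset.mul_sum, ← Finset.mul_sum,
      ← ENNReal.ofReal_mul (by positivity), ← ENNReal.ofReal_add (by positivity) (by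
        refine mul_nonneg (by positivity) (mul_nonneg hE0.le (mul_nonneg (by norm_num) ?_))
        refine Finset.sum_nonneg fun k _ => ?_
        split_ifs
        · positivity
        · simp), ← mul_add]
    apply ENNReal.ofReal_le_ofReal
    have := sum_shift_geo r hr.le hr1 m n
    gcongr
  rw [← ENNReal.ofReal_mul (by positivity)]
  refine (add_le_add_left (Finset.sum_le_sum hm) _).trans ?_
  rw [← ENNReal.ofReal_sum_of_nonneg (fun m _ => by positivity),
    ← ENNReal.ofReal_add (Finset.sum_nonneg fun m _ => by positivity) (by positivity)]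
  apply ENNReal.ofReal_le_ofReal
  have g1 : ∑ m ∈ Finset.range (n + 1), (1 - l) ^ m ≤ 1 / l := by
    have := geo_sum_le (1 - l) h1l.le (by linarith) (n + 1)
    rwa [sub_sub_cancel] at this
  have g2 : ∑ m ∈ Finset.range (n + 1), (m : ℝ) * (1 - l) ^ m ≤ 1 / l ^ 2 := by
    have := sum_geo_mul (1 - l) h1l.le (by linarith) (n + 1)
    rw [sub_sub_cancel] at this
    refine this.trans ?_
    gcongr
    linarith
  have e1 : ∑ m ∈ Finset.range (n + 1), (1 - l) ^ m * l * (3 + 2 * (m / N) + E * (2 * (1 / (1 - r))))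
      = (l * (3 + E * (2 * (1 / (1 - r))))) * ∑ m ∈ Finset.range (n + 1), (1 - l) ^ m
        + (2 * l ^ 2) * ∑ m ∈ Finset.range (n + 1), (m : ℝ) * (1 - l) ^ m := by
    rw [Finset.mul_sum, Finset.mul_sum, ← Finset.sum_add_distrib]
    refine Finset.sum_congr rfl fun m _ => ?_
    rw [hN]
    field_simp
    ring
  rw [e1]
  have b1 : (l * (3 + E * (2 * (1 / (1 - r))))) * ∑ m ∈ Finset.range (n + 1), (1 - l) ^ m
      ≤ 3 + 4 * l / (1 - r) := by
    calc _ ≤ (l * (3 + E * (2 * (1 / (1 - r))))) * (1 / l) := by gcongr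
      _ = 3 + E * 2 / (1 - r) := by field_simp
      _ ≤ 3 + 4 * l / (1 - r) := by
          have : E * 2 ≤ 4 * l := by linarith
          gcongr
  have b2 : (2 * l ^ 2) * ∑ m ∈ Finset.range (n + 1), (m : ℝ) * (1 - l) ^ m ≤ 2 := by
    calc _ ≤ (2 * l ^ 2) * (1 / l ^ 2) := by gcongr
      _ = 2 := by field_simp
  have b3 : (1 - l) ^ (n + 1) * (1 / (1 - r)) = (1 - l) ^ (n + 1) / (1 - r) := by ring
  rw [b3]
  linarith

end Q213.KR
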