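import Pool.Agent.Q213.KR8

set_option autoImplicit false
open MeasureTheory ProbabilityTheory Filter Topology Set Kac764
open scoped ENNReal NNReal

namespace Q213.KR

theorem hasSum_sq_geo (q : ℝ) (h0 : 0 ≤ q) (h1 : q < 1) :
    HasSum (fun n : ℕ => (n : ℝ) ^ 2 * q ^ n) (q * (1 + q) / (1 - q) ^ 3) := by
  have hn : ‖q‖ < 1 := by rw [Real.norm_eq_abs, abs_of_nonneg h0]; exact h1
  have a2 := hasSum_choose_mul_geometric_of_norm_lt_one (𝕜 := ℝ) 2 hn
  have a1 := hasSum_coe_mul_geometric_of_norm_lt_one hn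
  have a0 := hasSum_geometric_of_lt_one h0 h1
  have h := ((a2.mul_left 2).sub (a1.mul_left 3)).sub (a0.mul_left 2)
  have hq : (1 - q) ≠ 0 := by linarith
  have e : 2 * (1 / (1 - q) ^ (2 + 1)) - 3 * (q / (1 - q) ^ 2) - 2 * (1 - q)⁻¹
      = q * (1 + q) / (1 - q) ^ 3 := by
    field_simp
    ring
  rw [e] at h
  have e2 : (fun n : ℕ => (n : ℝ) ^ 2 * q ^ n) = fun n : ℕ =>
      2 * (((n + 2).choose 2 : ℕ) * q ^ n) - 3 * ((n : ℝ) * q ^ n) - 2 * q ^ n := by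
    funext n
    rw [Nat.cast_choose_two]
    push_cast
    ring
  rw [e2]
  exact h

/-- `½ ∑∑_{j,k<n} (j-k)² q^{j+k} ≤ q/(1-q)^4` -/
theorem double_sum_le (q : ℝ) (h0 : 0 ≤ q) (h1 : q < 1) (n : ℕ) :
    (1 / 2) * ∑ j ∈ Finset.range n, ∑ k ∈ Finset.range n, ((j : ℝ) - k) ^ 2 * (q ^ j * q ^ k)
      ≤ q / (1 - q) ^ 4 := by
  set f : ℕ → ℝ := fun n => (1 / 2) * ∑ j ∈ Finset.range n, ∑ k ∈ Finset.range n,
    ((j : ℝ) - k) ^ 2 * (q ^ j * q ^ k) with hf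
  have hmono : Monotone f := by
    intro a b hab
    simp only [hf]
    apply mul_le_mul_of_nonneg_left _ (by norm_num)
    have hs : Finset.range a ⊆ Finset.range b := Finset.range_subset_range.2 hab
    calc ∑ j ∈ Finset.range a, ∑ k ∈ Finset.range a, ((j : ℝ) - k) ^ 2 * (q ^ j * q ^ k)
        ≤ ∑ j ∈ Finset.range a, ∑ k ∈ Finset.range b, ((j : ℝ) - k) ^ 2 * (q ^ j * q ^ k) := by
          refine Finset.sum_le_sum fun j _ => ?_
          exact Finset.sum_le_sum_of_subset_of_nonneg hs fun _ _ _ => by positivity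
      _ ≤ _ := Finset.sum_le_sum_of_subset_of_nonneg hs fun _ _ _ =>
          Finset.sum_nonneg fun _ _ => by positivity
  have hn : ‖q‖ < 1 := by rw [Real.norm_eq_abs, abs_of_nonneg h0]; exact h1
  have a0 := (hasSum_geometric_of_lt_one h0 h1).tendsto_sum_nat
  have a1 := (hasSum_coe_mul_geometric_of_norm_lt_one hn).tendsto_sum_nat
  have a2 := (hasSum_sq_geo q h0 h1).tendsto_sum_nat
  have hlim : Tendsto f atTop (𝓝 (q / (1 - q) ^ 4)) := by
    have h := (a0.mul a2).sub (a1.mul a1)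
    have hq : (1 - q) ≠ 0 := by linarith
    have e : (1 - q)⁻¹ * (q * (1 + q) / (1 - q) ^ 3) - q / (1 - q) ^ 2 * (q / (1 - q) ^ 2)
        = q / (1 - q) ^ 4 := by
      field_simp
      ring
    rw [e] at h
    refine h.congr fun n => ?_
    simp only [hf]
    rw [Finset.sum_mul_sum, Finset.sum_mul_sum, ← Finset.sum_sub_distrib]
    simp only [← Finset.sum_sub_distrib]
    have s1 : ∑ j ∈ Finset.range n, ∑ k ∈ Finset.range n, ((j : ℝ) - k) ^ 2 * (q ^ j * q ^ k)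
        = ∑ j ∈ Finset.range n, ∑ k ∈ Finset.range n, (q ^ j * ((k : ℝ) ^ 2 * q ^ k)
          - (j : ℝ) * q ^ j * ((k : ℝ) * q ^ k))
          + ∑ j ∈ Finset.range n, ∑ k ∈ Finset.range n, (q ^ k * ((j : ℝ) ^ 2 * q ^ j)
          - (k : ℝ) * q ^ k * ((j : ℝ) * q ^ j)) := by
      rw [← Finset.sum_add_distrib]
      refine Finset.sum_congr rfl fun j _ => ?_
      rw [← Finset.sum_add_distrib]
      refine Finset.sum_congr rfl fun k _ => ?_
      ring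
    have s2 : ∑ j ∈ Finset.range n, ∑ k ∈ Finset.range n, (q ^ k * ((j : ℝ) ^ 2 * q ^ j)
          - (k : ℝ) * q ^ k * ((j : ℝ) * q ^ j))
        = ∑ j ∈ Finset.range n, ∑ k ∈ Finset.range n, (q ^ j * ((k : ℝ) ^ 2 * q ^ k)
          - (j : ℝ) * q ^ j * ((k : ℝ) * q ^ k)) := Finset.sum_comm
    rw [s1, s2]
    ring
  exact hmono.ge_of_tendsto hlim n

theorem exp_half (t : ℝ) (h0 : 0 ≤ t) (h1 : t ≤ 1) : Real.exp (-t) ≤ 1 - t / 2 := by
  have h := Real.quadratic_le_exp_of_nonneg h0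
  rw [Real.exp_neg, inv_le_iff_one_le_mul₀ (Real.exp_pos t)]
  have h2 : (1 - t / 2) * (1 + t + t ^ 2 / 2) ≤ (1 - t / 2) * Real.exp t :=
    mul_le_mul_of_nonneg_left h (by linarith)
  have h3 : 1 ≤ (1 - t / 2) * (1 + t + t ^ 2 / 2) := by
    have : (1 - t / 2) * (1 + t + t ^ 2 / 2) = 1 + t / 4 * (2 - t ^ 2) := by ring
    rw [this]
    have h4 : 0 ≤ t / 4 * (2 - t ^ 2) := by
      apply mul_nonneg (by linarith)
      nlinarith
    linarith
  linarith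

theorem phi_le (l d u : ℝ) (hl0 : 0 ≤ l) (hl1 : l ≤ 1) (hd0 : 0 ≤ d) (hd1 : d ≤ 1) (hu0 : 0 ≤ u)
    (hu1 : u ≤ 1) :
    (1 - l) * Real.exp (-(d ^ 2 * u)) + l * Real.exp (-u)
      ≤ Real.exp (-(((1 - l) * d ^ 2 + l) * u / 2)) := by
  have hdd : d ^ 2 ≤ 1 := by nlinarith
  have h1 := exp_half (d ^ 2 * u) (by positivity) (by nlinarith)
  have h2 := exp_half u hu0 hu1
  have h3 := Real.add_one_le_exp (-(((1 - l) * d ^ 2 + l) * u / 2))
  have h4 : (1 - l) * Real.exp (-(d ^ 2 * u)) ≤ (1 - l) * (1 - d ^ 2 * u / 2) :=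
    mul_le_mul_of_nonneg_left h1 (by linarith)
  have h5 : l * Real.exp (-u) ≤ l * (1 - u / 2) := mul_le_mul_of_nonneg_left h2 hl0
  nlinarith

end Q213.KR
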